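import Pool.Agent.H370Z.CC.Uq

set_option autoImplicit false
set_option maxRecDepth 1000000

namespace Pool.Agent.H370Z.CC

def b3_u0 : List (List (Nat × Nat)) := [[(3420991, 4265681), (10083251, 10537301)], [(6239915, 6693965)], []]

theorem q3_u0 : uq 3 1 b3_u0
    [[32801, 17497], [17497], []]
    [[0x1ba19f80c4, 0xde634390e4], [0x731bcc138e4], []] = true := by decide +kernel

theorem g3_u0 : Good 3 (Sym 3) b3_u0 := good_of_uq (by norm_num) q3_u0

def b3_u1 : List (List (Nat × Nat)) := [[(1811746, 2602607), (3712595, 5116109)], [(1811746, 2602607)], []]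

theorem q3_u1 : uq 3 2 b3_u1
    [[18603, 32801], [18603], []]
    [[0xfc1ff780c4, 0x46dd11b9c124], [0xfc1ff804c4], []] = true := by decide +kernel

theorem g3_u1 : Good 3 (Sym 3) b3_u1 := good_of_uq (by norm_num) q3_u1

def b3_u2 : List (List (Nat × Nat)) := [[(5214903, 5969908), (10807308, 11562313)], [(5214903, 5969908)], []]

theorem q3_u2 : uq 3 2 b3_u2
    [[32801, 32801], [32801], []]
    [[0x1b2edc38a4, 0x5d941f8a4], [0x1b2ec39ca4], []] = true := by decide +kernel

theorem g3_u2 : Good 3 (Sym 3) b3_u2 := good_of_uq (by norm_num) q3_u2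

def b3_c0 : List (List (Nat × Nat)) := [[(262144, 14680064), (262144, 14680064)], [(262144, 14680064)], []]

end Pool.Agent.H370Z.CC
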