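import Pool.Agent.H370Z.CC.Uq

set_option autoImplicit false
set_option maxRecDepth 1000000

namespace Pool.Agent.H370Z.CC

def b4_u0 : List (List (Nat × Nat)) := [[(2533819, 3058587), (5068287, 6116523), (10896122, 11473500)], [(2533819, 3058587), (8283065, 8494151)], [(5303716, 5881094)], []]

theorem q4_u0 : uq 4 2 b4_u0
    [[16417, 32801, 17906], [16417, 6302], [17906], []]
    [[0x76d5250ae66bb00e4, 0x1d600762f6075f9c104, 0x19d115f56406c3ad104], [0x5d2cbc7ae893880e4, 0x14b7d493e02c41edf905], [0x34d138da5c29c12f904], []] = true := by decide +kernel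

theorem g4_u0 : Good 4 (Sym 4) b4_u0 := good_of_uq (by norm_num) q4_u0

def b4_u1 : List (List (Nat × Nat)) := [[(1654928, 2212939), (3169427, 4180264), (4877464, 6340094)], [(1433319, 2048504), (3169427, 4180264)], [(1654928, 2212939)], []]

theorem q4_u1 : uq 4 3 b4_u1
    [[12115, 23490, 32801], [15411, 23490], [12115], []]
    [[0x1a602e25cc6e3b78104, 0x20e76ce985f25313ba0144, 0x1347256bc0dc94d3a54144], [0x9c2df03115bce3380924, 0xc4c94e985ddb83b980144], [0x2e0c6e25e01a7804104], []] = true := by decide +kernel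

theorem g4_u1 : Good 4 (Sym 4) b4_u1 := good_of_uq (by norm_num) q4_u1

def b4_u2 : List (List (Nat × Nat)) := [[(3918482, 4470126), (7975691, 8801525), (12307090, 12858734)], [(3918482, 4470126), (7975691, 8801525)], [(3918482, 4470126)], []]

theorem q4_u2 : uq 4 3 b4_u2
    [[22234, 32801, 22234], [22234, 32801], [22234], []]
    [[0x13af229d9131b80ed04, 0x5302c572361c1f8e4, 0x1d112c32111d0c3ad04], [0x2351326bd12340ef904, 0xb046c5780a41f9ce4], [0x3191229daf138ef8104], []] = true := by decide +kernel

theorem g4_u2 : Good 4 (Sym 4) b4_u2 := good_of_uq (by norm_num) q4_u2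

def b4_c0 : List (List (Nat × Nat)) := [[(262144, 14680064), (262144, 14680064), (262144, 14680064)], [(262144, 14680064), (262144, 14680064)], [(262144, 14680064)], []]

end Pool.Agent.H370Z.CC
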