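import Pool.Agent.H370Z.CC.Uq

set_option autoImplicit false
set_option maxRecDepth 1000000

namespace Pool.Agent.H370Z.CC

def b5_u0 : List (List (Nat × Nat)) := [[(2209273, 2574753), (4209064, 4871097), (6418850, 7445336), (11566498, 12142811)], [(1999278, 2296857), (4209064, 4871097), (9313622, 9611662)], [(2209273, 2574753), (7165554, 7463594)], [(4634405, 5210718)], []]

theorem q5_u0 : uq 5 3 b5_u0
    [[11727, 21106, 32801, 18242], [9412, 21106, 9153], [11727, 9153], [18242], []]
    [[0x81004c57275dfe586efae80e4, 0x7fbd99d0f799b9f93eab1c2bb1c124, 0x81bd9250a77a65fb8277a49fa54124, 0x41cbdb7cccbdeae5bd30bba7203dbaa145], [0x869cdd95461efe546dfb080e4, 0x83bc4e70aab1c5fd3e79b4539c8124, 0x860d47caff7b0dc8563a7a9c703ef73c546], [0x8cece405879ffe7228f90c0e4, 0x84aff8d8d485b2186dc68520b031cfdf946], [0x5becce3abdc4752c1acfc23218115df945], []] = true := by decide +kernel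

theorem g5_u0 : Good 5 (Sym 5) b5_u0 := good_of_uq (by norm_num) q5_u0

def b5_u1 : List (List (Nat × Nat)) := [[(1534086, 2026592), (2894704, 3710108), (4248386, 5400559), (5807824, 7401799)], [(1305731, 1738402), (2676417, 3411849), (4248386, 5400559)], [(1305731, 1738402), (2894704, 3710108)], [(1534086, 2026592)], []]

theorem q5_u1 : uq 5 4 b5_u1
    [[10437, 16783, 23408, 32801], [8681, 14593, 23408], [8681, 16783], [10437], []]
    [[0x14ddd75fe031addd83b17b774104, 0x1d67de0d7f1d326a377db6a1a7b764144, 0x1f1774e37edb246237d71a8317ba9c144, 0x11f70d537e5d354f257e5c347fa5d4144], [0x6b426e0f637f8a56f74bd1f7780924, 0x822f0d003f5c388021bbf5787047b9c0164, 0xc56a118d71b238e377eddd7c79d00144], [0xa3a5fc4f737dc256f684b5b3804524, 0x69da89a7d9d3836377f1f775b9444144], [0x3143b19da0176ddfddd4f8444104], []] = true := by decide +kernel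

theorem g5_u1 : Good 5 (Sym 5) b5_u1 := good_of_uq (by norm_num) q5_u1

def b5_u2 : List (List (Nat × Nat)) := [[(3249461, 3461426), (6551160, 6870613), (9906603, 10226056), (13315790, 13527755)], [(3249461, 3461426), (6551160, 6870613), (9906603, 10226056)], [(3249461, 3461426), (6551160, 6870613)], [(3249461, 3461426)], []]

theorem q5_u2 : uq 5 4 b5_u2
    [[21780, 32801, 32801, 21780], [21780, 32801, 32801], [21780, 32801], [21780], []]
    [[0x132e5329622a959e16f5f9c16504, 0x48b537e5ad3bec852cccbee8807f925, 0x11a523db13f52e9a13e3dc0b3904, 0x569d3c095540f02df95574d5a5007fea946], [0x838a53dd8aedadf50caea7bc0aa7925, 0xe069df92cccbf6dd2cd370100ff6925, 0x23d3f51a13e3ee9b251180b39d04], [0x14f576d50caea7df5d914418154f3d25, 0x17d665f52cd36fc865b6a2401fed1125], [0x35d6ea9e221315a96e531679c104], []] = true := by decide +kernel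

theorem g5_u2 : Good 5 (Sym 5) b5_u2 := good_of_uq (by norm_num) q5_u2

def b5_c0 : List (List (Nat × Nat)) := [[(262144, 6956967), (524287, 7335452), (786430, 14680064), (262144, 14680064)], [(262144, 7073309), (524287, 7328668), (786430, 14680064)], [(262144, 7066525), (262144, 14680064)], [(262144, 14680064)], []]

def b5_c1 : List (List (Nat × Nat)) := [[(262144, 14680064), (262144, 14680064), (262144, 14680064), (262144, 14680064)], [(262144, 14680064), (262144, 14680064), (262144, 14680064)], [(262144, 14680064), (262144, 14680064)], [(262144, 14680064)], []]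

end Pool.Agent.H370Z.CC
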