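import Pool.Agent.H370Z.CC.Uq
import Pool.Agent.H443CC.Limit

/-! From the limit equations to the normalised equations. -/

set_option autoImplicit false

namespace Pool.Agent.H370Z.CC

open Finset Real

theorem g_ge {x : ℝ} (h0 : 0 < x) (h1 : x ≤ 14680064) : -4 ≤ g x := by
  have hs := sn_pos h0 (by linarith)
  have hs1 := sn_le_one x
  have hc : |cs x| ≤ 1 := abs_cos_le_one _
  rw [abs_le] at hc
  have hpi := pi_pos
  rcases le_total x 8388608 with h | h
  · have h2 := cs_nonneg h0.le h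
    have h3 : 0 ≤ cs x / (4 * sn x ^ 2) := by positivity
    unfold g
    nlinarith
  · have h2 := cs_nonneg (x := 16777216 - x) (by linarith) (by linarith)
    rw [cs_sub] at h2
    have h3 : 1 / 4 ≤ sn x := by
      rw [← sn_sub]
      have h := mul_le_sin (x := π * (16777216 - x) / 16777216)
        (div_nonneg (mul_nonneg hpi.le (by linarith)) (by norm_num))
        (by rw [div_le_iff₀ (by norm_num)]; nlinarith)
      have h4 : 2 / π * (π * (16777216 - x) / 16777216) = (16777216 - x) / 8388608 := by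
        field_simp; ring
      rw [h4] at h
      unfold sn
      linarith
    have h4 : -4 ≤ cs x / (4 * sn x ^ 2) := by
      rw [le_div_iff₀ (by positivity)]
      nlinarith
    unfold g
    nlinarith

theorem g_big {x : ℝ} (h0 : 0 < x) (h1 : x ≤ 262144) : 80 ≤ g x := by
  have hs := sn_pos h0 (by linarith)
  have hpi := pi_pos
  have hpi2 := pi_lt_d2
  have h2 : sn x ≤ 1 / 20 := by
    have h := sin_le (x := π * x / 16777216) (by positivity)
    have h3 : π * x ≤ 3.15 * 262144 := by gcongr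
    unfold sn
    linarith
  have h3 := cs_nonneg h0.le (by linarith : x ≤ 8388608)
  have h4 := sq_add x
  have h5 : 9 / 10 ≤ cs x := by nlinarith
  have hc : cs x ≤ 1 := cos_le_one _
  have h6 : 90 ≤ cs x / (4 * sn x ^ 2) := by
    rw [le_div_iff₀ (by positivity)]
    nlinarith
  unfold g
  nlinarith

theorem sum_anti (θ : ℕ → ℝ) (n : ℕ) : ∑ a ∈ range n, ∑ b ∈ range n, Gp (θ b - θ a) = 0 := by
  have h : ∑ a ∈ range n, ∑ b ∈ range n, Gp (θ b - θ a) =
      -∑ a ∈ range n, ∑ b ∈ range n, Gp (θ b - θ a) := by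
    conv_lhs => rw [sum_comm]
    rw [← sum_neg_distrib]
    refine sum_congr rfl fun a _ => ?_
    rw [← sum_neg_distrib]
    refine sum_congr rfl fun b _ => ?_
    rw [← Gp_neg, neg_sub]
  linarith

theorem sorted_sym {N : ℕ} (h2 : 2 ≤ N) (h8 : N ≤ 8)
    (hG : Good N (Sym N) (bld (fun _ _ => (262144, 14680064)) N 0)) {θ : ℕ → ℝ}
    (he : NodeEq N θ) (hm : ∀ a b, a < b → b < N → θ a < θ b) (hn : Nrm N θ) : Sym N θ := by
  have hm' : ∀ a b, a ≤ b → b < N → θ a ≤ θ b := fun a b h hb =>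
    (lt_or_eq_of_le h).elim (fun h => (hm a b h hb).le) fun h => by rw [h]
  have hT : θ (N - 1) - θ 0 ≤ 14680064 := by
    have h1 : ∀ k : ℕ, k + 1 ≤ N → θ k - θ 0 ≤ k * (16777216 - (θ (N - 1) - θ 0)) := by
      intro k
      induction k with
      | zero => simp
      | succ k ih =>
        intro hk
        have := ih (by omega)
        have := hn.1 k (by omega)
        push_cast
        linarith
    have h3 := h1 (N - 1) (by omega)
    have h4 : ((N - 1 : ℕ) : ℝ) ≤ 7 := by exact_mod_cast (by omega : N - 1 ≤ 7)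
    have h5 := hn.1 0 h2
    have h6 := hm 0 1 (by omega) (by omega)
    nlinarith
  have hu : ∀ a b, a < b → b < N → θ b - θ a ≤ 14680064 := fun a b h hb => by
    have := hm' 0 a (by omega) (by omega)
    have := hm' b (N - 1) (by omega) (by omega)
    linarith
  have hl : ∀ i j, i < j → j < N → 262144 ≤ θ j - θ i := by
    intro i j hij hj
    by_contra hc
    have h1 : ∑ a ∈ range (i + 1), ∑ b ∈ range N, Gp (θ b - θ a) = 0 :=
      sum_eq_zero fun a ha => he a (by have := mem_range.1 ha; omega)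
    have h3 : ∑ a ∈ range (i + 1), ∑ b ∈ Ico (i + 1) N, Gp (θ b - θ a) = 0 := by
      have h4 := sum_anti θ (i + 1)
      rw [← h4, ← sub_eq_zero, ← sum_sub_distrib] at h1
      rw [← h1]
      refine sum_congr rfl fun a _ => ?_
      rw [sum_Ico_eq_sub _ (by omega)]
    have h5 : ∀ a ∈ range (i + 1), ∀ b ∈ Ico (i + 1) N, 0 ≤ Gp (θ b - θ a) + 4 := by
      intro a ha b hb
      have ha' := mem_range.1 ha
      have hb' := mem_Ico.1 hb
      have b1 := hm a b (by omega) hb'.2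
      have b2 := hu a b (by omega) hb'.2
      rw [Gp_eq (by linarith) (by linarith)]
      have := g_ge (x := θ b - θ a) (by linarith) b2
      linarith
    have h6 : Gp (θ j - θ i) + 4 ≤ ∑ b ∈ Ico (i + 1) N, (Gp (θ b - θ i) + 4) :=
      single_le_sum (f := fun b => Gp (θ b - θ i) + 4) (h5 i (mem_range.2 (by omega)))
        (mem_Ico.2 ⟨by omega, hj⟩)
    have h7 : ∑ b ∈ Ico (i + 1) N, (Gp (θ b - θ i) + 4) ≤
        ∑ a ∈ range (i + 1), ∑ b ∈ Ico (i + 1) N, (Gp (θ b - θ a) + 4) :=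
      single_le_sum (f := fun a => ∑ b ∈ Ico (i + 1) N, (Gp (θ b - θ a) + 4))
        (fun a ha => sum_nonneg (h5 a ha)) (mem_range.2 (by omega))
    simp only [sum_add_distrib, h3, sum_const, card_range, Nat.card_Ico, nsmul_eq_mul] at h7
    have h9 : (i + 1) * (N - (i + 1)) ≤ 16 := by
      have : i < 8 := by omega
      interval_cases N <;> interval_cases i <;> simp
    have h10 : ((i + 1 : ℕ) : ℝ) * ((N - (i + 1) : ℕ) : ℝ) ≤ 16 := by exact_mod_cast h9
    have b1 := hm i j hij hj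
    rw [Gp_eq (by linarith) (by linarith)] at h6
    have := g_big (x := θ j - θ i) (by linarith) (by linarith)
    simp only [sum_add_distrib, sum_const, Nat.card_Ico, nsmul_eq_mul] at h6
    nlinarith
  obtain ⟨b1, b2⟩ := bld_ok (P := InP θ) (fun _ _ => ((262144, 14680064) : ℕ × ℕ)) N 0
    fun a b _ hab hb => ⟨by simpa using hl a b hab (by omega), by simpa using hu a b hab (by omega)⟩
  exact hG θ he hn b1 b2

theorem sorted_sym' {N : ℕ} (h2 : 2 ≤ N) (h8 : N ≤ 8)
    (hG : Good N (Sym N) (bld (fun _ _ => (262144, 14680064)) N 0)) {θ : ℕ → ℝ}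
    (he : NodeEq N θ) (hm : ∀ a b, a < b → b < N → θ a < θ b)
    (hn : ∀ k, k + 2 ≤ N → θ (k + 1) - θ k + (θ (N - 1) - θ 0) ≤ 16777216) : Sym N θ := by
  rcases le_total (θ 1 - θ 0) (θ (N - 1) - θ (N - 2)) with h | h
  · exact sorted_sym h2 h8 hG he hm ⟨hn, h⟩
  · obtain ⟨α, hα⟩ := sorted_sym h2 h8 hG (θ := fun k => -θ (N - 1 - k)) (by
      intro i hi
      rw [sum_range_reflect (fun j => Gp (-θ j - -θ (N - 1 - i))) N]
      have := he (N - 1 - i) (by omega)
      rw [← neg_eq_zero, ← sum_neg_distrib] at this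
      rw [← this]
      exact sum_congr rfl fun j _ => by rw [← Gp_neg]; congr 1; ring)
      (fun a b hab hb => neg_lt_neg (hm _ _ (by omega) (by omega))) ⟨by
        intro k hk
        have := hn (N - 2 - k) (by omega)
        rw [show N - 2 - k + 1 = N - 1 - k by omega, show N - 2 - k = N - 1 - (k + 1) by omega]
          at this
        simp only [Nat.sub_self, Nat.sub_zero]
        linarith, by
        simp only [Nat.sub_self, Nat.sub_zero]
        rw [show N - 1 - (N - 2) = 1 by omega, show N - 1 - 1 = N - 2 by omega]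
        linarith⟩
    refine ⟨-α, fun i hi => ?_⟩
    obtain ⟨j, hj, n, hn⟩ := hα (N - 1 - i) (by omega)
    refine ⟨N - 1 - j, by omega, -n, ?_⟩
    simp only at hn
    rw [show N - 1 - (N - 1 - i) = i by omega] at hn
    push_cast
    linarith

theorem sum_shift {N : ℕ} (f : ℕ → ℝ) (h : ∀ m, f (m + N) = f m) :
    ∀ s : ℕ, ∑ k ∈ range N, f (k + s) = ∑ k ∈ range N, f k
  | 0 => rfl
  | s + 1 => by
    rw [← sum_shift f h s]
    have h1 := sum_range_succ (fun k => f (k + s)) N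
    have h2 := sum_range_succ' (fun k => f (k + s)) N
    simp only [zero_add] at h2
    rw [add_comm N s, h] at h1
    have h3 : ∑ k ∈ range N, f (k + (s + 1)) = ∑ k ∈ range N, f (k + 1 + s) :=
      sum_congr rfl fun k _ => by rw [show k + (s + 1) = k + 1 + s by omega]
    linarith

theorem circle_sym {N : ℕ} (h2 : 2 ≤ N) (h8 : N ≤ 8)
    (hG : Good N (Sym N) (bld (fun _ _ => (262144, 14680064)) N 0)) (φ : Fin N → ℝ)
    (hφ : ∀ i, φ i ∈ Set.Ico (0 : ℝ) 16777216) (hinj : Function.Injective φ)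
    (he : ∀ i, ∑ j, Gp (φ j - φ i) = 0) :
    ∃ α : ℝ, ∀ i, ∃ j, ∃ n : ℤ, φ j = α - φ i + n * 16777216 := by
  have hN0 : 0 < N := by omega
  obtain ⟨σ, hσ⟩ : ∃ σ, σ = Tuple.sort φ := ⟨_, rfl⟩
  have hsm : StrictMono (φ ∘ σ) := by
    rw [hσ]
    exact (Tuple.monotone_sort φ).strictMono_of_injective (hinj.comp (Tuple.sort φ).injective)
  obtain ⟨θ, hθ⟩ : ∃ θ : ℕ → ℝ, ∀ i, θ i = φ (σ ⟨i % N, Nat.mod_lt _ hN0⟩) +
    (i / N : ℕ) * 16777216 := ⟨_, fun _ => rfl⟩
  have hθfin : ∀ k : Fin N, θ k = φ (σ k) := by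
    intro k
    have h1 : (k : ℕ) / N = 0 := Nat.div_eq_of_lt k.2
    have h2 : (⟨(k : ℕ) % N, Nat.mod_lt _ hN0⟩ : Fin N) = k := by
      apply Fin.ext; simp [Nat.mod_eq_of_lt k.2]
    simp only [hθ, h1, h2]; simp
  have hper : ∀ i, θ (i + N) = θ i + 16777216 := by
    intro i
    have h1 : (i + N) / N = i / N + 1 := Nat.add_div_right i hN0
    have h2 : (⟨(i + N) % N, Nat.mod_lt _ hN0⟩ : Fin N) = ⟨i % N, Nat.mod_lt _ hN0⟩ := by
      apply Fin.ext; simp
    simp only [hθ, h1, h2]; push_cast; ring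
  have hmono : StrictMono θ := by
    intro i j hij
    rcases lt_or_eq_of_le (Nat.div_le_div_right (c := N) hij.le) with h | h
    · have h1 := (hφ (σ ⟨i % N, Nat.mod_lt _ hN0⟩)).2
      have h2 := (hφ (σ ⟨j % N, Nat.mod_lt _ hN0⟩)).1
      have h3 : ((i / N : ℕ) : ℝ) + 1 ≤ ((j / N : ℕ) : ℝ) := by exact_mod_cast h
      simp only [hθ]
      linarith
    · have h1 : i % N < j % N := by
        have h2 := Nat.div_add_mod i N
        have h3 := Nat.div_add_mod j N
        rw [h] at h2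
        omega
      have h2 := hsm (show (⟨i % N, Nat.mod_lt _ hN0⟩ : Fin N) < ⟨j % N, Nat.mod_lt _ hN0⟩ from h1)
      simp only [Function.comp] at h2
      simp only [hθ, h]
      linarith
  have hsum : ∀ f : ℝ → ℝ, ∑ i ∈ range N, f (θ i) = ∑ i, f (φ i) := by
    intro f
    rw [Finset.sum_range]
    simp only [hθfin]
    exact Equiv.sum_comp σ (fun i => f (φ i))
  obtain ⟨m, hm, hmax⟩ := exists_max_image (range N) (fun k => θ (k + 1) - θ k)
    ⟨0, mem_range.2 hN0⟩
  have hmax' : ∀ k, θ (k + 1) - θ k ≤ θ (m + 1) - θ m := by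
    intro k
    induction k using Nat.strong_induction_on with
    | _ k ih =>
      rcases lt_or_ge k N with h | h
      · exact hmax k (mem_range.2 h)
      · obtain ⟨t, rfl⟩ := Nat.exists_eq_add_of_le' h
        have := ih t (by omega)
        rw [show t + N + 1 = t + 1 + N by omega, hper, hper]
        linarith
  obtain ⟨α, hα⟩ := sorted_sym' h2 h8 hG (θ := fun k => θ (k + (m + 1))) (by
      intro i _
      rw [sum_shift (fun k => Gp (θ k - θ (i + (m + 1)))) (fun k => by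
        rw [hper, ← Gp_add (θ k - _)]; congr 1; ring),
        hsum fun x => Gp (x - θ (i + (m + 1))), ← he (σ ⟨(i + (m + 1)) % N, Nat.mod_lt _ hN0⟩)]
      refine sum_congr rfl fun j _ => ?_
      rw [← Gp_int _ ((i + (m + 1)) / N : ℕ), hθ, Int.cast_natCast]
      congr 1
      ring)
    (fun a b hab _ => hmono (by omega)) (by
      intro k _
      have h1 := hmax' (k + (m + 1))
      rw [show N - 1 + (m + 1) = m + N by omega, hper, zero_add,
        show k + 1 + (m + 1) = k + (m + 1) + 1 by omega]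
      linarith)
  refine ⟨α, fun i => ?_⟩
  obtain ⟨k, rfl⟩ := σ.surjective i
  have hm' := mem_range.1 hm
  have hk := k.2
  have key : ∃ t, t < N ∧ ∃ n : ℤ, θ (t + (m + 1)) = φ (σ k) + n * 16777216 := by
    rcases lt_or_ge (k : ℕ) (m + 1) with h | h
    · refine ⟨k + N - (m + 1), by omega, 1, ?_⟩
      rw [show k + N - (m + 1) + (m + 1) = k + N by omega, hper, hθfin]
      simp
    · refine ⟨k - (m + 1), by omega, 0, ?_⟩
      rw [show k - (m + 1) + (m + 1) = k by omega, hθfin]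
      simp
  obtain ⟨t, ht, n, hn⟩ := key
  obtain ⟨j, _, n', hn'⟩ := hα t ht
  simp only at hn'
  rw [hn, hθ] at hn'
  refine ⟨σ ⟨(j + (m + 1)) % N, Nat.mod_lt _ hN0⟩, n' - n - ((j + (m + 1)) / N : ℕ), ?_⟩
  rw [Int.cast_sub, Int.cast_sub, Int.cast_natCast]
  linarith

/-- the reflection of the plane across the line through `c` with doubled direction `u` -/
noncomputable def reflIso (c u : ℂ) (hu : ‖u‖ = 1) : ℂ ≃ᵢ ℂ where
  toFun z := c + u * (starRingEnd ℂ) (z - c)
  invFun z := c + u * (starRingEnd ℂ) (z - c)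
  left_inv z := by
    have h : u * (starRingEnd ℂ) u = 1 := by
      rw [Complex.mul_conj, Complex.normSq_eq_norm_sq, hu]; simp
    simp only [add_sub_cancel_left, map_mul, Complex.conj_conj]
    linear_combination (z - c) * h
  right_inv z := by
    have h : u * (starRingEnd ℂ) u = 1 := by
      rw [Complex.mul_conj, Complex.normSq_eq_norm_sq, hu]; simp
    simp only [add_sub_cancel_left, map_mul, Complex.conj_conj]
    linear_combination (z - c) * h
  isometry_toFun := by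
    refine Isometry.of_dist_eq fun x y => ?_
    rw [dist_eq_norm, dist_eq_norm, show c + u * (starRingEnd ℂ) (x - c) -
      (c + u * (starRingEnd ℂ) (y - c)) = u * (starRingEnd ℂ) (x - y) by
        simp only [map_sub]; ring, norm_mul, hu, one_mul, Complex.norm_conj]

theorem sym_of_refl {N : ℕ} (c u : ℂ) (hu : ‖u‖ = 1) (P : Fin N → ℂ)
    (h : ∀ i, ∃ j, P j - c = u * (starRingEnd ℂ) (P i - c)) :
    ∃ f : ℂ ≃ᵢ ℂ, f ≠ IsometryEquiv.refl ℂ ∧ f c = c ∧ f '' Set.range P = Set.range P := by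
  have hf : ∀ z, reflIso c u hu z = c + u * (starRingEnd ℂ) (z - c) := fun _ => rfl
  have hinv : ∀ z, reflIso c u hu (reflIso c u hu z) = z := (reflIso c u hu).left_inv
  have hs : ∀ i, reflIso c u hu (P i) ∈ Set.range P := fun i => by
    obtain ⟨j, hj⟩ := h i
    exact ⟨j, by rw [hf, ← hj]; ring⟩
  refine ⟨reflIso c u hu, fun h0 => ?_, by simp [hf], ?_⟩
  · have h1 : reflIso c u hu (c + 1) = c + 1 := by rw [h0]; rfl
    have h2 : reflIso c u hu (c + Complex.I) = c + Complex.I := by rw [h0]; rfl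
    simp only [hf, add_sub_cancel_left, map_one, Complex.conj_I, mul_one, add_right_inj] at h1 h2
    rw [h1] at h2
    have := congrArg Complex.im h2
    norm_num at this
  · apply Set.Subset.antisymm
    · rintro _ ⟨_, ⟨i, rfl⟩, rfl⟩
      exact hs i
    · rintro _ ⟨i, rfl⟩
      exact ⟨_, hs i, hinv _⟩

theorem plane_sym {N : ℕ}
    (hmain : ∀ φ : Fin N → ℝ, (∀ i, φ i ∈ Set.Ico (0 : ℝ) 16777216) → Function.Injective φ →
      (∀ i, ∑ j, Gp (φ j - φ i) = 0) → ∃ α : ℝ, ∀ i, ∃ j, ∃ n : ℤ, φ j = α - φ i + n * 16777216)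
    (X : Fin N → ℂ) (hinj : Function.Injective X) {ρ : ℝ} (hρ : 0 < ρ) (hX : ∀ i, ‖X i‖ = ρ)
    (heq : ∀ i, ∑ j, ((ρ ^ 3)⁻¹ - (‖X i - X j‖ ^ 3)⁻¹) * ((starRingEnd ℂ (X i)) * X j).im = 0) :
    ∃ u : ℂ, ‖u‖ = 1 ∧ ∀ i, ∃ j, X j = u * (starRingEnd ℂ) (X i) := by
  have hpi := pi_pos
  obtain ⟨ψ, hψ⟩ : ∃ ψ : Fin N → ℝ, ∀ i, ψ i = toIcoMod two_pi_pos 0 (X i).arg :=
    ⟨_, fun _ => rfl⟩
  have hmem : ∀ i, ψ i ∈ Set.Ico 0 (2 * π) := by
    intro i
    have := toIcoMod_mem_Ico two_pi_pos 0 (X i).arg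
    rw [hψ]
    simpa using this
  have hXexp : ∀ i, X i = ρ * Complex.exp (ψ i * Complex.I) := by
    intro i
    have h1 : ψ i = (X i).arg - toIcoDiv two_pi_pos 0 (X i).arg * (2 * π) := by
      simp only [hψ, toIcoMod, zsmul_eq_mul]
    have h2 : (ψ i : ℂ) * Complex.I = (X i).arg * Complex.I -
        (toIcoDiv two_pi_pos 0 (X i).arg : ℤ) * (2 * π * Complex.I) := by
      rw [h1]; push_cast; ring
    rw [h2, Complex.exp_sub, Complex.exp_int_mul_two_pi_mul_I, div_one, ← hX i]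
    exact (Complex.norm_mul_exp_arg_mul_I (X i)).symm
  have hdist : ∀ i j, ‖X i - X j‖ = ρ * (2 * |sin ((ψ j - ψ i) / 2)|) := by
    intro i j
    have h1 : X i - X j = -(ρ * Complex.exp (ψ i * Complex.I) *
        (Complex.exp (Complex.I * ((ψ j - ψ i : ℝ) : ℂ)) - 1)) := by
      rw [hXexp i, hXexp j]
      have : Complex.exp (ψ j * Complex.I) = Complex.exp (ψ i * Complex.I) *
          Complex.exp (Complex.I * ((ψ j - ψ i : ℝ) : ℂ)) := by
        rw [← Complex.exp_add]; congr 1; push_cast; ring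
      rw [this]; ring
    rw [h1, norm_neg, norm_mul, norm_mul, Complex.norm_exp_ofReal_mul_I,
      Complex.norm_real, Real.norm_eq_abs, abs_of_pos hρ,
      Complex.norm_exp_I_mul_ofReal_sub_one, Real.norm_eq_abs, abs_mul,
      abs_of_pos (by norm_num : (0:ℝ) < 2)]
    ring
  have hwedge : ∀ i j, ((starRingEnd ℂ (X i)) * X j).im = ρ ^ 2 * sin (ψ j - ψ i) := by
    intro i j
    have h1 : (starRingEnd ℂ (X i)) * X j = ((ρ ^ 2 : ℝ) : ℂ) *
        Complex.exp (((ψ j - ψ i : ℝ) : ℂ) * Complex.I) := by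
      rw [hXexp i, hXexp j]
      rw [map_mul, Complex.conj_ofReal, ← Complex.exp_conj, map_mul, Complex.conj_I,
        Complex.conj_ofReal]
      have h3 : Complex.exp (((ψ j - ψ i : ℝ) : ℂ) * Complex.I) =
          Complex.exp (ψ i * -Complex.I) * Complex.exp (ψ j * Complex.I) := by
        rw [← Complex.exp_add]; congr 1; push_cast; ring
      rw [h3]
      push_cast
      ring
    rw [h1, Complex.im_ofReal_mul, Complex.exp_ofReal_mul_I_im]
  obtain ⟨φ, hφ⟩ : ∃ φ : Fin N → ℝ, ∀ i, φ i = ψ i * 16777216 / (2 * π) := ⟨_, fun _ => rfl⟩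
  have hψφ : ∀ i, ψ i = 2 * π * φ i / 16777216 := fun i => by rw [hφ]; field_simp
  obtain ⟨α, hα⟩ := hmain φ (fun i => by
      have := hmem i
      rw [hφ]
      refine ⟨div_nonneg (mul_nonneg this.1 (by norm_num)) (by positivity), ?_⟩
      rw [div_lt_iff₀ (by positivity)]
      linarith [this.2])
    (fun i j h => hinj (by rw [hXexp i, hXexp j, hψφ i, hψφ j, h])) (by
      intro i
      have h1 := heq i
      have h2 : ∀ j, ((ρ ^ 3)⁻¹ - (‖X i - X j‖ ^ 3)⁻¹) * ((starRingEnd ℂ (X i)) * X j).im =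
          -ρ⁻¹ * Gp (φ j - φ i) := by
        intro j
        rw [hdist, hwedge, Gp, sn, hψφ i, hψφ j,
          show (2 * π * φ j / 16777216 - 2 * π * φ i / 16777216) / 2 =
            π * (φ j - φ i) / 16777216 by ring,
          show 2 * π * φ j / 16777216 - 2 * π * φ i / 16777216 =
            2 * π * (φ j - φ i) / 16777216 by ring]
        generalize |sin (π * (φ j - φ i) / 16777216)| = w
        generalize sin (2 * π * (φ j - φ i) / 16777216) = s
        rw [show (ρ * (2 * w)) ^ 3 = ρ ^ 3 * (8 * w ^ 3) by ring, mul_inv, div_eq_mul_inv]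
        generalize (8 * w ^ 3)⁻¹ = w'
        field_simp
        ring
      simp only [h2] at h1
      rw [← mul_sum] at h1
      exact (mul_eq_zero.1 h1).resolve_left (neg_ne_zero.2 (inv_ne_zero hρ.ne')))
  refine ⟨Complex.exp ((2 * π * α / 16777216 : ℝ) * Complex.I), Complex.norm_exp_ofReal_mul_I _,
    fun i => ?_⟩
  obtain ⟨j, n, hn⟩ := hα i
  refine ⟨j, ?_⟩
  have h1 : ψ j = 2 * π * α / 16777216 - ψ i + n * (2 * π) := by
    rw [hψφ j, hψφ i, hn]; ring
  rw [hXexp i, hXexp j, map_mul, Complex.conj_ofReal, ← Complex.exp_conj, map_mul, Complex.conj_I,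
    Complex.conj_ofReal, h1, show (((2 * π * α / 16777216 - ψ i + n * (2 * π) : ℝ) : ℂ)) *
      Complex.I = ((2 * π * α / 16777216 : ℝ) : ℂ) * Complex.I + ψ i * -Complex.I +
        n * (2 * π * Complex.I) by push_cast; ring, Complex.exp_add, Complex.exp_add,
    Complex.exp_int_mul_two_pi_mul_I]
  ring

open Pool.Agent.H443CC in
theorem cc_sym {N : ℕ} (h2 : 2 ≤ N)
    (hmain : ∀ φ : Fin N → ℝ, (∀ i, φ i ∈ Set.Ico (0 : ℝ) 16777216) → Function.Injective φ →
      (∀ i, ∑ j, Gp (φ j - φ i) = 0) → ∃ α : ℝ, ∀ i, ∃ j, ∃ n : ℤ, φ j = α - φ i + n * 16777216)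
    (Q : Fin (N + 1) → ℂ) (hQ : IsLimitingCC N Q) (hnc : NonCoalescent N Q) :
    ∃ f : ℂ ≃ᵢ ℂ, f ≠ IsometryEquiv.refl ℂ ∧ f (Q 0) = Q 0 ∧
      f '' Set.range (fun i : Fin N => Q i.succ) = Set.range (fun i : Fin N => Q i.succ) := by
  obtain ⟨ρ, hρ, hn, he⟩ := limit_equations h2 hQ hnc
  have hinj : Function.Injective (fun i : Fin N => Q i.succ - Q 0) := by
    intro i j h
    by_contra hij
    exact hnc i j hij (sub_left_injective h)
  obtain ⟨u, hu, h⟩ := plane_sym hmain (fun i : Fin N => Q i.succ - Q 0) hinj hρ hn (by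
    intro i
    rw [← he i]
    apply Finset.sum_congr rfl
    intro j _
    rw [show Q i.succ - Q 0 - (Q j.succ - Q 0) = Q i.succ - Q j.succ by ring])
  exact sym_of_refl (Q 0) u hu _ h

theorem one_sym (c : ℂ) (P : Fin 1 → ℂ) :
    ∃ f : ℂ ≃ᵢ ℂ, f ≠ IsometryEquiv.refl ℂ ∧ f c = c ∧ f '' Set.range P = Set.range P := by
  by_cases h : P 0 - c = 0
  · refine sym_of_refl c 1 norm_one P fun i => ⟨0, ?_⟩
    rw [Subsingleton.elim i 0, h]; simp
  · have h' : (starRingEnd ℂ) (P 0 - c) ≠ 0 := by rwa [map_ne_zero]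
    refine sym_of_refl c ((P 0 - c) / (starRingEnd ℂ) (P 0 - c)) ?_ P fun i => ⟨0, ?_⟩
    · rw [norm_div, Complex.norm_conj, div_self (norm_ne_zero_iff.2 h)]
    · rw [Subsingleton.elim i 0, div_mul_cancel₀ _ h']

theorem two_main (φ : Fin 2 → ℝ) :
    ∃ α : ℝ, ∀ i, ∃ j, ∃ n : ℤ, φ j = α - φ i + n * 16777216 := by
  refine ⟨φ 0 + φ 1, fun i => ?_⟩
  fin_cases i
  · exact ⟨1, 0, by simp⟩
  · exact ⟨0, 0, by simp⟩

end Pool.Agent.H370Z.CC
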