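import Pool.Agent.H370Z.CC.B3

set_option autoImplicit false
set_option maxRecDepth 1000000

namespace Pool.Agent.H370Z.CC

def t3_c0 : Tr :=
(.S 494704712 (.S 477927553 (.S 147330049 (.S 147330112 (.S 294660232 (.S 140657537 (.F 0x2b6283b8c4)
(.S 157434696 (.T 0)
(.S 141014336 (.F 0x2f52c438c4)
(.S 281671816 (.T 0)
(.R 1)))))
(.T 0))
(.Y 3))
(.S 164107208 (.T 0)
(.S 284268545 (.S 284268608 (.S 198414785 (.S 198414848 (.S 396829704 (.S 143848896 (.F 0xab83844)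
(.S 291178888 (.T 0)
(.F 0x3e8f840a4)))
(.T 0))
(.Y 3))
(.F 0x1c273814a4))
(.Y 3))
(.F 0xfc1ff800c4))))
(.T 0))
(.S 579037185 (.S 303212289 (.S 191492352 (.T 0)
(.S 303212352 (.S 191492289 (.T 0)
(.F 0xef14efb4104))
(.Y 3)))
(.S 770529608 (.S 131952000 (.F 0xfc1fdc38c4)
(.S 594677896 (.F 0x78041e0f801d26)
(.S 479064001 (.S 267082176 (.S 746146248 (.S 213161664 (.F 0xd8ad9c38c4)
(.S 673045576 (.S 408592961 (.F 0x13da4fa00e4)
(.S 621754568 (.T 0)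
(.S 665148936 (.S 451987329 (.S 244762560 (.F 0xf43f5c38c4)
(.S 653355464 (.T 0)
(.S 420386433 (.R 0)
(.T 0))))
(.T 0))
(.Y 1))))
(.F 0xe71ce438904)))
(.T 0))
(.S 397687552 (.S 396019265 (.S 678197960 (.F 0x73fac064)
(.S 333788864 (.F 0x2b629f80c4)
(.S 739953032 (.S 333788801 (.Y 3)
(.S 366282753 (.S 366282816 (.S 712296136 (.F 0x193e79c0a4)
(.R 2))
(.Y 3))
(.F 0x1d1f439ca4)))
(.Y 0))))
(.F 0x73c38464))
(.F 0xc8ec9c38c4)))
(.Y 1))))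
(.Y 1)))
(.Y 1)))

theorem k3_c0 : chkB 3 [b3_u0, b3_u1, b3_u2] t3_c0 b3_c0 = true := by decide +kernel

end Pool.Agent.H370Z.CC
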