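import Mathlib

/-! Kernel checker for the coorbital equations: definitions. -/

set_option autoImplicit false

namespace Pool.Agent.H370Z.CC

/-- Enclosure data at a grid point. -/
structure E4 where
  fl : Nat
  fm : Nat
  vl : Nat
  vu : Nat

/-- sine polynomial, scale `2^48` -/
def sS (x Y W : Nat) : Nat :=
  Nat.div (Nat.mul x (Nat.sub (Nat.add (Nat.mul (Nat.add (Nat.mul (Nat.add (Nat.mul (Nat.add (Nat.mul 1 W) (Nat.shiftLeft 57120 192)) W) (Nat.shiftLeft 980179200 384)) W) (Nat.shiftLeft 2964061900800 576)) W) (Nat.shiftLeft 355687428096000 768))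
    (Nat.mul Y (Nat.add (Nat.mul (Nat.add (Nat.mul (Nat.add (Nat.mul (Nat.shiftLeft 272 96) W) (Nat.shiftLeft 8910720 288)) W) (Nat.shiftLeft 70572902400 480)) W) (Nat.shiftLeft 59281238016000 672))))) (Nat.shiftLeft 355687428096000 768)

/-- cosine polynomial, scale `2^48` -/
def sC (Y W : Nat) : Nat :=
  Nat.div (Nat.sub (Nat.add (Nat.mul (Nat.add (Nat.mul (Nat.add (Nat.mul (Nat.add (Nat.mul 1 W) (Nat.shiftLeft 43680 192)) W) (Nat.shiftLeft 518918400 384)) W) (Nat.shiftLeft 871782912000 576)) W) (Nat.shiftLeft 20922789888000 768))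
    (Nat.mul Y (Nat.add (Nat.mul (Nat.add (Nat.mul (Nat.add (Nat.mul (Nat.shiftLeft 240 96) W) (Nat.shiftLeft 5765760 288)) W) (Nat.shiftLeft 29059430400 480)) W) (Nat.shiftLeft 10461394944000 672)))) (Nat.shiftLeft 20922789888000 720)

/-- enclosures from enclosures of sine and cosine -/
def ev2 (S1 S2 C1 C2 Q1 Q2 : Nat) : E4 :=
  ⟨Nat.add 8796093022208 (Nat.sub (Nat.add (Nat.div (Nat.shiftLeft C1 86) Q2) 562949953421312)
      (Nat.succ (Nat.shiftRight (Nat.mul S2 C2) 55))),
   Nat.add 8796093022208 (Nat.sub (Nat.add (Nat.shiftRight (Nat.mul S1 C1) 55) 562949953421312)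
      (Nat.succ (Nat.div (Nat.shiftLeft C2 86) Q1))),
   Nat.add 1887657717492 (Nat.shiftRight (Nat.mul 3622009729038561421
      (Nat.sub (Nat.add (Nat.div (Nat.shiftLeft 1 182) (Nat.mul Q2 S2)) 2199023255552)
        (Nat.add (Nat.add (Nat.div (Nat.shiftLeft 1 85) S1) (Nat.shiftRight Q2 55)) 2))) 59),
   Nat.add 1887657717494 (Nat.shiftRight (Nat.mul 3622009729038561422
      (Nat.sub (Nat.add (Nat.div (Nat.shiftLeft 1 182) (Nat.mul Q1 S1)) 2199023255553)
        (Nat.add (Nat.div (Nat.shiftLeft 1 85) S2) (Nat.shiftRight Q1 55)))) 59)⟩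

def ev1 (S C : Nat) : E4 :=
  ev2 (Nat.sub S 512) (Nat.add S 512) (Nat.sub C 512) (Nat.add C 512)
    (Nat.mul (Nat.sub S 512) (Nat.sub S 512)) (Nat.mul (Nat.add S 512) (Nat.add S 512))

def evX (x : Nat) : E4 :=
  ev1 (sS x (Nat.mul x x) (Nat.mul (Nat.mul x x) (Nat.mul x x)))
    (sC (Nat.mul x x) (Nat.mul (Nat.mul x x) (Nat.mul x x)))

def ev0 (k : Nat) : E4 := evX (Nat.shiftRight (Nat.mul 3622009729038561421 k) 36)

noncomputable def mir (e : E4) : E4 :=
  @E4.rec (fun _ => E4) (fun a b c d => E4.mk b a c d) e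

noncomputable def ev (k : Nat) : E4 :=
  @Bool.rec (fun _ => E4) (mir (ev0 (Nat.sub 16777216 k))) (ev0 k) (Nat.ble k 8388608)

/-- vertex lists -/
inductive VL where
  | v2 (x1 y1 z1 x2 y2 z2 : Nat) : VL
  | v3 (x1 y1 z1 x2 y2 z2 x3 y3 z3 : Nat) : VL
  | v4 (x1 y1 z1 x2 y2 z2 x3 y3 z3 x4 y4 z4 : Nat) : VL

def mn (a b : Nat) : Nat := Nat.sub a (Nat.sub a b)

noncomputable def evl (m n : Nat) (v : VL) : Nat :=
  @VL.rec (fun _ => Nat)
    (fun x1 y1 z1 x2 y2 z2 =>
      (Nat.sub (Nat.add (Nat.mul m y1) (Nat.add (Nat.mul n x1) z1))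
        (Nat.sub (Nat.add (Nat.mul m y1) (Nat.add (Nat.mul n x1) z1))
        (Nat.add (Nat.mul m y2) (Nat.add (Nat.mul n x2) z2)))))
    (fun x1 y1 z1 x2 y2 z2 x3 y3 z3 =>
      (Nat.sub (Nat.add (Nat.mul m y1) (Nat.add (Nat.mul n x1) z1))
        (Nat.sub (Nat.add (Nat.mul m y1) (Nat.add (Nat.mul n x1) z1))
        (Nat.sub (Nat.add (Nat.mul m y2) (Nat.add (Nat.mul n x2) z2))
        (Nat.sub (Nat.add (Nat.mul m y2) (Nat.add (Nat.mul n x2) z2))
        (Nat.add (Nat.mul m y3) (Nat.add (Nat.mul n x3) z3)))))))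
    (fun x1 y1 z1 x2 y2 z2 x3 y3 z3 x4 y4 z4 =>
      (Nat.sub (Nat.add (Nat.mul m y1) (Nat.add (Nat.mul n x1) z1))
        (Nat.sub (Nat.add (Nat.mul m y1) (Nat.add (Nat.mul n x1) z1))
        (Nat.sub (Nat.add (Nat.mul m y2) (Nat.add (Nat.mul n x2) z2))
        (Nat.sub (Nat.add (Nat.mul m y2) (Nat.add (Nat.mul n x2) z2))
        (Nat.sub (Nat.add (Nat.mul m y3) (Nat.add (Nat.mul n x3) z3))
        (Nat.sub (Nat.add (Nat.mul m y3) (Nat.add (Nat.mul n x3) z3))
        (Nat.add (Nat.mul m y4) (Nat.add (Nat.mul n x4) z4))))))))) v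

/-- scaled abscissa, with the position code -/
noncomputable def gx (fl : Bool) (e x : Nat) : Nat :=
  Nat.add (Nat.shiftLeft (@Bool.rec (fun _ => Nat) x (Nat.sub 16777216 x) fl) 40) e

/-- scaled complementary abscissa -/
noncomputable def gz (fl : Bool) (x : Nat) : Nat :=
  Nat.shiftLeft (@Bool.rec (fun _ => Nat) (Nat.sub 16777216 x) x fl) 76

/-- offset of the break point -/
def tt (h FA FB va vb : Nat) : Nat :=
  mn h (mn (Nat.div FA va) (Nat.div (Nat.sub (Nat.add FA (Nat.mul 8796093022208 h))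
    (Nat.add FB (Nat.mul vb h))) (Nat.sub va vb)))

/-- height of the break point -/
def yy (h t FA FB va vb : Nat) : Nat :=
  mn (Nat.sub (Nat.add FA (Nat.mul 8796093022208 t)) (Nat.mul va t))
    (Nat.sub (Nat.add FB (Nat.mul vb (Nat.sub h t))) (Nat.mul 8796093022208 (Nat.sub h t)))

noncomputable def low3 (fl : Bool) (e a b h t FA FB va vb : Nat) : VL :=
  VL.v3 (gx fl e a) (Nat.add FA 1393796574908163946345982392040522594123776) (gz fl a)
    (gx fl e (Nat.add a t)) (Nat.add (yy h t FA FB va vb) 1393796574908163946345982392040522594123776) (gz fl (Nat.add a t))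
    (gx fl e b) (Nat.add FB 1393796574908163946345982392040522594123776) (gz fl b)

noncomputable def low4 (fl : Bool) (e a b h t FA FC FB va vc : Nat) : VL :=
  VL.v4 (gx fl e a) (Nat.add FA 1393796574908163946345982392040522594123776) (gz fl a)
    (gx fl e (Nat.add a t)) (Nat.add (yy h t FA FC va vc) 1393796574908163946345982392040522594123776) (gz fl (Nat.add a t))
    (gx fl e 8388608) (Nat.add FC 1393796574908163946345982392040522594123776) (gz fl 8388608)
    (gx fl e b) (Nat.add FB 1393796574908163946345982392040522594123776) (gz fl b)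

noncomputable def low' (fl : Bool) (e a b FA FB FC va vb vc : Nat) : VL :=
  @Bool.rec (fun _ => VL)
    (@Bool.rec (fun _ => VL)
      (low4 fl e a b (Nat.sub 8388608 a) (tt (Nat.sub 8388608 a) FA FC va vc) FA FC FB va vc)
      (low3 fl e a b (Nat.sub b a) (tt (Nat.sub b a) FA FB va vb) FA FB va vb)
      (Nat.ble b 8388608))
    (VL.v2 (gx fl e a) (Nat.add FA 1393796574908163946345982392040522594123776) (gz fl a)
      (gx fl e b) (Nat.add FB 1393796574908163946345982392040522594123776) (gz fl b))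
    (Nat.ble 8388608 a)

noncomputable def low (fl : Bool) (e a b : Nat) (ea eb : E4) : VL :=
  low' fl e a b (Nat.shiftLeft ea.fl 24) (Nat.shiftLeft eb.fl 24)
    (Nat.shiftLeft (ev 8388608).fl 24) ea.vu eb.vl (ev 8388608).vl

/-- record of a pair -/
structure Rc where
  l : Nat
  u : Nat
  e : Nat
  el : E4
  eu : E4
  lo : VL
  up : VL

noncomputable def mkR (l u e : Nat) (el eu : E4) : Rc :=
  ⟨l, u, e, el, eu, low false e l u el eu,
    low true e (Nat.sub 16777216 u) (Nat.sub 16777216 l) (mir eu) (mir el)⟩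

noncomputable def rowV (li Bl Bn off : Nat) (rs : List Rc) : Nat → Nat → Nat :=
  @List.rec Rc (fun _ => Nat → Nat → Nat) (fun _ _ => 0)
    (fun r _ ih c L => Nat.add
      (@VL.rec (fun _ => Nat)
        (fun x1 y1 z1 x2 y2 z2 =>
          (Nat.sub (Nat.add (Nat.mul (Nat.add (Nat.sub li (Nat.mod L Bl)) (Nat.sub (Nat.mod L Bl) li)) y1) (Nat.add (Nat.mul (Nat.add (Nat.mod c Bn) off) x1) z1))
        (Nat.sub (Nat.add (Nat.mul (Nat.add (Nat.sub li (Nat.mod L Bl)) (Nat.sub (Nat.mod L Bl) li)) y1) (Nat.add (Nat.mul (Nat.add (Nat.mod c Bn) off) x1) z1))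
        (Nat.add (Nat.mul (Nat.add (Nat.sub li (Nat.mod L Bl)) (Nat.sub (Nat.mod L Bl) li)) y2) (Nat.add (Nat.mul (Nat.add (Nat.mod c Bn) off) x2) z2)))))
        (fun x1 y1 z1 x2 y2 z2 x3 y3 z3 =>
          (Nat.sub (Nat.add (Nat.mul (Nat.add (Nat.sub li (Nat.mod L Bl)) (Nat.sub (Nat.mod L Bl) li)) y1) (Nat.add (Nat.mul (Nat.add (Nat.mod c Bn) off) x1) z1))
        (Nat.sub (Nat.add (Nat.mul (Nat.add (Nat.sub li (Nat.mod L Bl)) (Nat.sub (Nat.mod L Bl) li)) y1) (Nat.add (Nat.mul (Nat.add (Nat.mod c Bn) off) x1) z1))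
        (Nat.sub (Nat.add (Nat.mul (Nat.add (Nat.sub li (Nat.mod L Bl)) (Nat.sub (Nat.mod L Bl) li)) y2) (Nat.add (Nat.mul (Nat.add (Nat.mod c Bn) off) x2) z2))
        (Nat.sub (Nat.add (Nat.mul (Nat.add (Nat.sub li (Nat.mod L Bl)) (Nat.sub (Nat.mod L Bl) li)) y2) (Nat.add (Nat.mul (Nat.add (Nat.mod c Bn) off) x2) z2))
        (Nat.add (Nat.mul (Nat.add (Nat.sub li (Nat.mod L Bl)) (Nat.sub (Nat.mod L Bl) li)) y3) (Nat.add (Nat.mul (Nat.add (Nat.mod c Bn) off) x3) z3)))))))
        (fun x1 y1 z1 x2 y2 z2 x3 y3 z3 x4 y4 z4 =>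
          (Nat.sub (Nat.add (Nat.mul (Nat.add (Nat.sub li (Nat.mod L Bl)) (Nat.sub (Nat.mod L Bl) li)) y1) (Nat.add (Nat.mul (Nat.add (Nat.mod c Bn) off) x1) z1))
        (Nat.sub (Nat.add (Nat.mul (Nat.add (Nat.sub li (Nat.mod L Bl)) (Nat.sub (Nat.mod L Bl) li)) y1) (Nat.add (Nat.mul (Nat.add (Nat.mod c Bn) off) x1) z1))
        (Nat.sub (Nat.add (Nat.mul (Nat.add (Nat.sub li (Nat.mod L Bl)) (Nat.sub (Nat.mod L Bl) li)) y2) (Nat.add (Nat.mul (Nat.add (Nat.mod c Bn) off) x2) z2))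
        (Nat.sub (Nat.add (Nat.mul (Nat.add (Nat.sub li (Nat.mod L Bl)) (Nat.sub (Nat.mod L Bl) li)) y2) (Nat.add (Nat.mul (Nat.add (Nat.mod c Bn) off) x2) z2))
        (Nat.sub (Nat.add (Nat.mul (Nat.add (Nat.sub li (Nat.mod L Bl)) (Nat.sub (Nat.mod L Bl) li)) y3) (Nat.add (Nat.mul (Nat.add (Nat.mod c Bn) off) x3) z3))
        (Nat.sub (Nat.add (Nat.mul (Nat.add (Nat.sub li (Nat.mod L Bl)) (Nat.sub (Nat.mod L Bl) li)) y3) (Nat.add (Nat.mul (Nat.add (Nat.mod c Bn) off) x3) z3))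
        (Nat.add (Nat.mul (Nat.add (Nat.sub li (Nat.mod L Bl)) (Nat.sub (Nat.mod L Bl) li)) y4) (Nat.add (Nat.mul (Nat.add (Nat.mod c Bn) off) x4) z4)))))))))
        (@Bool.rec (fun _ => VL) r.up r.lo (Nat.ble (Nat.mod L Bl) li)))
      (ih (Nat.div c Bn) (Nat.div L Bl))) rs

noncomputable def val (Bl b2 Bn off : Nat) (rows : List (List Rc)) : Nat → Nat → Nat → Nat :=
  @List.rec (List Rc) (fun _ => Nat → Nat → Nat → Nat) (fun _ _ _ => 0)
    (fun row _ ih c sh L => Nat.add (rowV (Nat.mod L Bl) Bl Bn off row c (Nat.div L Bl))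
        (ih (Nat.shiftRight c sh) (Nat.sub sh b2) (Nat.div L Bl))) rows

/-- generic form of `far2` -/
noncomputable def far2G (c1 c2 c3 c4 k1 k2 P W S : Nat) : Bool :=
  @Bool.rec (fun _ => Bool) false
    (Nat.beq (Nat.shiftRight S k1) W)
    (Nat.ble (Nat.succ (Nat.add (Nat.mul P c1)
      (Nat.mul (Nat.shiftRight (Nat.mod S c2) k2) c3))) (Nat.mod S c4))

noncomputable def far2 (P W S : Nat) : Bool :=
  far2G 1267650600228229401496703205376
    1606938044258990275541962092341162602522202993782792835301376 9592306918328966840320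
    1393796574908163946345982392040522594123776 200 140 P W S

noncomputable def far1 (N P W b b2 c : Nat) (rows : List (List Rc)) : Bool :=
  far2 P W (val (Nat.pow 2 b) b2 (Nat.pow 2 b2) (Nat.sub 68719476736 (Nat.pow 2 (Nat.pred b2))) rows
      (Nat.shiftRight c (Nat.mul b N)) (Nat.mul b2 (Nat.pred N)) c)

noncomputable def far (N P W c : Nat) (rows : List (List Rc)) : Bool :=
  far1 N P W (Nat.mod c 32) (Nat.mod (Nat.shiftRight c 5) 32) (Nat.shiftRight c 10) rows

def dR : Rc := ⟨0, 0, 0, ⟨0, 0, 0, 0⟩, ⟨0, 0, 0, 0⟩, VL.v2 0 0 0 0 0 0, VL.v2 0 0 0 0 0 0⟩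

noncomputable def nth {α : Type} (d : α) (i : Nat) : List α → α :=
  @Nat.rec (fun _ => List α → α)
    (fun l => @List.rec α (fun _ => α) d (fun a _ _ => a) l)
    (fun _ ih l => @List.rec α (fun _ => α) d (fun _ t _ => ih t) l) i

noncomputable def updL {α : Type} (f : α → α) (i : Nat) : List α → List α :=
  @Nat.rec (fun _ => List α → List α)
    (fun l => @List.rec α (fun _ => List α) [] (fun a t _ => List.cons (f a) t) l)
    (fun _ ih l => @List.rec α (fun _ => List α) [] (fun a t _ => List.cons a (ih t)) l) i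

noncomputable def get (rows : List (List Rc)) (a b : Nat) : Rc := nth dR b (nth [] a rows)

noncomputable def upd (rows : List (List Rc)) (a b : Nat) (r : Rc) : List (List Rc) :=
  updL (updL (fun _ => r) b) a rows

noncomputable def tri3 (r1 r2 r3 : Rc) : Bool :=
  @Bool.rec (fun _ => Bool) (Nat.ble (Nat.succ (Nat.add r1.u r2.u)) r3.l) true
    (Nat.ble (Nat.succ r3.u) (Nat.add r1.l r2.l))

noncomputable def tri (N a b c : Nat) (rows : List (List Rc)) : Bool :=
  @Bool.rec (fun _ => Bool) false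
    (tri3 (get rows a b) (get rows (Nat.succ (Nat.add a b)) c) (get rows a (Nat.succ (Nat.add b c))))
    (Nat.ble (Nat.add (Nat.add (Nat.add a b) c) 3) N)

noncomputable def sym (N k : Nat) (rows : List (List Rc)) : Bool :=
  @Bool.rec (fun _ => Bool)
    (Nat.ble (Nat.succ (get rows (Nat.sub N 2) 0).u) (get rows 0 0).l)
    (Nat.ble 16777217 (Nat.add (get rows k 0).l (get rows 0 (Nat.sub N 2)).l))
    (Nat.ble (Nat.add k 2) N)

noncomputable def subR (rs : List Rc) : List (Nat × Nat) → Bool :=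
  @List.rec Rc (fun _ => List (Nat × Nat) → Bool)
    (fun bs => @List.rec (Nat × Nat) (fun _ => Bool) true (fun _ _ _ => false) bs)
    (fun r _ ih bs => @List.rec (Nat × Nat) (fun _ => Bool) false
      (fun p bs' _ => @Bool.rec (fun _ => Bool) false
        (@Bool.rec (fun _ => Bool) false (ih bs') (Nat.ble r.u p.2)) (Nat.ble p.1 r.l)) bs) rs

noncomputable def subB (rows : List (List Rc)) : List (List (Nat × Nat)) → Bool :=
  @List.rec (List Rc) (fun _ => List (List (Nat × Nat)) → Bool)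
    (fun bs => @List.rec (List (Nat × Nat)) (fun _ => Bool) true (fun _ _ _ => false) bs)
    (fun r _ ih bs => @List.rec (List (Nat × Nat)) (fun _ => Bool) false
      (fun p bs' _ => @Bool.rec (fun _ => Bool) false (ih bs') (subR r p)) bs) rows

/-- proof trees -/
inductive Tr where
  | F (c : Nat) : Tr
  | T (c : Nat) : Tr
  | Y (k : Nat) : Tr
  | R (s : Nat) : Tr
  | S (c : Nat) (l r : Tr) : Tr

noncomputable def spl (N a b x : Nat) (r : Rc) (e : E4) (rows : List (List Rc))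
    (kl kr : List (List Rc) → Bool) : Bool :=
  @Bool.rec (fun _ => Bool) false
    (@Bool.rec (fun _ => Bool) false
      (@Bool.rec (fun _ => Bool) false
        (@Bool.rec (fun _ => Bool) false
          (kr (upd rows a b (mkR x r.u r.e e r.eu)))
          (kl (upd rows a b (mkR r.l x r.e r.el e))))
        (Nat.ble x r.u))
      (Nat.ble r.l x))
    (Nat.ble (Nat.add (Nat.add a b) 2) N)

noncomputable def spl1 (N a b x : Nat) (rows : List (List Rc))
    (kl kr : List (List Rc) → Bool) : Bool :=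
  spl N a b x (get rows a b) (ev x) rows kl kr

noncomputable def chk (N P W : Nat) (known : List (List (List (Nat × Nat)))) (t : Tr) :
    List (List Rc) → Bool :=
  @Tr.rec (fun _ => List (List Rc) → Bool)
    (fun c rows => far N P W c rows)
    (fun c rows => tri N (Nat.mod c 8) (Nat.mod (Nat.shiftRight c 3) 8) (Nat.shiftRight c 6) rows)
    (fun k rows => sym N k rows)
    (fun s rows => subB rows (nth [[(1, 0)]] s known))
    (fun c _ _ kl kr rows =>
      spl1 N (Nat.mod c 8) (Nat.mod (Nat.shiftRight c 3) 8) (Nat.shiftRight c 6) rows kl kr) t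

/-- position code of the pair `(i, j)` -/
def pc (i j : Nat) : Nat := Nat.mul 1606938044258990275541962092341162602522202993782792835301376 (Nat.sub (Nat.pow 2199023255552 j) (Nat.pow 2199023255552 i))

noncomputable def mkRow (i : Nat) (row : List (Nat × Nat)) : Nat → List Rc :=
  @List.rec (Nat × Nat) (fun _ => Nat → List Rc) (fun _ => [])
    (fun p _ ih j => List.cons (mkR p.1 p.2 (pc i j) (ev p.1) (ev p.2)) (ih (Nat.succ j))) row

noncomputable def mkB (b : List (List (Nat × Nat))) : Nat → List (List Rc) :=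
  @List.rec (List (Nat × Nat)) (fun _ => Nat → List (List Rc)) (fun _ => [])
    (fun row _ ih i => List.cons (mkRow i row (Nat.succ i)) (ih (Nat.succ i))) b

def okB (b : List (List (Nat × Nat))) : Bool :=
  b.all fun row => row.all fun p => Nat.ble 262144 p.1 && Nat.ble p.1 p.2 && Nat.ble p.2 16515072

/-- number of pairs -/
def nP : Nat → Nat
  | 0 => 0
  | n + 1 => n + nP n

/-- sum of `B^(i+1+t) - B^i` over `t < n` -/
def wR (i : Nat) : Nat → Nat → Nat
  | 0, _ => 0
  | n + 1, j => (2199023255552 ^ j - 2199023255552 ^ i) + wR i n (j + 1)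

/-- sum of `B^j - B^i` over the pairs -/
def wB : Nat → Nat → Nat
  | 0, _ => 0
  | n + 1, i => wR i n (i + 1) + wB n (i + 1)

noncomputable def chkB (N : Nat) (known : List (List (List (Nat × Nat)))) (t : Tr)
    (b : List (List (Nat × Nat))) : Bool :=
  okB b && chk N (nP N) (68719476736 * wB N 0) known t (mkB b 0)

end Pool.Agent.H370Z.CC
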