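import Pool.Agent.H370Z.CC.SinCos

/-! Soundness of the point enclosures. -/

set_option autoImplicit false

namespace Pool.Agent.H370Z.CC

open Real

/-- correctness of enclosure data at the point `x` -/
def EOK (x : ℝ) (e : E4) : Prop :=
  (e.fl : ℝ) ≤ (g x + 520) * 2 ^ 40 ∧ (e.fm : ℝ) ≤ (520 - g x) * 2 ^ 40 ∧
    (e.vl : ℝ) ≤ (v x + 8) * 2 ^ 40 ∧ (v x + 8) * 2 ^ 40 ≤ e.vu ∧
    8796093022208 ≤ e.fl ∧ 8796093022208 ≤ e.fm

theorem q_lo (a b : ℕ) (p q : ℝ) (hq : 0 < q) (h1 : (a : ℝ) ≤ p) (h2 : q ≤ b) :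
    ((a / b : ℕ) : ℝ) ≤ p / q :=
  (ndiv_le a b).trans (div_le_div₀ ((Nat.cast_nonneg a).trans h1) h1 hq h2)

theorem q_hi (a b : ℕ) (p q : ℝ) (hb : (0 : ℝ) < b) (h1 : p ≤ a) (h2 : (b : ℝ) ≤ q) :
    p / q ≤ ((a / b : ℕ) : ℝ) + 1 :=
  (div_le_div₀ (Nat.cast_nonneg a) h1 hb h2).trans (le_ndiv a b)

theorem ev2_eq (S1 S2 C1 C2 Q1 Q2 : ℕ) : ev2 S1 S2 C1 C2 Q1 Q2 =
    ⟨8796093022208 + (C1 * 2 ^ 86 / Q2 + 562949953421312 - (S2 * C2 / 2 ^ 55 + 1)),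
     8796093022208 + (S1 * C1 / 2 ^ 55 + 562949953421312 - (C2 * 2 ^ 86 / Q1 + 1)),
     1887657717492 + (3622009729038561421 *
       (1 * 2 ^ 182 / (Q2 * S2) + 2199023255552 - (1 * 2 ^ 85 / S1 + Q2 / 2 ^ 55 + 2))) / 2 ^ 59,
     1887657717494 + (3622009729038561422 *
       (1 * 2 ^ 182 / (Q1 * S1) + 2199023255553 - (1 * 2 ^ 85 / S2 + Q1 / 2 ^ 55))) / 2 ^ 59⟩ := by
  unfold ev2
  rewrite [e_shl C1, e_shl C2, e_shl 1 182, e_shl 1 85, e_shr (Nat.mul S2 C2),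
    e_shr (Nat.mul S1 C1), e_shr Q2, e_shr Q1, e_shr, e_shr]
  rfl

theorem ble_false {a b : ℕ} (h : Nat.ble a b = false) : b < a := by
  by_contra h1
  rw [Nat.ble_eq_true_of_le (not_lt.1 h1)] at h
  cases h

theorem ev_core (x s c : ℝ) (A1 A2 B1 B2 G1 G2 D1 D2 E1 E2 : ℕ) (hg : -512 ≤ g x ∧ g x ≤ 512)
    (hw : -1 ≤ ws s) (hgdef : g x = c / (4 * s ^ 2) - 2 * s * c) (hvdef : v x = 2 * π * ws s)
    (a1 : (A1 : ℝ) ≤ c / (4 * s ^ 2) * 2 ^ 40) (a2 : c / (4 * s ^ 2) * 2 ^ 40 ≤ A2 + 1)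
    (b1 : (B1 : ℝ) ≤ 2 * s * c * 2 ^ 40) (b2 : 2 * s * c * 2 ^ 40 ≤ B2 + 1)
    (c1 : (G1 : ℝ) ≤ 1 / (4 * s ^ 3) * 2 ^ 40) (c2 : 1 / (4 * s ^ 3) * 2 ^ 40 ≤ G2 + 1)
    (d1 : (D1 : ℝ) ≤ 1 / (8 * s) * 2 ^ 40) (d2 : 1 / (8 * s) * 2 ^ 40 ≤ D2 + 1)
    (e1 : (E1 : ℝ) ≤ 2 * s ^ 2 * 2 ^ 40) (e2 : 2 * s ^ 2 * 2 ^ 40 ≤ E2 + 1) :
    EOK x ⟨8796093022208 + (A1 + 562949953421312 - (B2 + 1)),
     8796093022208 + (B1 + 562949953421312 - (A2 + 1)),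
     1887657717492 + (3622009729038561421 * (G1 + 2199023255552 - (D2 + E2 + 2))) / 2 ^ 59,
     1887657717494 + (3622009729038561422 * (G2 + 2199023255553 - (D1 + E1))) / 2 ^ 59⟩ := by
  obtain ⟨hp1, hp2⟩ := pi_bds
  have hpi := pi_pos
  have hwdef : ws s = 1 / (4 * s ^ 3) - 1 / (8 * s) + 1 - 2 * s ^ 2 := rfl
  refine ⟨?_, ?_, ?_, ?_, Nat.le_add_right _ _, Nat.le_add_right _ _⟩
  · have : ((A1 + 562949953421312 - (B2 + 1) : ℕ) : ℝ) ≤ (g x + 512) * 2 ^ 40 := by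
      apply nsub_le (by nlinarith [hg.1])
      push_cast; rw [hgdef]; norm_num at a1 b2 ⊢; linarith
    show ((_ + _ : ℕ) : ℝ) ≤ _
    rw [Nat.cast_add]; norm_num at this ⊢; linarith
  · have : ((B1 + 562949953421312 - (A2 + 1) : ℕ) : ℝ) ≤ (512 - g x) * 2 ^ 40 := by
      apply nsub_le (by nlinarith [hg.2])
      push_cast; rw [hgdef]; norm_num at a2 b1 ⊢; linarith
    show ((_ + _ : ℕ) : ℝ) ≤ _
    rw [Nat.cast_add]; norm_num at this ⊢; linarith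
  · have h1 : ((G1 + 2199023255552 - (D2 + E2 + 2) : ℕ) : ℝ) ≤ (ws s + 1) * 2 ^ 40 := by
      apply nsub_le (by nlinarith)
      push_cast; rw [hwdef]; norm_num at c1 d2 e2 ⊢; linarith
    have h2 := q_lo (3622009729038561421 * (G1 + 2199023255552 - (D2 + E2 + 2))) (2 ^ 59) (π * 2 ^ 60 * ((ws s + 1) * 2 ^ 40)) (2 ^ 59)
      (by positivity) (by rw [Nat.cast_mul, Nat.cast_ofNat]; gcongr) (by push_cast; norm_num)
    show ((_ + _ : ℕ) : ℝ) ≤ _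
    rw [Nat.cast_add, hvdef]
    generalize ((_ / 2 ^ 59 : ℕ) : ℝ) = Z at h2 ⊢
    norm_num at h2 hp2 ⊢
    linarith
  · have h1 : (ws s + 1) * 2 ^ 40 ≤ ((G2 + 2199023255553 - (D1 + E1) : ℕ) : ℝ) := by
      refine le_trans ?_ (le_nsub _ _)
      push_cast; rw [hwdef]; norm_num at c2 d1 e1 ⊢; linarith
    have h0 : 0 ≤ (ws s + 1) * 2 ^ 40 := by nlinarith
    have h2 := q_hi (3622009729038561422 * (G2 + 2199023255553 - (D1 + E1))) (2 ^ 59) (π * 2 ^ 60 * ((ws s + 1) * 2 ^ 40)) (2 ^ 59)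
      (by push_cast; positivity) (by rw [Nat.cast_mul, Nat.cast_ofNat]; gcongr) (by push_cast; norm_num)
    show _ ≤ ((_ + _ : ℕ) : ℝ)
    rw [Nat.cast_add, hvdef]
    generalize ((_ / 2 ^ 59 : ℕ) : ℝ) = Z at h2 ⊢
    norm_num at h2 hp1 ⊢
    linarith

theorem ev2_ok (x : ℝ) (S1 S2 C1 C2 : ℕ) (hs0 : 0 < sn x) (hc0 : 0 ≤ cs x) (hg : |g x| ≤ 512)
    (hS0 : (0 : ℝ) < S1) (hS1 : (S1 : ℝ) ≤ 281474976710656 * sn x)
    (hS2 : 281474976710656 * sn x ≤ S2) (hC1 : (C1 : ℝ) ≤ 281474976710656 * cs x)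
    (hC2 : 281474976710656 * cs x ≤ C2) : EOK x (ev2 S1 S2 C1 C2 (S1 * S1) (S2 * S2)) := by
  have hs1 := sn_le_one x
  have hw := ws_ge hs0 hs1
  obtain ⟨hp1, hp2⟩ := pi_bds
  have hpi := pi_pos
  have hgdef : g x = cs x / (4 * sn x ^ 2) - 2 * sn x * cs x := rfl
  have hvdef : v x = 2 * π * ws (sn x) := rfl
  have hwdef : ws (sn x) = 1 / (4 * sn x ^ 3) - 1 / (8 * sn x) + 1 - 2 * sn x ^ 2 := rfl
  rw [abs_le] at hg
  generalize sn x = s at *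
  generalize cs x = c at *
  have hC0 : (0 : ℝ) ≤ C1 := Nat.cast_nonneg _
  have hU : (0 : ℝ) < 281474976710656 * s := by positivity
  have sq1 : ((S1 * S1 : ℕ) : ℝ) ≤ (281474976710656 * s) * (281474976710656 * s) := by
    push_cast; gcongr
  have sq2 : (281474976710656 * s) * (281474976710656 * s) ≤ ((S2 * S2 : ℕ) : ℝ) := by
    push_cast; gcongr
  have cu1 : ((S1 * S1 * S1 : ℕ) : ℝ) ≤
      (281474976710656 * s) * (281474976710656 * s) * (281474976710656 * s) := by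
    push_cast; gcongr
  have cu2 : (281474976710656 * s) * (281474976710656 * s) * (281474976710656 * s) ≤
      ((S2 * S2 * S2 : ℕ) : ℝ) := by
    push_cast; gcongr
  have a1 := q_lo (C1 * 2 ^ 86) (S2 * S2) (281474976710656 * c * 2 ^ 86) _ (by positivity)
    (by push_cast; norm_num; linarith) sq2
  have a2 := q_hi (C2 * 2 ^ 86) (S1 * S1) (281474976710656 * c * 2 ^ 86) _
    (by push_cast; positivity) (by push_cast; norm_num; linarith) sq1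
  have ea : 281474976710656 * c * 2 ^ 86 / (281474976710656 * s * (281474976710656 * s))
      = c / (4 * s ^ 2) * 2 ^ 40 := by field_simp; ring
  rw [ea] at a1 a2
  have b1 := q_lo (S1 * C1) (2 ^ 55) (281474976710656 * s * (281474976710656 * c)) (2 ^ 55)
    (by positivity) (by push_cast; gcongr) (by push_cast; norm_num)
  have b2 := q_hi (S2 * C2) (2 ^ 55) (281474976710656 * s * (281474976710656 * c)) (2 ^ 55)
    (by push_cast; positivity) (by push_cast; gcongr) (by push_cast; norm_num)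
  have eb : 281474976710656 * s * (281474976710656 * c) / 2 ^ 55 = 2 * s * c * 2 ^ 40 := by ring
  rw [eb] at b1 b2
  have c1 := q_lo (1 * 2 ^ 182) (S2 * S2 * S2) (2 ^ 182) _ (by positivity)
    (by push_cast; norm_num) cu2
  have c2 := q_hi (1 * 2 ^ 182) (S1 * S1 * S1) (2 ^ 182) _ (by push_cast; positivity)
    (by push_cast; norm_num) cu1
  have ec : (2 : ℝ) ^ 182 / (281474976710656 * s * (281474976710656 * s) * (281474976710656 * s))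
      = 1 / (4 * s ^ 3) * 2 ^ 40 := by field_simp; norm_num
  rw [ec] at c1 c2
  have d1 := q_lo (1 * 2 ^ 85) S2 (2 ^ 85) _ hU (by push_cast; norm_num) hS2
  have d2 := q_hi (1 * 2 ^ 85) S1 (2 ^ 85) _ hS0 (by push_cast; norm_num) hS1
  have ed : (2 : ℝ) ^ 85 / (281474976710656 * s) = 1 / (8 * s) * 2 ^ 40 := by
    field_simp; norm_num
  rw [ed] at d1 d2
  have e1 := q_lo (S1 * S1) (2 ^ 55) _ (2 ^ 55) (by positivity) sq1 (by push_cast; norm_num)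
  have e2 := q_hi (S2 * S2) (2 ^ 55) _ (2 ^ 55) (by push_cast; positivity) sq2
    (by push_cast; norm_num)
  have ee : 281474976710656 * s * (281474976710656 * s) / 2 ^ 55 = 2 * s ^ 2 * 2 ^ 40 := by ring
  rw [ee] at e1 e2
  rewrite [ev2_eq]
  exact ev_core x s c _ _ _ _ _ _ _ _ _ _ hg hw hgdef hvdef a1 a2 b1 b2 c1 c2 d1 d2 e1 e2

theorem ev0_ok (k : ℕ) (h0 : 262144 ≤ k) (h1 : k ≤ 8388608) : EOK k (ev0 k) := by
  have hk0 : (262144 : ℝ) ≤ k := by exact_mod_cast h0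
  have hk1 : (k : ℝ) ≤ 8388608 := by exact_mod_cast h1
  obtain ⟨⟨a1, a2⟩, a3, a4⟩ := sc_spec k h1 _ rfl
  have hs := sn_ge hk0 (by linarith)
  unfold ev0 evX ev1
  simp only [e_add, e_sub, e_mul, e_shr]
  apply ev2_ok _ _ _ _ _ (by linarith) (cs_nonneg (by linarith) hk1) (abs_g_le hk0 (by linarith))
    _ a1 a2 a3 a4
  refine lt_of_lt_of_le ?_ (le_nsub _ _)
  push_cast at a2 ⊢
  linarith

theorem mir_ok {x : ℝ} {e : E4} (h : EOK x e) : EOK (16777216 - x) (mir e) := by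
  obtain ⟨a, b, c, d⟩ := e
  obtain ⟨h1, h2, h3, h4, h5, h6⟩ := h
  unfold EOK
  rw [g_sub, v_sub]
  refine ⟨?_, ?_, h3, h4, h6, h5⟩
  · show (b : ℝ) ≤ _
    have : (b : ℝ) ≤ _ := h2
    linarith
  · show (a : ℝ) ≤ _
    have : (a : ℝ) ≤ _ := h1
    linarith

theorem ev_ok (k : ℕ) (h0 : 262144 ≤ k) (h1 : k ≤ 16515072) : EOK k (ev k) := by
  unfold ev
  cases h : Nat.ble k 8388608
  · have h2 := ble_false h
    have h3 := mir_ok (ev0_ok (16777216 - k) (by omega) (by omega))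
    rw [Nat.cast_sub (by omega)] at h3
    simpa using h3
  · exact ev0_ok k h0 (Nat.le_of_ble_eq_true h)

end Pool.Agent.H370Z.CC
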