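import Pool.Agent.H370Z.CC.Far0

/-! Soundness of the Farkas leaves, end. -/

set_option autoImplicit false

namespace Pool.Agent.H370Z.CC

open Finset

theorem nP_le {N : ℕ} (h : N ≤ 8) : nP N ≤ 28 := by
  interval_cases N <;> simp [nP]

/-- differences of powers of the base -/
@[irreducible] def pw (a b : ℕ) : ℕ := 2199023255552 ^ b - 2199023255552 ^ a

theorem pw_eq (a b : ℕ) : pw a b = 2199023255552 ^ b - 2199023255552 ^ a := by unfold pw; rfl

theorem pc_eq (a b : ℕ) :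
    pc a b = 1606938044258990275541962092341162602522202993782792835301376 * pw a b := by
  rw [pw_eq]; rfl

theorem wB_eq' (n i : ℕ) : wB n i = S2 pw n i := by
  rw [wB_eq]
  exact S2_congr _ _ fun a b _ _ _ => (pw_eq a b).symm

theorem bool_and {b x : Bool} (h : @Bool.rec (fun _ => Bool) false x b = true) :
    b = true ∧ x = true := by
  cases b
  · cases h
  · exact ⟨rfl, h⟩

theorem lanes (B1 B2 B3 c At Mt Wt W Z : ℕ) (h0 : 0 < B1) (hB : B3 = B1 * B2)
    (hX : At + Mt * B1 < B3)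
    (h1 : Z + (At + Mt * B1 + B3 * Wt) % B3 / B1 * c < (At + Mt * B1 + B3 * Wt) % B1)
    (h2 : (At + Mt * B1 + B3 * Wt) / B3 = W) : Z + Mt * c < At ∧ Wt = W := by
  rw [Nat.add_mul_div_left _ _ (by omega), Nat.div_eq_of_lt hX, zero_add] at h2
  rw [Nat.add_mul_mod_self_left, Nat.mod_eq_of_lt hX, hB, mul_assoc, Nat.add_mul_mod_self_left,
    Nat.add_mul_mod_self_right, Nat.add_mul_div_right _ _ h0] at h1
  refine ⟨?_, h2⟩
  have h3 := Nat.mod_le At B1
  have h4 : Mt * c ≤ (At / B1 + Mt) * c := Nat.mul_le_mul_right c (Nat.le_add_left _ _)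
  omega

theorem far2G_spec {c1 c2 c3 c4 k1 k2 P W S : ℕ} (h : far2G c1 c2 c3 c4 k1 k2 P W S = true) :
    P * c1 + S % c2 / 2 ^ k2 * c3 < S % c4 ∧ S / 2 ^ k1 = W := by
  obtain ⟨h1, h2⟩ := bool_and h
  have h3 := Nat.le_of_ble_eq_true h1
  have h4 := Nat.eq_of_beq_eq_true h2
  rewrite [e_shr] at h3 h4
  exact ⟨h3, h4⟩

theorem far2_raw {P W S : ℕ} (h : far2 P W S = true) :
    P * 1267650600228229401496703205376 +
      S % 1606938044258990275541962092341162602522202993782792835301376 / 2 ^ 140 *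
        9592306918328966840320 < S % 1393796574908163946345982392040522594123776 ∧
      S / 2 ^ 200 = W := by
  unfold far2 at h
  exact far2G_spec h

theorem far2_spec {P W At Mt Wt : ℕ} (h : far2 P W (At + Mt * BG +
      1606938044258990275541962092341162602522202993782792835301376 * Wt) = true)
    (e2 : At + Mt * BG ≤ 2 ^ 172 * 28) :
    P * 2 ^ 100 + Mt * (520 * 2 ^ 64) < At ∧ Wt = W := by
  obtain ⟨h3, h4⟩ := far2_raw h
  have c1 : (2 : ℕ) ^ 140 = BG := by rw [BG_eq]; norm_num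
  have c2 : (2 : ℕ) ^ 200 = 1606938044258990275541962092341162602522202993782792835301376 := by
    norm_num
  have c3 : (2 : ℕ) ^ 100 = 1267650600228229401496703205376 := by norm_num
  have c4 : (520 * 2 ^ 64 : ℕ) = 9592306918328966840320 := by norm_num
  rewrite [c1, ← BG_eq] at h3
  rewrite [c2] at h4
  rewrite [c3, c4]
  exact lanes BG (2 ^ 60) _ _ At Mt Wt W _ (by rw [BG_eq]; norm_num) (by rw [BG_eq]; norm_num)
    (lt_of_le_of_lt e2 (by norm_num)) h3 h4

theorem far_core (N : ℕ) (hN : N ≤ 8) (θ : ℕ → ℝ) (y : ℕ → ℕ → ℝ) (lam : ℕ → ℕ)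
    (A n : ℕ → ℕ → ℕ)
    (hy : ∀ lam : ℕ → ℝ, S2 (fun a b => (lam a - lam b) * y a b) N 0 = 0)
    (h1 : ∀ a b, 0 ≤ a → a < b → b < 0 + N →
      QP (lam a) (lam b) (θ b - θ a) (y a b) (A a b) (n a b))
    (h : far2 (nP N) (68719476736 * wB N 0) (S2 (fun a b => A a b +
        (lam a - lam b + (lam b - lam a)) * BG + n a b * pc a b) N 0) = true) : False := by
  obtain ⟨mm, hmm⟩ : ∃ mm : ℕ → ℕ → ℕ, ∀ a b, mm a b = lam a - lam b + (lam b - lam a) :=
    ⟨_, fun _ _ => rfl⟩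
  simp only [← hmm] at h
  have e0 : S2 (fun a b => A a b + mm a b * BG) N 0 = S2 A N 0 + S2 mm N 0 * BG := by
    rw [S2_add, mul_comm _ BG, ← S2_mul]
    congr 1
    exact S2_congr _ _ fun a b _ _ _ => mul_comm _ _
  have e1 : S2 (fun a b => n a b * pc a b) N 0 =
      1606938044258990275541962092341162602522202993782792835301376 *
        S2 (fun a b => n a b * pw a b) N 0 := by
    rw [← S2_mul]
    exact S2_congr _ _ fun a b _ _ _ => by rw [pc_eq, mul_left_comm]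
  have e2 : S2 A N 0 + S2 mm N 0 * BG ≤ 2 ^ 172 * 28 := by
    rw [← e0]
    refine (S2_le (ψ := fun _ _ => 2 ^ 172 * 1) N 0 fun a b b1 b2 b3 => ?_).trans ?_
    · rw [hmm, mul_one]; exact (h1 a b b1 b2 b3).2.1
    · rw [S2_mul, S2_one]
      exact Nat.mul_le_mul_left _ (nP_le hN)
  rw [S2_add, e0, e1] at h
  obtain ⟨e4, e3⟩ := far2_spec h e2
  clear h e2 e1 e0
  obtain ⟨ρ, r1, r2⟩ := coef (fun a b => (n a b : ℤ) - 68719476736) (2 ^ 37) (by norm_num) N 0
    (fun a b b1 b2 b3 => by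
      have := (h1 a b b1 b2 b3).2.2
      rw [abs_le]
      omega)
  have e5 : S2 (fun a b => (((n a b : ℤ) - 68719476736 : ℤ) : ℝ) *
      ((2199023255552 : ℝ) ^ b - 2199023255552 ^ a)) N 0 = 0 := by
    have e6 := congrArg (Nat.cast : ℕ → ℝ) e3
    rw [wB_eq', ← S2_mul, S2_cast, S2_cast] at e6
    have e7 := S2_add (fun a b => (((n a b : ℤ) - 68719476736 : ℤ) : ℝ) *
      ((2199023255552 : ℝ) ^ b - 2199023255552 ^ a))
      (fun a b => ((68719476736 * pw a b : ℕ) : ℝ)) N 0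
    rw [← e6] at e7
    have e8 : S2 (fun a b => (((n a b : ℤ) - 68719476736 : ℤ) : ℝ) *
        ((2199023255552 : ℝ) ^ b - 2199023255552 ^ a) + ((68719476736 * pw a b : ℕ) : ℝ)) N 0 =
        S2 (fun a b => ((n a b * pw a b : ℕ) : ℝ)) N 0 := by
      refine S2_congr _ _ fun a b _ b2 _ => ?_
      have : 2199023255552 ^ a ≤ 2199023255552 ^ b := Nat.pow_le_pow_right (by norm_num) b2.le
      rw [Nat.cast_mul, Nat.cast_mul, pw_eq, Nat.cast_sub this]
      push_cast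
      ring
    linarith
  rw [r2 fun k => (2199023255552 : ℝ) ^ k] at e5
  have r3 := digits_zero 2199023255552 (by norm_num) N ρ (fun k hk => by
      have h3 := r1 k hk
      have h4 : (N : ℤ) ≤ 8 := by exact_mod_cast hN
      omega) (by
      simp only [zero_add] at e5
      exact_mod_cast e5)
  have e9 : S2 (fun a b => (((n a b : ℤ) - 68719476736 : ℤ) : ℝ) * (θ b - θ a)) N 0 = 0 := by
    rw [r2 θ]
    exact sum_eq_zero fun k hk => by rw [r3 k (mem_range.1 hk)]; simp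
  have e10 : ((S2 A N 0 : ℕ) : ℝ) ≤ 2 ^ 64 * S2 (fun a b => ((lam a : ℝ) - lam b) * y a b) N 0 +
      520 * 2 ^ 64 * ((S2 mm N 0 : ℕ) : ℝ) +
      2 ^ 40 * S2 (fun a b => (((n a b : ℤ) - 68719476736 : ℤ) : ℝ) * (θ b - θ a)) N 0 +
      2 ^ 100 * (nP N : ℝ) := by
    rw [← S2_one N 0, S2_cast, S2_cast, S2_cast, ← S2_mul, ← S2_mul, ← S2_mul, ← S2_mul,
      ← S2_add, ← S2_add, ← S2_add]
    refine S2_le N 0 fun a b b1 b2 b3 => (h1 a b b1 b2 b3).1.trans (le_of_eq ?_)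
    rw [← hmm]
    push_cast
    ring
  rw [hy fun k => (lam k : ℝ), e9] at e10
  have e11 := (Nat.cast_lt (α := ℝ)).2 e4
  rw [Nat.cast_add, Nat.cast_mul, Nat.cast_mul] at e11
  generalize ((S2 A N 0 : ℕ) : ℝ) = p at e10 e11
  generalize ((S2 mm N 0 : ℕ) : ℝ) = q at e10 e11
  push_cast at e11
  linarith

theorem far1_sound (N b b2 L : ℕ) (rows : List (List Rc)) (θ : ℕ → ℝ) (y : ℕ → ℕ → ℝ)
    (hlen : rows.length = N) (hN : N ≤ 8) (hb1 : b ≤ 31) (hb2 : b2 ≤ 31)
    (hb : BoxP (fun r i j => ROK r (pc i j) (θ j - θ i) (y i j)) rows 0)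
    (hy : ∀ lam : ℕ → ℝ, S2 (fun a b => (lam a - lam b) * y a b) N 0 = 0)
    (h : far1 N (nP N) (68719476736 * wB N 0) b b2 L rows = true) : False := by
  have p1 : 2 ^ b ≤ 2 ^ 31 := Nat.pow_le_pow_right (by norm_num) hb1
  have p2 : 2 ^ b2 ≤ 2 ^ 31 := Nat.pow_le_pow_right (by norm_num) hb2
  have q1 : 0 < 2 ^ b := by positivity
  have q2 : 0 < 2 ^ b2 := by positivity
  obtain ⟨A, n, h1, h2⟩ := val_spec θ y (fun k => L / (2 ^ b) ^ k % 2 ^ b) (2 ^ b) b2 (2 ^ b2)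
    (68719476736 - 2 ^ b2.pred) (fun k => (Nat.mod_lt _ q1).le.trans p1)
    (fun c => by
      have h3 := (Nat.mod_lt c q2).le.trans p2
      have h4 := Nat.sub_le 68719476736 (2 ^ b2.pred)
      exact (Nat.add_le_add h3 h4).trans (by norm_num)) rows 0
    (Nat.shiftRight L (Nat.mul b N)) (Nat.mul b2 (Nat.pred N)) L hb (fun t => by simp)
  rw [hlen] at h1 h2
  refine far_core N hN θ y _ A n hy h1 ?_
  rw [← h2]
  exact h

theorem far_sound (N c : ℕ) (rows : List (List Rc)) (θ : ℕ → ℝ) (y : ℕ → ℕ → ℝ)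
    (hlen : rows.length = N) (hN : N ≤ 8)
    (hb : BoxP (fun r i j => ROK r (pc i j) (θ j - θ i) (y i j)) rows 0)
    (hy : ∀ lam : ℕ → ℝ, S2 (fun a b => (lam a - lam b) * y a b) N 0 = 0)
    (h : far N (nP N) (68719476736 * wB N 0) c rows = true) : False :=
  far1_sound N _ _ _ rows θ y hlen hN (by rw [e_mod]; omega) (by rw [e_mod]; omega) hb hy h

end Pool.Agent.H370Z.CC
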