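import Pool.Agent.H370Z.CC.Poly

/-! Soundness of the Farkas leaves. -/

set_option autoImplicit false

namespace Pool.Agent.H370Z.CC

open Finset

/-- a property along a row -/
def RowP {α : Type} (Pd : α → ℕ → ℕ → Prop) (i : ℕ) : List α → ℕ → Prop
  | [], _ => True
  | r :: rs, j => Pd r i j ∧ RowP Pd i rs (j + 1)

/-- a property of all entries of a triangular array -/
def BoxP {α : Type} (Pd : α → ℕ → ℕ → Prop) : List (List α) → ℕ → Prop
  | [], _ => True
  | row :: rows, i => row.length = rows.length ∧ RowP Pd i row (i + 1) ∧ BoxP Pd rows (i + 1)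

theorem RowP.mono {α : Type} {P Q : α → ℕ → ℕ → Prop} (h : ∀ r i j, P r i j → Q r i j) (i : ℕ) :
    ∀ (rs : List α) (j : ℕ), RowP P i rs j → RowP Q i rs j
  | [], _, _ => trivial
  | _ :: rs, j, hr => ⟨h _ _ _ hr.1, RowP.mono h i rs (j + 1) hr.2⟩

theorem BoxP.mono {α : Type} {P Q : α → ℕ → ℕ → Prop} (h : ∀ r i j, P r i j → Q r i j) :
    ∀ (rows : List (List α)) (i : ℕ), BoxP P rows i → BoxP Q rows i
  | [], _, _ => trivial
  | _ :: rows, i, hr => ⟨hr.1, RowP.mono h i _ _ hr.2.1, BoxP.mono h rows (i + 1) hr.2.2⟩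

/-- sum over the pairs `i ≤ a < b < i + n` -/
def S2 {α : Type} [AddCommMonoid α] (φ : ℕ → ℕ → α) : ℕ → ℕ → α
  | 0, _ => 0
  | n + 1, i => ∑ t ∈ range n, φ i (i + 1 + t) + S2 φ n (i + 1)

theorem S2_succ {α : Type} [AddCommMonoid α] (φ : ℕ → ℕ → α) (n i : ℕ) :
    S2 φ (n + 1) i = ∑ t ∈ range n, φ i (i + 1 + t) + S2 φ n (i + 1) := rfl

theorem S2_congr {α : Type} [AddCommMonoid α] {φ ψ : ℕ → ℕ → α} : ∀ (n i : ℕ),
    (∀ a b, i ≤ a → a < b → b < i + n → φ a b = ψ a b) → S2 φ n i = S2 ψ n i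
  | 0, _, _ => rfl
  | n + 1, i, h => by
    unfold S2
    rw [S2_congr n (i + 1) fun a b h1 h2 h3 => h a b (by omega) h2 (by omega)]
    congr 1
    exact sum_congr rfl fun t ht => h _ _ le_rfl (by omega) (by have := mem_range.1 ht; omega)

theorem S2_le {α : Type} [AddCommMonoid α] [PartialOrder α] [IsOrderedAddMonoid α]
    {φ ψ : ℕ → ℕ → α} : ∀ (n i : ℕ),
    (∀ a b, i ≤ a → a < b → b < i + n → φ a b ≤ ψ a b) → S2 φ n i ≤ S2 ψ n i
  | 0, _, _ => le_rfl
  | n + 1, i, h => by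
    unfold S2
    exact add_le_add (sum_le_sum fun t ht => h _ _ le_rfl (by omega)
      (by have := mem_range.1 ht; omega))
      (S2_le n (i + 1) fun a b h1 h2 h3 => h a b (by omega) h2 (by omega))

theorem S2_add {α : Type} [AddCommMonoid α] (φ ψ : ℕ → ℕ → α) : ∀ (n i : ℕ),
    S2 (fun a b => φ a b + ψ a b) n i = S2 φ n i + S2 ψ n i
  | 0, _ => by simp [S2]
  | n + 1, i => by
    unfold S2
    rw [S2_add φ ψ n (i + 1), sum_add_distrib]
    abel

theorem S2_mul {α : Type} [CommSemiring α] (φ : ℕ → ℕ → α) (c : α) : ∀ (n i : ℕ),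
    S2 (fun a b => c * φ a b) n i = c * S2 φ n i
  | 0, _ => by simp [S2]
  | n + 1, i => by
    unfold S2
    rw [S2_mul φ c n (i + 1), mul_add, mul_sum]

theorem S2_cast (φ : ℕ → ℕ → ℕ) : ∀ (n i : ℕ),
    ((S2 φ n i : ℕ) : ℝ) = S2 (fun a b => (φ a b : ℝ)) n i
  | 0, _ => by simp [S2]
  | n + 1, i => by
    unfold S2
    rw [← S2_cast φ n (i + 1)]
    push_cast
    rfl

theorem S2_one : ∀ (n i : ℕ), S2 (fun _ _ => 1) n i = nP n
  | 0, _ => rfl
  | n + 1, i => by
    unfold S2 nP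
    rw [S2_one n (i + 1)]
    simp

theorem wR_eq (i : ℕ) : ∀ n j : ℕ,
    wR i n j = ∑ t ∈ range n, (2199023255552 ^ (j + t) - 2199023255552 ^ i)
  | 0, _ => rfl
  | n + 1, j => by
    unfold wR
    rw [wR_eq i n (j + 1), sum_range_succ', add_comm]
    congr 1
    exact sum_congr rfl fun t _ => by rw [show j + 1 + t = j + (t + 1) by omega]

theorem wB_eq : ∀ n i : ℕ,
    wB n i = S2 (fun a b => 2199023255552 ^ b - 2199023255552 ^ a) n i
  | 0, _ => rfl
  | n + 1, i => by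
    unfold wB S2
    rw [wB_eq n (i + 1), wR_eq]

theorem coef (ν : ℕ → ℕ → ℤ) (C : ℤ) (hC : 0 ≤ C) : ∀ (n i : ℕ),
    (∀ a b, i ≤ a → a < b → b < i + n → |ν a b| ≤ C) →
    ∃ ρ : ℕ → ℤ, (∀ k, k < n → |ρ k| ≤ n * C) ∧ ∀ θ : ℕ → ℝ,
      S2 (fun a b => (ν a b : ℝ) * (θ b - θ a)) n i = ∑ k ∈ range n, (ρ k : ℝ) * θ (i + k)
  | 0, _, _ => ⟨fun _ => 0, fun _ h => absurd h (by omega), fun _ => rfl⟩
  | n + 1, i, h => by
    obtain ⟨ρ, h1, h2⟩ := coef ν C hC n (i + 1) fun a b h1 h2 h3 => h a b (by omega) h2 (by omega)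
    refine ⟨fun k => Nat.casesOn k (-∑ t ∈ range n, ν i (i + 1 + t))
      fun t => ν i (i + 1 + t) + ρ t, ?_, ?_⟩
    · intro k hk
      cases k with
      | zero =>
        show |-_| ≤ _
        rw [abs_neg]
        refine (abs_sum_le_sum_abs _ _).trans ?_
        refine (sum_le_sum fun t ht => h i (i + 1 + t) le_rfl (by omega)
          (by have := mem_range.1 ht; omega)).trans ?_
        simp only [sum_const, card_range, nsmul_eq_mul]
        push_cast
        linarith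
      | succ t =>
        show |_ + _| ≤ _
        have h3 := h i (i + 1 + t) le_rfl (by omega) (by omega)
        have h4 := h1 t (by omega)
        have h5 := abs_add_le (ν i (i + 1 + t)) (ρ t)
        push_cast
        linarith
    · intro θ
      unfold S2
      rw [h2 θ, sum_range_succ']
      show _ = ∑ k ∈ range n, ((ν i (i + 1 + k) + ρ k : ℤ) : ℝ) * θ (i + (k + 1)) +
        ((-∑ t ∈ range n, ν i (i + 1 + t) : ℤ) : ℝ) * θ (i + 0)
      push_cast
      rw [← sum_add_distrib, add_zero, neg_mul, sum_mul, ← sub_eq_add_neg, ← sum_sub_distrib]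
      refine sum_congr rfl fun t _ => ?_
      rw [show i + (t + 1) = i + 1 + t by omega]
      ring

theorem digits_zero (B : ℤ) (hB : 0 < B) : ∀ (n : ℕ) (ρ : ℕ → ℤ), (∀ k, k < n → |ρ k| < B) →
    ∑ k ∈ range n, ρ k * B ^ k = 0 → ∀ k, k < n → ρ k = 0
  | 0, _, _, _, _, hk => absurd hk (by omega)
  | n + 1, ρ, h, hs, k, hk => by
    rw [sum_range_succ'] at hs
    have h1 : ∑ k ∈ range n, ρ (k + 1) * B ^ (k + 1) = B * ∑ k ∈ range n, ρ (k + 1) * B ^ k := by
      rw [mul_sum]; exact sum_congr rfl fun t _ => by ring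
    rw [h1, pow_zero, mul_one] at hs
    have h2 : ρ 0 = 0 := Int.eq_zero_of_abs_lt_dvd (m := B)
      ⟨-∑ k ∈ range n, ρ (k + 1) * B ^ k, by linarith⟩ (h 0 (by omega))
    rw [h2, add_zero] at hs
    cases k with
    | zero => exact h2
    | succ t =>
      exact digits_zero B hB n (fun k => ρ (k + 1)) (fun k hk => h (k + 1) (by omega))
        ((mul_eq_zero.1 hs).resolve_left hB.ne') t (by omega)

/-- the lane shift -/
@[irreducible] def BG : ℕ := 1393796574908163946345982392040522594123776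

theorem BG_eq : BG = 1393796574908163946345982392040522594123776 := by unfold BG; rfl

theorem VOK.bg {vl : VL} {e : ℕ} {x Y : ℝ} (h : VOK vl e x Y) (m n : ℕ) :
    ∃ A : ℕ, evl m n vl = A + m * BG + n * e ∧ (A : ℝ) ≤ Phi m n x Y := by
  rw [BG_eq]; exact h m n

/-- the bound for one pair -/
def QP (li lj : ℕ) (x y : ℝ) (A n : ℕ) : Prop :=
  (A : ℝ) ≤ 2 ^ 64 * ((li - lj : ℝ) * y) + 520 * 2 ^ 64 * ((li - lj + (lj - li) : ℕ) : ℝ) +
      2 ^ 40 * ((n - 68719476736 : ℝ) * x) + 2 ^ 100 ∧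
    A + (li - lj + (lj - li)) * BG ≤ 2 ^ 172 ∧
    n ≤ 2 ^ 37

theorem pair_spec {r : Rc} {e : ℕ} {x y : ℝ} (h : ROK r e x y) (li lj n : ℕ) (hi : li ≤ 2 ^ 31)
    (hj : lj ≤ 2 ^ 31) (hn : n ≤ 2 ^ 37) :
    ∃ A, evl (li - lj + (lj - li)) n (@Bool.rec (fun _ => VL) r.up r.lo (Nat.ble lj li))
      = A + (li - lj + (lj - li)) * BG + n * e ∧
      QP li lj x y A n := by
  obtain ⟨h1, h2, h3, h4, h5⟩ := h
  rw [abs_le] at h5
  have hn' : (n : ℝ) ≤ 2 ^ 37 := by exact_mod_cast hn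
  have key : ∀ (m A : ℕ) (Y : ℝ), m ≤ 2 ^ 31 → Y ≤ 1040 → (A : ℝ) ≤ Phi m n x Y →
      A + m * BG ≤ 2 ^ 172 := by
    intro m A Y hm hY hA
    have hm' : (m : ℝ) ≤ 2 ^ 31 := by exact_mod_cast hm
    have b1 : (m : ℝ) * Y ≤ 2 ^ 31 * 1040 :=
      (mul_le_mul_of_nonneg_left hY (Nat.cast_nonneg m)).trans (by gcongr)
    have b2 : (n : ℝ) * x ≤ 2 ^ 37 * 16777216 := by gcongr
    have b3 : (A : ℝ) ≤ 2 ^ 110 := by
      unfold Phi at hA
      linarith
    have b4 : A ≤ 2 ^ 110 := by exact_mod_cast b3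
    rw [BG_eq]
    omega
  cases hb : Nat.ble lj li
  · have h6 := ble_false hb
    obtain ⟨A, a1, a2⟩ := h2.bg (li - lj + (lj - li)) n
    refine ⟨A, a1, ?_, key _ A _ (by omega) (by linarith) a2, hn⟩
    have : ((li - lj + (lj - li) : ℕ) : ℝ) = lj - li := by
      rw [Nat.sub_eq_zero_of_le h6.le, zero_add, Nat.cast_sub h6.le]
    unfold Phi at a2
    rw [this] at a2 ⊢
    norm_num at a2 ⊢
    linarith
  · have h6 := Nat.le_of_ble_eq_true hb
    obtain ⟨A, a1, a2⟩ := h1.bg (li - lj + (lj - li)) n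
    refine ⟨A, a1, ?_, key _ A _ (by omega) (by linarith) a2, hn⟩
    have : ((li - lj + (lj - li) : ℕ) : ℝ) = li - lj := by
      rw [Nat.sub_eq_zero_of_le h6, add_zero, Nat.cast_sub h6]
    unfold Phi at a2
    rw [this] at a2 ⊢
    norm_num at a2 ⊢
    linarith

theorem rowV_cons (li Bl Bn off : ℕ) (r : Rc) (rs : List Rc) (c L : ℕ) :
    rowV li Bl Bn off (r :: rs) c L =
      evl (li - L % Bl + (L % Bl - li)) (c % Bn + off)
        (@Bool.rec (fun _ => VL) r.up r.lo (Nat.ble (L % Bl) li)) +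
      rowV li Bl Bn off rs (c / Bn) (L / Bl) := rfl

theorem val_cons (Bl b2 Bn off : ℕ) (row : List Rc) (rows : List (List Rc)) (c sh L : ℕ) :
    val Bl b2 Bn off (row :: rows) c sh L = rowV (L % Bl) Bl Bn off row c (L / Bl) +
      val Bl b2 Bn off rows (Nat.shiftRight c sh) (Nat.sub sh b2) (L / Bl) := rfl

theorem lam_step {lam : ℕ → ℕ} {j L Bl : ℕ} (h : ∀ t, lam (j + t) = L / Bl ^ t % Bl) :
    ∀ t, lam (j + 1 + t) = L / Bl / Bl ^ t % Bl := by
  intro t
  rw [show j + 1 + t = j + (t + 1) by omega, h, Nat.div_div_eq_div_mul, pow_succ']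

section

variable (θ : ℕ → ℝ) (y : ℕ → ℕ → ℝ) (lam : ℕ → ℕ) (Bl b2 Bn off : ℕ)

theorem rowV_spec (hl : ∀ k, lam k ≤ 2 ^ 31) (hn : ∀ c, c % Bn + off ≤ 2 ^ 37) (i : ℕ) :
    ∀ (rs : List Rc) (j c L : ℕ),
    RowP (fun r i j => ROK r (pc i j) (θ j - θ i) (y i j)) i rs j →
    (∀ t, lam (j + t) = L / Bl ^ t % Bl) →
    ∃ A n : ℕ → ℕ, (∀ t, t < rs.length →
      QP (lam i) (lam (j + t)) (θ (j + t) - θ i) (y i (j + t)) (A t) (n t)) ∧
      rowV (lam i) Bl Bn off rs c L = ∑ t ∈ range rs.length, (A t +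
        (lam i - lam (j + t) + (lam (j + t) - lam i)) * BG
          + n t * pc i (j + t))
  | [], _, _, _, _, _ => ⟨fun _ => 0, fun _ => 0, fun _ h => absurd h (by simp), rfl⟩
  | r :: rs, j, c, L, h, hL => by
    obtain ⟨A, n, h1, h2⟩ := rowV_spec hl hn i rs (j + 1) (c / Bn) (L / Bl) h.2 (lam_step hL)
    have h0 : L % Bl = lam j := by simpa using (hL 0).symm
    obtain ⟨A0, a1, a2⟩ := pair_spec h.1 (lam i) (lam j) (c % Bn + off) (hl i) (hl j) (hn c)
    refine ⟨fun t => Nat.casesOn t A0 A, fun t => Nat.casesOn t (c % Bn + off) n, ?_, ?_⟩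
    · intro t ht
      cases t with
      | zero => exact a2
      | succ t =>
        rw [show j + (t + 1) = j + 1 + t by omega]
        exact h1 t (by simpa using ht)
    · rw [rowV_cons, h0, a1, h2, List.length_cons, sum_range_succ', add_comm]
      congr 1
      exact sum_congr rfl fun t _ => by rw [show j + (t + 1) = j + 1 + t by omega]

theorem val_spec (hl : ∀ k, lam k ≤ 2 ^ 31) (hn : ∀ c, c % Bn + off ≤ 2 ^ 37) :
    ∀ (rows : List (List Rc)) (i c sh L : ℕ),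
    BoxP (fun r i j => ROK r (pc i j) (θ j - θ i) (y i j)) rows i →
    (∀ t, lam (i + t) = L / Bl ^ t % Bl) →
    ∃ A n : ℕ → ℕ → ℕ, (∀ a b, i ≤ a → a < b → b < i + rows.length →
      QP (lam a) (lam b) (θ b - θ a) (y a b) (A a b) (n a b)) ∧
      val Bl b2 Bn off rows c sh L = S2 (fun a b => A a b +
        (lam a - lam b + (lam b - lam a)) * BG
          + n a b * pc a b) rows.length i
  | [], _, _, _, _, _, _ => ⟨fun _ _ => 0, fun _ _ => 0, fun _ _ h1 h2 h3 => absurd h3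
      (by simp; omega), rfl⟩
  | row :: rows, i, c, sh, L, h, hL => by
    obtain ⟨A, n, h1, h2⟩ := val_spec hl hn rows (i + 1) (Nat.shiftRight c sh) (Nat.sub sh b2)
      (L / Bl) h.2.2 (lam_step hL)
    obtain ⟨A0, n0, a1, a2⟩ := rowV_spec θ y lam Bl Bn off hl hn i row (i + 1) c (L / Bl) h.2.1
      (lam_step hL)
    have h0 : L % Bl = lam i := by simpa using (hL 0).symm
    refine ⟨fun a b => if a = i then A0 (b - (i + 1)) else A a b,
      fun a b => if a = i then n0 (b - (i + 1)) else n a b, ?_, ?_⟩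
    · intro a b b1 b2 b3
      rw [List.length_cons] at b3
      by_cases ha : a = i
      · subst ha
        have := a1 (b - (a + 1)) (by rw [h.1]; omega)
        rw [show a + 1 + (b - (a + 1)) = b by omega] at this
        simpa using this
      · simp only [ha, if_false]
        exact h1 a b (by omega) b2 (by omega)
    · rw [val_cons, h0, a2, h2, List.length_cons, h.1, S2_succ]
      congr 1
      · exact sum_congr rfl fun t _ => by simp
      · apply S2_congr
        intro a b b1 _ _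
        have : a ≠ i := by omega
        simp [this]

end

end Pool.Agent.H370Z.CC
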