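import Pool.Agent.H370Z.CC.D4_0

set_option autoImplicit false
set_option maxRecDepth 1000000

namespace Pool.Agent.H370Z.CC

theorem g4_c0 : Good 4 (Sym 4) b4_c0 :=
  good_of_chk (by norm_num) (by norm_num) k4_c0 ⟨g4_u0, g4_u1, g4_u2, trivial⟩

theorem good4 : Good 4 (Sym 4) (bld (fun _ _ => (262144, 14680064)) 4 0) := g4_c0

end Pool.Agent.H370Z.CC
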