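import Pool.Agent.H370Z.CC.D5_0

set_option autoImplicit false
set_option maxRecDepth 1000000

namespace Pool.Agent.H370Z.CC

theorem g5_c0 : Good 5 (Sym 5) b5_c0 :=
  good_of_chk (by norm_num) (by norm_num) k5_c0 ⟨g5_u0, g5_u1, g5_u2, trivial⟩

theorem g5_c1 : Good 5 (Sym 5) b5_c1 :=
  good_of_chk (by norm_num) (by norm_num) k5_c1 ⟨g5_c0, trivial⟩

theorem good5 : Good 5 (Sym 5) (bld (fun _ _ => (262144, 14680064)) 5 0) := g5_c1

end Pool.Agent.H370Z.CC
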