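import Pool.Agent.H370Z.CC.D6_0

set_option autoImplicit false
set_option maxRecDepth 1000000

namespace Pool.Agent.H370Z.CC

theorem g6_c0 : Good 6 (Sym 6) b6_c0 :=
  good_of_chk (by norm_num) (by norm_num) k6_c0 ⟨g6_u0, g6_u1, trivial⟩

theorem g6_c1 : Good 6 (Sym 6) b6_c1 :=
  good_of_chk (by norm_num) (by norm_num) k6_c1 ⟨g6_u2, trivial⟩

theorem g6_c2 : Good 6 (Sym 6) b6_c2 :=
  good_of_chk (by norm_num) (by norm_num) k6_c2 ⟨g6_c0, g6_c1, trivial⟩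

theorem g6_c3 : Good 6 (Sym 6) b6_c3 :=
  good_of_chk (by norm_num) (by norm_num) k6_c3 ⟨g6_c2, trivial⟩

theorem good6 : Good 6 (Sym 6) (bld (fun _ _ => (262144, 14680064)) 6 0) := g6_c3

end Pool.Agent.H370Z.CC
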