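import Pool.Agent.H370Z.CC.D7_0
import Pool.Agent.H370Z.CC.D7_1
import Pool.Agent.H370Z.CC.D7_2
import Pool.Agent.H370Z.CC.D7_3

set_option autoImplicit false
set_option maxRecDepth 1000000

namespace Pool.Agent.H370Z.CC

theorem g7_c0 : Good 7 (Sym 7) b7_c0 :=
  good_of_chk (by norm_num) (by norm_num) k7_c0 ⟨g7_u0, trivial⟩

theorem g7_c1 : Good 7 (Sym 7) b7_c1 :=
  good_of_chk (by norm_num) (by norm_num) k7_c1 ⟨g7_c0, trivial⟩

theorem g7_c2 : Good 7 (Sym 7) b7_c2 :=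
  good_of_chk (by norm_num) (by norm_num) k7_c2 ⟨g7_c1, trivial⟩

theorem g7_c3 : Good 7 (Sym 7) b7_c3 :=
  good_of_chk (by norm_num) (by norm_num) k7_c3 ⟨g7_c2, g7_u2, trivial⟩

theorem g7_c4 : Good 7 (Sym 7) b7_c4 :=
  good_of_chk (by norm_num) (by norm_num) k7_c4 trivial

theorem g7_c5 : Good 7 (Sym 7) b7_c5 :=
  good_of_chk (by norm_num) (by norm_num) k7_c5 ⟨g7_c4, trivial⟩

theorem g7_c6 : Good 7 (Sym 7) b7_c6 :=
  good_of_chk (by norm_num) (by norm_num) k7_c6 trivial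

theorem g7_c7 : Good 7 (Sym 7) b7_c7 :=
  good_of_chk (by norm_num) (by norm_num) k7_c7 ⟨g7_c6, trivial⟩

theorem g7_c8 : Good 7 (Sym 7) b7_c8 :=
  good_of_chk (by norm_num) (by norm_num) k7_c8 trivial

theorem g7_c9 : Good 7 (Sym 7) b7_c9 :=
  good_of_chk (by norm_num) (by norm_num) k7_c9 trivial

theorem g7_c10 : Good 7 (Sym 7) b7_c10 :=
  good_of_chk (by norm_num) (by norm_num) k7_c10 ⟨g7_u4, trivial⟩

theorem g7_c11 : Good 7 (Sym 7) b7_c11 :=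
  good_of_chk (by norm_num) (by norm_num) k7_c11 ⟨g7_c10, g7_c7, g7_c8, g7_c9, trivial⟩

theorem g7_c12 : Good 7 (Sym 7) b7_c12 :=
  good_of_chk (by norm_num) (by norm_num) k7_c12 ⟨g7_u1, trivial⟩

theorem g7_c13 : Good 7 (Sym 7) b7_c13 :=
  good_of_chk (by norm_num) (by norm_num) k7_c13 ⟨g7_c12, trivial⟩

theorem g7_c14 : Good 7 (Sym 7) b7_c14 :=
  good_of_chk (by norm_num) (by norm_num) k7_c14 trivial

theorem g7_c15 : Good 7 (Sym 7) b7_c15 :=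
  good_of_chk (by norm_num) (by norm_num) k7_c15 trivial

theorem g7_c16 : Good 7 (Sym 7) b7_c16 :=
  good_of_chk (by norm_num) (by norm_num) k7_c16 trivial

theorem g7_c17 : Good 7 (Sym 7) b7_c17 :=
  good_of_chk (by norm_num) (by norm_num) k7_c17 ⟨g7_u3, trivial⟩

theorem g7_c18 : Good 7 (Sym 7) b7_c18 :=
  good_of_chk (by norm_num) (by norm_num) k7_c18 ⟨g7_c11, g7_c13, g7_c14, g7_c15, g7_c16, g7_c17, trivial⟩

theorem g7_c19 : Good 7 (Sym 7) b7_c19 :=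
  good_of_chk (by norm_num) (by norm_num) k7_c19 ⟨g7_c18, g7_c3, g7_c5, trivial⟩

theorem g7_c20 : Good 7 (Sym 7) b7_c20 :=
  good_of_chk (by norm_num) (by norm_num) k7_c20 ⟨g7_c19, trivial⟩

theorem g7_c21 : Good 7 (Sym 7) b7_c21 :=
  good_of_chk (by norm_num) (by norm_num) k7_c21 ⟨g7_c20, trivial⟩

theorem good7 : Good 7 (Sym 7) (bld (fun _ _ => (262144, 14680064)) 7 0) := g7_c21

end Pool.Agent.H370Z.CC
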