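import Pool.Agent.H370Z.CC.D8_0
import Pool.Agent.H370Z.CC.D8_1
import Pool.Agent.H370Z.CC.D8_2
import Pool.Agent.H370Z.CC.D8_3

set_option autoImplicit false
set_option maxRecDepth 1000000

namespace Pool.Agent.H370Z.CC

theorem g8_c0 : Good 8 (Sym 8) b8_c0 :=
  good_of_chk (by norm_num) (by norm_num) k8_c0 ⟨g8_u2, trivial⟩

theorem g8_c1 : Good 8 (Sym 8) b8_c1 :=
  good_of_chk (by norm_num) (by norm_num) k8_c1 ⟨g8_c0, trivial⟩

theorem g8_c2 : Good 8 (Sym 8) b8_c2 :=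
  good_of_chk (by norm_num) (by norm_num) k8_c2 trivial

theorem g8_c3 : Good 8 (Sym 8) b8_c3 :=
  good_of_chk (by norm_num) (by norm_num) k8_c3 trivial

theorem g8_c4 : Good 8 (Sym 8) b8_c4 :=
  good_of_chk (by norm_num) (by norm_num) k8_c4 ⟨g8_c3, g8_u0, trivial⟩

theorem g8_c5 : Good 8 (Sym 8) b8_c5 :=
  good_of_chk (by norm_num) (by norm_num) k8_c5 ⟨g8_c2, g8_c4, trivial⟩

theorem g8_c6 : Good 8 (Sym 8) b8_c6 :=
  good_of_chk (by norm_num) (by norm_num) k8_c6 trivial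

theorem g8_c7 : Good 8 (Sym 8) b8_c7 :=
  good_of_chk (by norm_num) (by norm_num) k8_c7 ⟨g8_c1, g8_c5, g8_c6, trivial⟩

theorem g8_c8 : Good 8 (Sym 8) b8_c8 :=
  good_of_chk (by norm_num) (by norm_num) k8_c8 trivial

theorem g8_c9 : Good 8 (Sym 8) b8_c9 :=
  good_of_chk (by norm_num) (by norm_num) k8_c9 trivial

theorem g8_c10 : Good 8 (Sym 8) b8_c10 :=
  good_of_chk (by norm_num) (by norm_num) k8_c10 ⟨g8_c9, g8_u1, trivial⟩

theorem g8_c11 : Good 8 (Sym 8) b8_c11 :=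
  good_of_chk (by norm_num) (by norm_num) k8_c11 ⟨g8_c10, g8_c7, g8_c8, trivial⟩

theorem g8_c12 : Good 8 (Sym 8) b8_c12 :=
  good_of_chk (by norm_num) (by norm_num) k8_c12 ⟨g8_c11, trivial⟩

theorem g8_c13 : Good 8 (Sym 8) b8_c13 :=
  good_of_chk (by norm_num) (by norm_num) k8_c13 ⟨g8_c12, trivial⟩

theorem good8 : Good 8 (Sym 8) (bld (fun _ _ => (262144, 14680064)) 8 0) := g8_c13

end Pool.Agent.H370Z.CC
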