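import Pool.Agent.H370Z.CC.Eval

/-! Soundness of the polygonal envelopes. -/

set_option autoImplicit false

namespace Pool.Agent.H370Z.CC

open Real

/-- scaled value of the linear form -/
noncomputable def Phi (m n : ℕ) (x Y : ℝ) : ℝ :=
  m * Y * 2 ^ 64 + 2 ^ 40 * (n * x + 68719476736 * (16777216 - x))

/-- a vertex list bounds the linear forms at `(x, Y)` from below -/
def VOK (vl : VL) (e : ℕ) (x Y : ℝ) : Prop :=
  ∀ m n : ℕ, ∃ A : ℕ, evl m n vl = A + m * 1393796574908163946345982392040522594123776 + n * e ∧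
    (A : ℝ) ≤ Phi m n x Y

/-- the point lies above the segment -/
def Seg (x1 y1 x2 y2 d Y : ℝ) : Prop :=
  ∃ τ : ℝ, 0 ≤ τ ∧ τ ≤ 1 ∧ d = (1 - τ) * x1 + τ * x2 ∧ (1 - τ) * y1 + τ * y2 ≤ Y

theorem lin_seg {x1 y1 x2 y2 d Y : ℝ} (α β : ℝ) (h1 : x1 ≤ d) (h2 : d ≤ x2) (h3 : y1 ≤ α + β * x1)
    (h4 : y2 ≤ α + β * x2) (h5 : α + β * d ≤ Y) : Seg x1 y1 x2 y2 d Y := by
  rcases eq_or_lt_of_le (h1.trans h2) with h | h
  · have : d = x1 := by linarith
    exact ⟨0, le_rfl, zero_le_one, by simp [this], by rw [this] at h5; simp; linarith⟩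
  · have hp : 0 < x2 - x1 := by linarith
    have hτ0 : 0 ≤ (d - x1) / (x2 - x1) := div_nonneg (by linarith) hp.le
    have hτ1 : (d - x1) / (x2 - x1) ≤ 1 := by rw [div_le_one hp]; linarith
    have hd : d = (1 - (d - x1) / (x2 - x1)) * x1 + (d - x1) / (x2 - x1) * x2 := by
      field_simp; ring
    refine ⟨_, hτ0, hτ1, hd, ?_⟩
    generalize (d - x1) / (x2 - x1) = τ at *
    have h6 := mul_le_mul_of_nonneg_left h3 (sub_nonneg.2 hτ1)
    have h7 := mul_le_mul_of_nonneg_left h4 hτ0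
    have h8 : α + β * d = (1 - τ) * (α + β * x1) + τ * (α + β * x2) := by rw [hd]; ring
    linarith

/-- real abscissa -/
noncomputable def ax (fl : Bool) (x : ℝ) : ℝ := if fl then 16777216 - x else x

/-- unshifted vertex term -/
noncomputable def tv (fl : Bool) (m n x y : ℕ) : ℕ := m * y + (n * gx fl 0 x + gz fl x)

theorem tv_cast (fl : Bool) (m n x y : ℕ) (hx : x ≤ 16777216) :
    (tv fl m n x y : ℝ) = m * y + 2 ^ 40 * (n * ax fl x + 68719476736 * (16777216 - ax fl x)) := by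
  unfold tv gx gz ax
  rw [e_shl, e_shl, e_add, e_sub]
  cases fl
  · simp only [Bool.false_eq_true, if_false]
    push_cast [Nat.cast_sub hx]
    ring
  · simp only [if_true]
    push_cast [Nat.cast_sub hx]
    ring

theorem tv_shift (fl : Bool) (e m n x y B : ℕ) :
    Nat.add (Nat.mul m (Nat.add y B)) (Nat.add (Nat.mul n (gx fl e x)) (gz fl x))
      = tv fl m n x y + (m * B + n * e) := by
  unfold tv gx
  simp only [e_add, e_mul]
  ring

theorem seg_min (fl : Bool) (m n x1 y1 x2 y2 : ℕ) (h1 : x1 ≤ 16777216) (h2 : x2 ≤ 16777216)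
    {d Y : ℝ} (h : Seg x1 y1 x2 y2 d (Y * 2 ^ 64)) :
    ((min (tv fl m n x1 y1) (tv fl m n x2 y2) : ℕ) : ℝ) ≤ Phi m n (ax fl d) Y := by
  obtain ⟨τ, h0, h3, hd, hy⟩ := h
  have a1 : ((min (tv fl m n x1 y1) (tv fl m n x2 y2) : ℕ) : ℝ) ≤ tv fl m n x1 y1 := by
    exact_mod_cast min_le_left _ _
  have a2 : ((min (tv fl m n x1 y1) (tv fl m n x2 y2) : ℕ) : ℝ) ≤ tv fl m n x2 y2 := by
    exact_mod_cast min_le_right _ _
  rw [tv_cast _ _ _ _ _ h1] at a1
  rw [tv_cast _ _ _ _ _ h2] at a2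
  have hax : ax fl d = (1 - τ) * ax fl x1 + τ * ax fl x2 := by
    unfold ax; rw [hd]; split_ifs <;> ring
  have b1 := mul_le_mul_of_nonneg_left a1 (sub_nonneg.2 h3)
  have b2 := mul_le_mul_of_nonneg_left a2 h0
  have b3 := mul_le_mul_of_nonneg_left hy (Nat.cast_nonneg (α := ℝ) m)
  unfold Phi
  rw [hax]
  nlinarith

theorem vok2 (fl : Bool) (e x1 y1 x2 y2 : ℕ) (h1 : x1 ≤ 16777216) (h2 : x2 ≤ 16777216) {d Y : ℝ}
    (h : Seg x1 y1 x2 y2 d (Y * 2 ^ 64)) :
    VOK (VL.v2 (gx fl e x1) (Nat.add y1 1393796574908163946345982392040522594123776) (gz fl x1)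
      (gx fl e x2) (Nat.add y2 1393796574908163946345982392040522594123776) (gz fl x2))
      e (ax fl d) Y := by
  intro m n
  refine ⟨min (tv fl m n x1 y1) (tv fl m n x2 y2), ?_, seg_min fl m n _ _ _ _ h1 h2 h⟩
  show Nat.sub _ (Nat.sub _ _) = _
  rw [tv_shift, tv_shift, e_sub, e_sub, add_assoc]
  generalize m * 1393796574908163946345982392040522594123776 + n * e = C
  omega

theorem vok3 (fl : Bool) (e x1 y1 x2 y2 x3 y3 : ℕ) (h1 : x1 ≤ 16777216) (h2 : x2 ≤ 16777216)
    (h3 : x3 ≤ 16777216) {d Y : ℝ}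
    (h : Seg x1 y1 x2 y2 d (Y * 2 ^ 64) ∨ Seg x2 y2 x3 y3 d (Y * 2 ^ 64)) :
    VOK (VL.v3 (gx fl e x1) (Nat.add y1 1393796574908163946345982392040522594123776) (gz fl x1)
      (gx fl e x2) (Nat.add y2 1393796574908163946345982392040522594123776) (gz fl x2)
      (gx fl e x3) (Nat.add y3 1393796574908163946345982392040522594123776) (gz fl x3))
      e (ax fl d) Y := by
  intro m n
  refine ⟨min (tv fl m n x1 y1) (min (tv fl m n x2 y2) (tv fl m n x3 y3)), ?_, ?_⟩
  · show Nat.sub _ (Nat.sub _ (Nat.sub _ (Nat.sub _ _))) = _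
    rw [tv_shift, tv_shift, tv_shift, e_sub, e_sub, e_sub, e_sub, add_assoc]
    generalize m * 1393796574908163946345982392040522594123776 + n * e = C
    omega
  · rcases h with h | h
    · refine le_trans ?_ (seg_min fl m n _ _ _ _ h1 h2 h)
      exact_mod_cast (by omega)
    · refine le_trans ?_ (seg_min fl m n _ _ _ _ h2 h3 h)
      exact_mod_cast (by omega)

theorem vok4 (fl : Bool) (e x1 y1 x2 y2 x3 y3 x4 y4 : ℕ) (h1 : x1 ≤ 16777216) (h2 : x2 ≤ 16777216)
    (h3 : x3 ≤ 16777216) (h4 : x4 ≤ 16777216) {d Y : ℝ}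
    (h : Seg x1 y1 x2 y2 d (Y * 2 ^ 64) ∨ Seg x2 y2 x3 y3 d (Y * 2 ^ 64) ∨
      Seg x3 y3 x4 y4 d (Y * 2 ^ 64)) :
    VOK (VL.v4 (gx fl e x1) (Nat.add y1 1393796574908163946345982392040522594123776) (gz fl x1)
      (gx fl e x2) (Nat.add y2 1393796574908163946345982392040522594123776) (gz fl x2)
      (gx fl e x3) (Nat.add y3 1393796574908163946345982392040522594123776) (gz fl x3)
      (gx fl e x4) (Nat.add y4 1393796574908163946345982392040522594123776) (gz fl x4))
      e (ax fl d) Y := by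
  intro m n
  refine ⟨min (tv fl m n x1 y1) (min (tv fl m n x2 y2) (min (tv fl m n x3 y3) (tv fl m n x4 y4))),
    ?_, ?_⟩
  · show Nat.sub _ (Nat.sub _ (Nat.sub _ (Nat.sub _ (Nat.sub _ (Nat.sub _ _))))) = _
    rw [tv_shift, tv_shift, tv_shift, tv_shift, e_sub, e_sub, e_sub, e_sub, e_sub, e_sub, add_assoc]
    generalize m * 1393796574908163946345982392040522594123776 + n * e = C
    omega
  · rcases h with h | h | h
    · refine le_trans ?_ (seg_min fl m n _ _ _ _ h1 h2 h)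
      exact_mod_cast (by omega)
    · refine le_trans ?_ (seg_min fl m n _ _ _ _ h2 h3 h)
      exact_mod_cast (by omega)
    · refine le_trans ?_ (seg_min fl m n _ _ _ _ h3 h4 h)
      exact_mod_cast (by omega)

theorem mn_eq (a b : ℕ) : mn a b = min a b := by
  unfold mn; rw [e_sub, e_sub]; omega

theorem tt_le (h FA FB va vb : ℕ) : tt h FA FB va vb ≤ h ∧ va * tt h FA FB va vb ≤ FA := by
  unfold tt
  rw [mn_eq, mn_eq]
  refine ⟨min_le_left _ _, ?_⟩
  exact (Nat.mul_le_mul_left va ((min_le_right _ _).trans (min_le_left _ _))).trans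
    (Nat.mul_div_le FA va)

theorem conv_seg (a c t FA FC va vc : ℕ) (ha : 0 < a) (hac : a ≤ c) (hc : c ≤ 8388608)
    (hFA : (FA : ℝ) ≤ (g a + 520) * 2 ^ 64) (hFC : (FC : ℝ) ≤ (g c + 520) * 2 ^ 64)
    (hF : 8796093022208 * 16777216 ≤ FC) (hva : (v a + 8) * 2 ^ 40 ≤ va)
    (hvc : (vc : ℝ) ≤ (v c + 8) * 2 ^ 40) (ht : t ≤ c - a) (ht' : va * t ≤ FA) {d : ℝ}
    (hd1 : (a : ℝ) ≤ d) (hd2 : d ≤ c) :
    Seg a FA (a + t : ℕ) (yy (c - a) t FA FC va vc) d ((g d + 520) * 2 ^ 64) ∨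
      Seg (a + t : ℕ) (yy (c - a) t FA FC va vc) c FC d ((g d + 520) * 2 ^ 64) := by
  have ha' : (0 : ℝ) < a := by exact_mod_cast ha
  have hc' : (c : ℝ) ≤ 8388608 := by exact_mod_cast hc
  have hac' : (a : ℝ) ≤ c := by exact_mod_cast hac
  have y1 : (yy (c - a) t FA FC va vc : ℝ) ≤ FA + 8796093022208 * t - va * t := by
    have : yy (c - a) t FA FC va vc ≤ FA + 8796093022208 * t - va * t := by
      unfold yy; rw [mn_eq]; exact min_le_left _ _
    have h2 : ((FA + 8796093022208 * t - va * t : ℕ) : ℝ) = FA + 8796093022208 * t - va * t := by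
      rw [Nat.cast_sub (by omega)]; push_cast; ring
    rw [← h2]; exact_mod_cast this
  have y2 : (yy (c - a) t FA FC va vc : ℝ) ≤
      FC + vc * (c - a - t) - 8796093022208 * (c - a - t) := by
    have : yy (c - a) t FA FC va vc ≤ FC + vc * (c - a - t) - 8796093022208 * (c - a - t) := by
      unfold yy; rw [mn_eq]; exact min_le_right _ _
    have h2 : ((FC + vc * (c - a - t) - 8796093022208 * (c - a - t) : ℕ) : ℝ) =
        FC + vc * (c - a - t) - 8796093022208 * (c - a - t) := by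
      rw [Nat.cast_sub (by omega)]; push_cast [Nat.cast_sub ht, Nat.cast_sub hac]; ring
    rw [← h2]; exact_mod_cast this
  rcases le_total d (a + t) with h | h
  · left
    refine lin_seg (FA - (8796093022208 - va) * a) (8796093022208 - va) hd1 (by push_cast; exact h)
      (by linarith) (by push_cast; linarith) ?_
    have h1 := tangent ha' (by linarith) (by linarith : 0 < d) (by linarith)
    have h2 := mul_le_mul_of_nonneg_right hva (sub_nonneg.2 hd1)
    norm_num at h1 h2 hFA ⊢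
    linarith
  · right
    refine lin_seg (FC - (8796093022208 - vc) * c) (8796093022208 - vc) (by push_cast; exact h) hd2
      (by push_cast; linarith) (by linarith) ?_
    have h1 := tangent (by linarith : (0 : ℝ) < c) hc' (by linarith : 0 < d) (by linarith)
    have h2 := mul_le_mul_of_nonneg_right hvc (sub_nonneg.2 hd2)
    norm_num at h1 h2 hFC ⊢
    linarith

theorem conc_seg (a b FA FB : ℕ) (ha : 8388608 ≤ a) (hb : b < 16777216)
    (hFA : (FA : ℝ) ≤ (g a + 520) * 2 ^ 64) (hFB : (FB : ℝ) ≤ (g b + 520) * 2 ^ 64) {d : ℝ}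
    (hd1 : (a : ℝ) ≤ d) (hd2 : d ≤ b) : Seg a FA b FB d ((g d + 520) * 2 ^ 64) := by
  have ha' : (8388608 : ℝ) ≤ a := by exact_mod_cast ha
  have hb' : (b : ℝ) < 16777216 := by exact_mod_cast hb
  have h1 := tangent' (a := d) (d := a) (by linarith) (by linarith) ha' (by linarith)
  have h2 := tangent' (a := d) (d := b) (by linarith) (by linarith) (by linarith) hb'
  refine lin_seg ((g d + 520) * 2 ^ 64 + v d * 2 ^ 40 * d) (-(v d * 2 ^ 40)) hd1 hd2 ?_ ?_
    (by linarith)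
  · norm_num at h1 hFA ⊢; linarith
  · norm_num at h2 hFB ⊢; linarith

theorem shl24 {f : ℕ} {t : ℝ} (h : (f : ℝ) ≤ t * 2 ^ 40) :
    ((Nat.shiftLeft f 24 : ℕ) : ℝ) ≤ t * 2 ^ 64 := by
  rw [e_shl]; push_cast; norm_num at h ⊢; linarith

theorem shl24' {f : ℕ} (h : 8796093022208 ≤ f) :
    8796093022208 * 16777216 ≤ Nat.shiftLeft f 24 := by
  rw [e_shl]; omega

theorem low_ok (fl : Bool) (e a b : ℕ) (ea eb : E4) (ha : 262144 ≤ a) (hab : a ≤ b)
    (hb : b ≤ 16515072) (hea : EOK a ea) (heb : EOK b eb) {d : ℝ} (hd1 : (a : ℝ) ≤ d)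
    (hd2 : d ≤ b) : VOK (low fl e a b ea eb) e (ax fl d) (g d + 520) := by
  have hec := ev_ok 8388608 (by norm_num) (by norm_num)
  unfold low low'
  have hFA := shl24 hea.1
  have hFB := shl24 heb.1
  have hFC := shl24 hec.1
  have hB := shl24' heb.2.2.2.2.1
  have hC := shl24' hec.2.2.2.2.1
  have hva := hea.2.2.2.1
  have hvb := heb.2.2.1
  have hvc := hec.2.2.1
  generalize Nat.shiftLeft ea.fl 24 = FA at *
  generalize Nat.shiftLeft eb.fl 24 = FB at *
  generalize Nat.shiftLeft (ev 8388608).fl 24 = FC at *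
  generalize (ev 8388608).vl = vc at *
  cases h1 : Nat.ble 8388608 a
  · have h2 := ble_false h1
    cases h3 : Nat.ble b 8388608
    · have h4 := ble_false h3
      obtain ⟨t1, t2⟩ := tt_le (8388608 - a) FA FC ea.vu vc
      apply vok4 fl e a FA _ _ 8388608 FC b FB (by omega) (by rw [e_add, e_sub]; omega) (by omega)
        (by omega)
      rcases le_total d ((8388608 : ℕ) : ℝ) with h5 | h5
      · rcases conv_seg a 8388608 _ FA FC ea.vu vc (by omega) h2.le le_rfl hFA hFC hC hva hvc t1 t2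
          hd1 h5 with h6 | h6
        · exact Or.inl h6
        · exact Or.inr (Or.inl h6)
      · exact Or.inr (Or.inr (conc_seg 8388608 b FC FB le_rfl (by omega) hFC hFB h5 hd2))
    · have h4 := Nat.le_of_ble_eq_true h3
      obtain ⟨t1, t2⟩ := tt_le (b - a) FA FB ea.vu eb.vl
      apply vok3 fl e a FA _ _ b FB (by omega) (by rw [e_add, e_sub]; omega) (by omega)
      exact conv_seg a b _ FA FB ea.vu eb.vl (by omega) hab h4 hFA hFB hB hva hvb t1 t2 hd1 hd2
  · have h2 := Nat.le_of_ble_eq_true h1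
    exact vok2 fl e a FA b FB (by omega) (by omega)
      (conc_seg a b FA FB h2 (by omega) hFA hFB hd1 hd2)

/-- the two vertex lists of a record enclose the point `(x, y)` -/
def ROK (r : Rc) (e : ℕ) (x y : ℝ) : Prop :=
  VOK r.lo e x (y + 520) ∧ VOK r.up e x (520 - y) ∧ 0 ≤ x ∧ x ≤ 16777216 ∧ |y| ≤ 520

theorem mkR_ok (l u e : ℕ) (el eu : E4) (hl : 262144 ≤ l) (hu : u ≤ 16515072) (hel : EOK l el)
    (heu : EOK u eu) {d : ℝ} (hd1 : (l : ℝ) ≤ d) (hd2 : d ≤ u) :
    ROK (mkR l u e el eu) e d (g d) := by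
  have hlu : l ≤ u := by exact_mod_cast hd1.trans hd2
  have hl' : (262144 : ℝ) ≤ l := by exact_mod_cast hl
  have hu' : (u : ℝ) ≤ 16515072 := by exact_mod_cast hu
  refine ⟨low_ok false e l u el eu hl hlu hu hel heu hd1 hd2, ?_, by linarith, by linarith,
    (abs_g_le (by linarith) (by linarith)).trans (by norm_num)⟩
  have c1 : ((16777216 - u : ℕ) : ℝ) = 16777216 - u := by rw [Nat.cast_sub (by omega)]; simp
  have c2 : ((16777216 - l : ℕ) : ℝ) = 16777216 - l := by rw [Nat.cast_sub (by omega)]; simp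
  have := low_ok true e (16777216 - u) (16777216 - l) (mir eu) (mir el) (by omega) (by omega)
    (by omega) (by rw [c1]; exact mir_ok heu) (by rw [c2]; exact mir_ok hel)
    (d := 16777216 - d) (by rw [c1]; linarith) (by rw [c2]; linarith)
  rw [g_sub, show -g d + 520 = 520 - g d by ring, show ax true (16777216 - d) = d by simp [ax]] at this
  exact this

end Pool.Agent.H370Z.CC
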