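import Mathlib

/-! The interaction function in grid units. -/

set_option autoImplicit false

namespace Pool.Agent.H370Z.CC

open Real

/-- half-angle sine -/
noncomputable def sn (x : ℝ) : ℝ := sin (π * x / 16777216)

/-- half-angle cosine -/
noncomputable def cs (x : ℝ) : ℝ := cos (π * x / 16777216)

/-- the interaction -/
noncomputable def g (x : ℝ) : ℝ := cs x / (4 * sn x ^ 2) - 2 * sn x * cs x

/-- weight as a function of the sine -/
noncomputable def ws (s : ℝ) : ℝ := 1 / (4 * s ^ 3) - 1 / (8 * s) + 1 - 2 * s ^ 2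

/-- minus the derivative per turn -/
noncomputable def v (x : ℝ) : ℝ := 2 * π * ws (sn x)

theorem sn_pos {x : ℝ} (h0 : 0 < x) (h1 : x < 16777216) : 0 < sn x := by
  have := pi_pos
  apply sin_pos_of_pos_of_lt_pi
  · positivity
  · rw [div_lt_iff₀ (by norm_num)]; nlinarith

theorem sn_sub (x : ℝ) : sn (16777216 - x) = sn x := by
  unfold sn
  rw [show π * (16777216 - x) / 16777216 = π - π * x / 16777216 by ring, sin_pi_sub]

theorem cs_sub (x : ℝ) : cs (16777216 - x) = -cs x := by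
  unfold cs
  rw [show π * (16777216 - x) / 16777216 = π - π * x / 16777216 by ring, cos_pi_sub]

theorem g_sub (x : ℝ) : g (16777216 - x) = -g x := by
  unfold g; rw [sn_sub, cs_sub]; ring

theorem v_sub (x : ℝ) : v (16777216 - x) = v x := by
  unfold v; rw [sn_sub]

theorem sq_add (x : ℝ) : sn x ^ 2 + cs x ^ 2 = 1 := sin_sq_add_cos_sq _

theorem hasDeriv_g {x : ℝ} (h0 : 0 < x) (h1 : x < 16777216) :
    HasDerivAt g (-v x / 16777216) x := by
  have hs := sn_pos h0 h1
  have hy : HasDerivAt (fun x : ℝ => π * x / 16777216) (π / 16777216) x := by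
    simpa using ((hasDerivAt_id x).const_mul π).div_const 16777216
  have h2 : HasDerivAt sn (cs x * (π / 16777216)) x := hy.sin
  have h3 : HasDerivAt cs (-sn x * (π / 16777216)) x := hy.cos
  have h4 := (h3.div ((h2.pow 2).const_mul 4) (by simp only [Pi.pow_apply]; positivity)).sub
    ((h2.const_mul 2).mul h3)
  convert! h4 using 1
  have h5 : cs x ^ 2 = 1 - sn x ^ 2 := by linarith [sq_add x]
  unfold v ws
  simp only [Pi.pow_apply, Nat.cast_ofNat]
  field_simp
  rw [show (2 - 1 : ℕ) = 1 from rfl]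
  linear_combination (16 * sn x + 64 * sn x ^ 4) * h5

theorem mvt {a b : ℝ} (h0 : 0 < a) (hab : a < b) (h1 : b < 16777216) :
    ∃ ξ, a < ξ ∧ ξ < b ∧ g b - g a = -v ξ * (b - a) / 16777216 := by
  obtain ⟨ξ, hξ, h⟩ := exists_hasDerivAt_eq_slope g (fun x => -v x / 16777216) hab
    (fun x hx => (hasDeriv_g (by linarith [hx.1]) (by linarith [hx.2])).continuousAt.continuousWithinAt)
    (fun x hx => hasDeriv_g (by linarith [hx.1]) (by linarith [hx.2]))
  refine ⟨ξ, hξ.1, hξ.2, ?_⟩
  have : b - a ≠ 0 := by linarith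
  rw [eq_div_iff this] at h
  rw [← h]; ring

theorem ws_anti {s t : ℝ} (h0 : 0 < s) (hst : s ≤ t) (h1 : t ≤ 1) : ws t ≤ ws s := by
  have ht : 0 < t := by linarith
  have key : ws s - ws t = (t - s) * ((2 * (t ^ 2 + t * s + s ^ 2) - s ^ 2 * t ^ 2) / (8 * s ^ 3 * t ^ 3)
      + 2 * (t + s)) := by
    unfold ws; field_simp; ring
  have h2 : 0 ≤ 2 * (t ^ 2 + t * s + s ^ 2) - s ^ 2 * t ^ 2 := by
    have : s ^ 2 * t ^ 2 ≤ s ^ 2 := by
      have : t ^ 2 ≤ 1 := by nlinarith
      nlinarith [sq_nonneg s]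
    nlinarith [mul_pos h0 ht]
  have h3 : 0 ≤ (t - s) * ((2 * (t ^ 2 + t * s + s ^ 2) - s ^ 2 * t ^ 2) / (8 * s ^ 3 * t ^ 3)
      + 2 * (t + s)) := mul_nonneg (by linarith) (by positivity)
  linarith

theorem sn_le_one (x : ℝ) : sn x ≤ 1 := sin_le_one _

theorem sn_mono {a b : ℝ} (h0 : 0 ≤ a) (hab : a ≤ b) (h1 : b ≤ 8388608) : sn a ≤ sn b := by
  have := pi_pos
  apply sin_le_sin_of_le_of_le_pi_div_two
  · have : 0 ≤ π * a / 16777216 := by positivity
    linarith
  · rw [div_le_iff₀ (by norm_num)]; nlinarith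
  · gcongr

theorem v_anti {a b : ℝ} (h0 : 0 < a) (hab : a ≤ b) (h1 : b ≤ 8388608) : v b ≤ v a := by
  have := pi_pos
  have h := ws_anti (sn_pos h0 (by linarith)) (sn_mono h0.le hab h1) (sn_le_one b)
  unfold v; nlinarith

theorem v_mono {a b : ℝ} (h0 : 8388608 ≤ a) (hab : a ≤ b) (h1 : b < 16777216) : v a ≤ v b := by
  rw [← v_sub a, ← v_sub b]
  exact v_anti (by linarith) (by linarith) (by linarith)

theorem tangent {a d : ℝ} (ha : 0 < a) (ha' : a ≤ 8388608) (hd : 0 < d) (hd' : d ≤ 8388608) :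
    g a - v a * (d - a) / 16777216 ≤ g d := by
  rcases lt_trichotomy a d with h | h | h
  · obtain ⟨ξ, h1, h2, h3⟩ := mvt ha h (by linarith)
    have := v_anti ha h1.le (by linarith)
    have : v ξ * (d - a) ≤ v a * (d - a) := mul_le_mul_of_nonneg_right this (by linarith)
    linarith
  · rw [h]; simp
  · obtain ⟨ξ, h1, h2, h3⟩ := mvt hd h (by linarith)
    have := v_anti (by linarith : 0 < ξ) h2.le ha'
    have : v a * (a - d) ≤ v ξ * (a - d) := mul_le_mul_of_nonneg_right this (by linarith)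
    linarith

theorem tangent' {a d : ℝ} (ha : 8388608 ≤ a) (ha' : a < 16777216) (hd : 8388608 ≤ d)
    (hd' : d < 16777216) : g d ≤ g a - v a * (d - a) / 16777216 := by
  have := tangent (a := 16777216 - a) (d := 16777216 - d) (by linarith) (by linarith) (by linarith)
    (by linarith)
  rw [g_sub, g_sub, v_sub] at this
  linarith

theorem sn_ge {x : ℝ} (h0 : 262144 ≤ x) (h1 : x ≤ 16515072) : 1 / 32 ≤ sn x := by
  have hpi := pi_pos
  have key : ∀ y : ℝ, 262144 ≤ y → y ≤ 8388608 → 1 / 32 ≤ sn y := by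
    intro y hy0 hy1
    have h := mul_le_sin (x := π * y / 16777216) (by positivity)
      (by rw [div_le_iff₀ (by norm_num)]; nlinarith)
    have h2 : 2 / π * (π * y / 16777216) = y / 8388608 := by field_simp; ring
    rw [h2] at h
    unfold sn
    linarith
  rcases le_total x 8388608 with h | h
  · exact key x h0 h
  · rw [← sn_sub]; exact key _ (by linarith) (by linarith)

theorem abs_g_le {x : ℝ} (h0 : 262144 ≤ x) (h1 : x ≤ 16515072) : |g x| ≤ 512 := by
  have hs := sn_ge h0 h1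
  have hs1 := sn_le_one x
  have hc : |cs x| ≤ 1 := abs_cos_le_one _
  have h2 : |cs x / (4 * sn x ^ 2)| ≤ 256 := by
    rw [abs_div, abs_of_pos (by positivity : 0 < 4 * sn x ^ 2), div_le_iff₀ (by positivity)]
    nlinarith
  have h3 : |2 * sn x * cs x| ≤ 2 := by
    rw [abs_mul, abs_of_pos (by positivity : 0 < 2 * sn x)]
    nlinarith [abs_nonneg (cs x)]
  have := abs_sub (cs x / (4 * sn x ^ 2)) (2 * sn x * cs x)
  unfold g; linarith

theorem ws_ge {s : ℝ} (h0 : 0 < s) (h1 : s ≤ 1) : -1 ≤ ws s := by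
  have := ws_anti h0 h1 le_rfl
  have h2 : ws 1 = -7 / 8 := by unfold ws; norm_num
  linarith

theorem cs_nonneg {x : ℝ} (h0 : 0 ≤ x) (h1 : x ≤ 8388608) : 0 ≤ cs x := by
  have hpi := pi_pos
  apply cos_nonneg_of_neg_pi_div_two_le_of_le
  · have : 0 ≤ π * x / 16777216 := by positivity
    linarith
  · rw [div_le_iff₀ (by norm_num)]; nlinarith

end Pool.Agent.H370Z.CC
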