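import Pool.Agent.H370Z.CC.Defs
import Pool.Agent.H370Z.CC.Trig

/-! Soundness of the sine and cosine approximations. -/

set_option autoImplicit false

namespace Pool.Agent.H370Z.CC

open Real

theorem e_add (a b : ℕ) : Nat.add a b = a + b := rfl
theorem e_mul (a b : ℕ) : Nat.mul a b = a * b := rfl
theorem e_sub (a b : ℕ) : Nat.sub a b = a - b := rfl
theorem e_div (a b : ℕ) : Nat.div a b = a / b := rfl
theorem e_mod (a b : ℕ) : Nat.mod a b = a % b := rfl
theorem e_pow (a b : ℕ) : Nat.pow a b = a ^ b := rfl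
theorem e_succ (a : ℕ) : Nat.succ a = a + 1 := rfl
theorem e_shl (a b : ℕ) : Nat.shiftLeft a b = a * 2 ^ b := Nat.shiftLeft_eq a b
theorem e_shr (a b : ℕ) : Nat.shiftRight a b = a / 2 ^ b := Nat.shiftRight_eq_div_pow a b

theorem nsub_le {a b : ℕ} {t : ℝ} (h0 : 0 ≤ t) (h : (a : ℝ) - b ≤ t) : ((a - b : ℕ) : ℝ) ≤ t := by
  rcases le_total b a with h1 | h1
  · rw [Nat.cast_sub h1]; exact h
  · rw [Nat.sub_eq_zero_of_le h1]; simpa using h0

theorem le_nsub (a b : ℕ) : (a : ℝ) - b ≤ ((a - b : ℕ) : ℝ) := by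
  rcases le_total b a with h1 | h1
  · rw [Nat.cast_sub h1]
  · rw [Nat.sub_eq_zero_of_le h1]
    have : (a : ℝ) ≤ b := by exact_mod_cast h1
    simp; linarith

theorem ndiv_le (a b : ℕ) : ((a / b : ℕ) : ℝ) ≤ (a : ℝ) / b := Nat.cast_div_le

theorem le_ndiv (a b : ℕ) : (a : ℝ) / b ≤ ((a / b : ℕ) : ℝ) + 1 := by
  rcases Nat.eq_zero_or_pos b with h | h
  · rw [h]; simp
  · have hb : (0 : ℝ) < b := by exact_mod_cast h
    rw [div_le_iff₀ hb]
    have h1 := Nat.lt_div_mul_add (a := a) h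
    have h2 : (a : ℝ) < ((a / b : ℕ) : ℝ) * b + b := by exact_mod_cast h1
    linarith

/-- sine polynomial -/
noncomputable def PS (y : ℝ) : ℝ := y ^ 1 / 1 - y ^ 3 / 6 + y ^ 5 / 120 - y ^ 7 / 5040 + y ^ 9 / 362880 - y ^ 11 / 39916800 + y ^ 13 / 6227020800 - y ^ 15 / 1307674368000 + y ^ 17 / 355687428096000

/-- cosine polynomial -/
noncomputable def PC (y : ℝ) : ℝ := 1 - y ^ 2 / 2 + y ^ 4 / 24 - y ^ 6 / 720 + y ^ 8 / 40320 - y ^ 10 / 3628800 + y ^ 12 / 479001600 - y ^ 14 / 87178291200 + y ^ 16 / 20922789888000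

theorem taylor {y : ℝ} (h0 : 0 ≤ y) (h1 : y ≤ 8 / 5) :
    |sin y - PS y| ≤ 15 / 10 ^ 13 ∧ |cos y - PC y| ≤ 15 / 10 ^ 13 := by
  have hn : ‖(y : ℂ) * Complex.I‖ = y := by simp [abs_of_nonneg h0]
  have h := Complex.exp_bound' (x := (y : ℂ) * Complex.I) (n := 18) (by rw [hn]; norm_num; linarith)
  have i1 : Complex.I ^ 1 = Complex.I := pow_one _
  have i2 : Complex.I ^ 2 = -1 := by rw [pow_succ, i1]; simp
  have i3 : Complex.I ^ 3 = -Complex.I := by rw [pow_succ, i2]; simp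
  have i4 : Complex.I ^ 4 = 1 := by rw [pow_succ, i3]; simp
  have i5 : Complex.I ^ 5 = Complex.I := by rw [pow_succ, i4]; simp
  have i6 : Complex.I ^ 6 = -1 := by rw [pow_succ, i5]; simp
  have i7 : Complex.I ^ 7 = -Complex.I := by rw [pow_succ, i6]; simp
  have i8 : Complex.I ^ 8 = 1 := by rw [pow_succ, i7]; simp
  have i9 : Complex.I ^ 9 = Complex.I := by rw [pow_succ, i8]; simp
  have i10 : Complex.I ^ 10 = -1 := by rw [pow_succ, i9]; simp
  have i11 : Complex.I ^ 11 = -Complex.I := by rw [pow_succ, i10]; simp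
  have i12 : Complex.I ^ 12 = 1 := by rw [pow_succ, i11]; simp
  have i13 : Complex.I ^ 13 = Complex.I := by rw [pow_succ, i12]; simp
  have i14 : Complex.I ^ 14 = -1 := by rw [pow_succ, i13]; simp
  have i15 : Complex.I ^ 15 = -Complex.I := by rw [pow_succ, i14]; simp
  have i16 : Complex.I ^ 16 = 1 := by rw [pow_succ, i15]; simp
  have i17 : Complex.I ^ 17 = Complex.I := by rw [pow_succ, i16]; simp
  have hs : ∑ m ∈ Finset.range 18, ((y : ℂ) * Complex.I) ^ m / (m.factorial : ℂ)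
      = (PC y : ℝ) + (PS y : ℝ) * Complex.I := by
    simp only [Finset.sum_range_succ, Finset.sum_range_zero, mul_pow, i1, i2, i3, i4, i5, i6, i7,
      i8, i9, i10, i11, i12, i13, i14, i15, i16, i17, PS, PC, Nat.factorial]
    push_cast
    ring
  rw [hs, hn, Complex.exp_mul_I, ← Complex.ofReal_cos, ← Complex.ofReal_sin] at h
  have hb : y ^ 18 / ((18 : ℕ).factorial : ℝ) * 2 ≤ 15 / 10 ^ 13 := by
    have : y ^ 18 ≤ (8 / 5) ^ 18 := pow_le_pow_left₀ h0 h1 18
    have h3 : ((18 : ℕ).factorial : ℝ) = 6402373705728000 := by norm_num [Nat.factorial]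
    rw [h3]
    norm_num at this ⊢
    linarith
  have h4 := (Complex.abs_re_le_norm _).trans (h.trans hb)
  have h5 := (Complex.abs_im_le_norm _).trans (h.trans hb)
  simp only [Complex.sub_re, Complex.add_re, Complex.ofReal_re, Complex.mul_re, Complex.I_re,
    Complex.ofReal_im, Complex.I_im, Complex.sub_im, Complex.add_im, Complex.mul_im, mul_zero,
    mul_one, sub_zero, add_zero, zero_add] at h4 h5
  exact ⟨h5, h4⟩

theorem cast_shl (c k j : ℕ) (h : k = 48 * j) :
    ((Nat.shiftLeft c k : ℕ) : ℝ) = c * (281474976710656 : ℝ) ^ j := by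
  rw [e_shl, h, pow_mul]; push_cast; norm_num

theorem algS (U x : ℝ) (hU : U ≠ 0) :
    x * (((((1 * (x * x * (x * x)) + (57120 * U ^ 4)) * (x * x * (x * x)) + (980179200 * U ^ 8)) * (x * x * (x * x)) + (2964061900800 * U ^ 12)) * (x * x * (x * x)) + (355687428096000 * U ^ 16)) -
      x * x * ((((272 * U ^ 2) * (x * x * (x * x)) + (8910720 * U ^ 6)) * (x * x * (x * x)) + (70572902400 * U ^ 10)) * (x * x * (x * x)) + (59281238016000 * U ^ 14))) / (355687428096000 * U ^ 16) = U * PS (x / U) := by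
  unfold PS; field_simp; ring

theorem algC (U x : ℝ) (hU : U ≠ 0) :
    (((((1 * (x * x * (x * x)) + (43680 * U ^ 4)) * (x * x * (x * x)) + (518918400 * U ^ 8)) * (x * x * (x * x)) + (871782912000 * U ^ 12)) * (x * x * (x * x)) + (20922789888000 * U ^ 16)) -
      x * x * ((((240 * U ^ 2) * (x * x * (x * x)) + (5765760 * U ^ 6)) * (x * x * (x * x)) + (29059430400 * U ^ 10)) * (x * x * (x * x)) + (10461394944000 * U ^ 14))) / (20922789888000 * U ^ 15) = U * PC (x / U) := by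
  unfold PC; field_simp; ring

theorem frac_spec (x a b D : ℕ) (r : ℝ) (hD : (0 : ℝ) < D) (hr : (x : ℝ) * (a - b) / D = r) :
    ((x * (a - b) / D : ℕ) : ℝ) ≤ max 0 r ∧ r - 1 ≤ ((x * (a - b) / D : ℕ) : ℝ) := by
  have hx : (0 : ℝ) ≤ x := Nat.cast_nonneg x
  constructor
  · refine (ndiv_le _ _).trans ?_
    rcases le_total b a with h | h
    · rw [Nat.cast_mul, Nat.cast_sub h, hr]; exact le_max_right _ _
    · rw [Nat.sub_eq_zero_of_le h]; simp
  · have h1 := le_ndiv (x * (a - b)) D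
    have h2 : (x : ℝ) * (a - b) / D ≤ ((x * (a - b) : ℕ) : ℝ) / D := by
      rw [Nat.cast_mul]
      gcongr
      exact le_nsub a b
    linarith

theorem sS_spec (x : ℕ) :
    (sS x (x * x) (x * x * (x * x)) : ℝ) ≤ max 0 (281474976710656 * PS (x / 281474976710656)) ∧
      281474976710656 * PS (x / 281474976710656) - 1 ≤ sS x (x * x) (x * x * (x * x)) := by
  unfold sS
  rw [e_div, e_mul, e_sub]
  apply frac_spec
  · rw [cast_shl _ 768 16 rfl]; positivity
  · rw [← algS _ _ (by norm_num)]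
    simp only [e_add, e_mul, Nat.cast_add, Nat.cast_mul, cast_shl 355687428096000 768 16 rfl, cast_shl 355687428096000 768 16 rfl, cast_shl 59281238016000 672 14 rfl, cast_shl 2964061900800 576 12 rfl, cast_shl 70572902400 480 10 rfl, cast_shl 980179200 384 8 rfl, cast_shl 8910720 288 6 rfl, cast_shl 57120 192 4 rfl, cast_shl 272 96 2 rfl,
      Nat.cast_ofNat, Nat.cast_one]

theorem sC_spec (x : ℕ) :
    (sC (x * x) (x * x * (x * x)) : ℝ) ≤ max 0 (281474976710656 * PC (x / 281474976710656)) ∧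
      281474976710656 * PC (x / 281474976710656) - 1 ≤ sC (x * x) (x * x * (x * x)) := by
  unfold sC
  rw [e_div, e_sub, ← one_mul (_ - _)]
  apply frac_spec
  · rw [cast_shl _ 720 15 rfl]; positivity
  · rw [← algC _ _ (by norm_num)]
    simp only [e_add, e_mul, Nat.cast_add, Nat.cast_mul, cast_shl 20922789888000 720 15 rfl, cast_shl 20922789888000 768 16 rfl, cast_shl 10461394944000 672 14 rfl, cast_shl 871782912000 576 12 rfl, cast_shl 29059430400 480 10 rfl, cast_shl 518918400 384 8 rfl, cast_shl 5765760 288 6 rfl, cast_shl 43680 192 4 rfl, cast_shl 240 96 2 rfl,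
      Nat.cast_ofNat, Nat.cast_one, one_mul]

theorem pi_bds : (3622009729038561421 : ℝ) ≤ π * 2 ^ 60 ∧ π * 2 ^ 60 ≤ 3622009729038561422 := by
  have h1 := pi_gt_d20
  have h2 := pi_lt_d20
  constructor <;> norm_num at h1 h2 ⊢ <;> linarith

theorem encl (a : ℕ) (r t : ℝ) (h0 : 0 ≤ t) (h1 : (a : ℝ) ≤ max 0 r) (h2 : r - 1 ≤ a)
    (h3 : |t - r| ≤ 500) : ((a - 512 : ℕ) : ℝ) ≤ t ∧ t ≤ ((a + 512 : ℕ) : ℝ) := by
  rw [abs_le] at h3
  constructor
  · apply nsub_le h0
    rcases le_max_iff.1 h1 with h | h <;> push_cast <;> linarith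
  · push_cast; linarith

theorem sc_spec (k : ℕ) (hk : k ≤ 8388608) (x : ℕ)
    (hx : x = 3622009729038561421 * k / 2 ^ 36) :
    (((sS x (x * x) (x * x * (x * x)) - 512 : ℕ) : ℝ) ≤ 281474976710656 * sn k ∧
      281474976710656 * sn k ≤ ((sS x (x * x) (x * x * (x * x)) + 512 : ℕ) : ℝ)) ∧
    (((sC (x * x) (x * x * (x * x)) - 512 : ℕ) : ℝ) ≤ 281474976710656 * cs k ∧
      281474976710656 * cs k ≤ ((sC (x * x) (x * x * (x * x)) + 512 : ℕ) : ℝ)) := by
  obtain ⟨hp1, hp2⟩ := pi_bds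
  have hk0 : (0 : ℝ) ≤ k := Nat.cast_nonneg k
  have hk1 : (k : ℝ) ≤ 8388608 := by exact_mod_cast hk
  have h1 := ndiv_le (3622009729038561421 * k) (2 ^ 36)
  have h2 := le_ndiv (3622009729038561421 * k) (2 ^ 36)
  rw [← hx] at h1 h2
  push_cast at h1 h2
  have h3 : 3622009729038561421 * (k : ℝ) ≤ π * 2 ^ 60 * k := by gcongr
  have h4 : π * 2 ^ 60 * k ≤ 3622009729038561422 * (k : ℝ) := by gcongr
  set y := π * (k : ℝ) / 16777216 with hy
  set z := (x : ℝ) / 281474976710656 with hz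
  have hyz : |y - z| ≤ 2 / 281474976710656 := by
    rw [abs_le, hy, hz]
    constructor <;> norm_num at h1 h2 h3 h4 ⊢ <;> linarith
  have hz0 : 0 ≤ z := by positivity
  have hz1 : z ≤ 8 / 5 := by
    rw [hz]; norm_num at h1 ⊢; linarith
  obtain ⟨t1, t2⟩ := taylor hz0 hz1
  have l1 := abs_sin_sub_sin_le y z
  have l2 := abs_cos_sub_cos_le y z
  have hs0 : 0 ≤ sn k := by
    have := sn_mono (a := 0) (b := k) le_rfl hk0 hk1
    simpa [sn] using this
  have hc0 := cs_nonneg hk0 hk1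
  constructor
  · apply encl _ _ _ (by positivity) (sS_spec x).1 (sS_spec x).2
    rw [← mul_sub, abs_mul, abs_of_pos (by norm_num)]
    have : |sn k - PS z| ≤ 2 / 281474976710656 + 15 / 10 ^ 13 := by
      have := abs_sub_le (sin y) (sin z) (PS z)
      unfold sn; linarith
    norm_num at this ⊢
    linarith
  · apply encl _ _ _ (by positivity) (sC_spec x).1 (sC_spec x).2
    rw [← mul_sub, abs_mul, abs_of_pos (by norm_num)]
    have : |cs k - PC z| ≤ 2 / 281474976710656 + 15 / 10 ^ 13 := by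
      have := abs_sub_le (cos y) (cos z) (PC z)
      unfold cs; linarith
    norm_num at this ⊢
    linarith

end Pool.Agent.H370Z.CC
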