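import Pool.Agent.H370Z.CC.Far

/-! Soundness of the tree checker. -/

set_option autoImplicit false

namespace Pool.Agent.H370Z.CC

open Finset Real

/-- the periodic odd interaction -/
noncomputable def Gp (x : ℝ) : ℝ :=
  sin (2 * π * x / 16777216) / (8 * |sn x| ^ 3) - sin (2 * π * x / 16777216)

theorem Gp_eq {x : ℝ} (h0 : 0 < x) (h1 : x < 16777216) : Gp x = g x := by
  have hs := sn_pos h0 h1
  have h2 : sin (2 * π * x / 16777216) = 2 * sn x * cs x := by
    unfold sn cs; rw [← sin_two_mul]; ring_nf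
  unfold Gp g
  rw [abs_of_pos hs, h2]
  field_simp
  ring

theorem Gp_neg (x : ℝ) : Gp (-x) = -Gp x := by
  unfold Gp sn
  rw [show 2 * π * -x / 16777216 = -(2 * π * x / 16777216) by ring,
    show π * -x / 16777216 = -(π * x / 16777216) by ring, sin_neg, sin_neg, abs_neg]
  ring

theorem Gp_add (x : ℝ) : Gp (x + 16777216) = Gp x := by
  unfold Gp sn
  rw [show 2 * π * (x + 16777216) / 16777216 = 2 * π * x / 16777216 + 2 * π by ring,
    show π * (x + 16777216) / 16777216 = π * x / 16777216 + π by ring, sin_add_two_pi, sin_add_pi,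
    abs_neg]

theorem Gp_int (x : ℝ) (n : ℤ) : Gp (x + n * 16777216) = Gp x :=
  (Function.Periodic.int_mul (f := Gp) (c := 16777216) Gp_add n) x

/-- the equilibrium equations -/
def NodeEq (N : ℕ) (θ : ℕ → ℝ) : Prop := ∀ i, i < N → ∑ j ∈ range N, Gp (θ j - θ i) = 0

/-- normalisation: the largest gap is the last one, the first gap is at most the last but one -/
def Nrm (N : ℕ) (θ : ℕ → ℝ) : Prop :=
  (∀ k, k + 2 ≤ N → θ (k + 1) - θ k + (θ (N - 1) - θ 0) ≤ 16777216) ∧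
    θ 1 - θ 0 ≤ θ (N - 1) - θ (N - 2)

/-- membership in a box -/
def InP (θ : ℕ → ℝ) (p : ℕ × ℕ) (i j : ℕ) : Prop := (p.1 : ℝ) ≤ θ j - θ i ∧ θ j - θ i ≤ p.2

/-- every normalised solution in the box has the property `C` -/
def Good (N : ℕ) (C : (ℕ → ℝ) → Prop) (b : List (List (ℕ × ℕ))) : Prop :=
  ∀ θ, NodeEq N θ → Nrm N θ → b.length = N → BoxP (InP θ) b 0 → C θ

theorem S2_anti (Y : ℕ → ℕ → ℝ) (hY : ∀ a b, Y b a = -Y a b) (lam : ℕ → ℝ) : ∀ n i : ℕ,
    S2 (fun a b => (lam a - lam b) * Y a b) n i =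
      ∑ a ∈ range n, lam (i + a) * ∑ b ∈ range n, Y (i + a) (i + b)
  | 0, _ => rfl
  | n + 1, i => by
    have h0 : Y i i = 0 := by have := hY i i; linarith
    rw [S2_succ, S2_anti Y hY lam n (i + 1), sum_range_succ', sum_range_succ' (fun b => Y (i + 0) (i + b)),
      add_zero, h0, add_zero, mul_sum, ← sum_add_distrib, ← sum_add_distrib]
    refine sum_congr rfl fun t _ => ?_
    rw [sum_range_succ', add_zero, hY i (i + (t + 1)), show i + (t + 1) = i + 1 + t by omega]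
    have h1 : ∑ k ∈ range n, Y (i + 1 + t) (i + (k + 1)) = ∑ k ∈ range n, Y (i + 1 + t) (i + 1 + k) :=
      sum_congr rfl fun k _ => by rw [show i + (k + 1) = i + 1 + k by omega]
    rw [h1]
    ring

theorem NodeEq.s2 {N : ℕ} {θ : ℕ → ℝ} (h : NodeEq N θ) (lam : ℕ → ℝ) :
    S2 (fun a b => (lam a - lam b) * Gp (θ b - θ a)) N 0 = 0 := by
  rw [S2_anti (fun a b => Gp (θ b - θ a)) (fun a b => by rw [← Gp_neg, neg_sub])]
  refine sum_eq_zero fun a ha => ?_
  simp only [zero_add]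
  rw [h a (mem_range.1 ha), mul_zero]

/-- invariant of a record -/
def RecOK (θ : ℕ → ℝ) (r : Rc) (i j : ℕ) : Prop :=
  (r.l : ℝ) ≤ θ j - θ i ∧ θ j - θ i ≤ r.u ∧ 262144 ≤ r.l ∧ r.u ≤ 16515072 ∧ EOK r.l r.el ∧
    EOK r.u r.eu ∧ r.e = pc i j ∧ ROK r (pc i j) (θ j - θ i) (Gp (θ j - θ i))

theorem recOK_mk (θ : ℕ → ℝ) (i j l u : ℕ) (el eu : E4) (hl : 262144 ≤ l) (hu : u ≤ 16515072)
    (hel : EOK l el) (heu : EOK u eu) (h1 : (l : ℝ) ≤ θ j - θ i) (h2 : θ j - θ i ≤ u) :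
    RecOK θ (mkR l u (pc i j) el eu) i j := by
  have hl' : (262144 : ℝ) ≤ l := by exact_mod_cast hl
  have hu' : (u : ℝ) ≤ 16515072 := by exact_mod_cast hu
  refine ⟨h1, h2, hl, hu, hel, heu, rfl, ?_⟩
  rw [Gp_eq (by linarith) (by linarith)]
  exact mkR_ok l u _ el eu hl hu hel heu h1 h2

section Lists

variable {α : Type}

theorem nth_mem (d : α) : ∀ (i : ℕ) (l : List α), nth d i l = d ∨ nth d i l ∈ l
  | 0, [] => Or.inl rfl
  | 0, _ :: _ => Or.inr List.mem_cons_self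
  | _ + 1, [] => Or.inl rfl
  | i + 1, _ :: t => (nth_mem d i t).imp id fun h => List.mem_cons_of_mem _ h

theorem RowP.nth {P : α → ℕ → ℕ → Prop} (d : α) (i : ℕ) : ∀ (t : ℕ) (rs : List α) (j : ℕ),
    RowP P i rs j → t < rs.length → P (nth d t rs) i (j + t)
  | _, [], _, _, h => absurd h (by simp)
  | 0, _ :: _, _, h, _ => h.1
  | t + 1, _ :: rs, j, h, ht => by
    have := RowP.nth d i t rs (j + 1) h.2 (by simpa using ht)
    rw [show j + 1 + t = j + (t + 1) by omega] at this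
    exact this

theorem BoxP.nth {P : α → ℕ → ℕ → Prop} (d : α) (b : ℕ) : ∀ (a : ℕ) (rows : List (List α)) (i : ℕ),
    BoxP P rows i → a + b + 2 ≤ rows.length →
      P (nth d b (nth [] a rows)) (i + a) (i + a + 1 + b)
  | _, [], _, _, h => absurd h (by simp)
  | 0, row :: rows, i, h, ha => RowP.nth d i b row (i + 1) h.2.1 (by
      rw [h.1]; simp at ha; omega)
  | a + 1, _ :: rows, i, h, ha => by
    have := BoxP.nth d b a rows (i + 1) h.2.2 (by simp at ha; omega)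
    rw [show i + 1 + a = i + (a + 1) by omega] at this
    exact this

theorem length_updL (f : α → α) : ∀ (i : ℕ) (l : List α), (updL f i l).length = l.length
  | 0, [] => rfl
  | 0, _ :: _ => rfl
  | _ + 1, [] => rfl
  | i + 1, _ :: t => congrArg (· + 1) (length_updL f i t)

theorem RowP.upd {P : α → ℕ → ℕ → Prop} (r : α) (i : ℕ) : ∀ (t : ℕ) (rs : List α) (j : ℕ),
    RowP P i rs j → P r i (j + t) → RowP P i (updL (fun _ => r) t rs) j
  | 0, [], _, _, _ => trivial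
  | _ + 1, [], _, _, _ => trivial
  | 0, _ :: _, _, h, hr => ⟨hr, h.2⟩
  | t + 1, _ :: rs, j, h, hr => ⟨h.1, RowP.upd r i t rs (j + 1) h.2
      (by rw [show j + 1 + t = j + (t + 1) by omega]; exact hr)⟩

theorem BoxP.upd {P : α → ℕ → ℕ → Prop} (r : α) (b : ℕ) : ∀ (a : ℕ) (rows : List (List α)) (i : ℕ),
    BoxP P rows i → P r (i + a) (i + a + 1 + b) → BoxP P (updL (updL (fun _ => r) b) a rows) i
  | 0, [], _, _, _ => trivial
  | _ + 1, [], _, _, _ => trivial
  | 0, row :: _, i, h, hr => ⟨(length_updL _ b row).trans h.1, RowP.upd r i b row (i + 1) h.2.1 hr,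
      h.2.2⟩
  | a + 1, _ :: rows, i, h, hr => ⟨h.1.trans (length_updL _ a rows).symm, h.2.1,
      BoxP.upd r b a rows (i + 1) h.2.2 (by rw [show i + 1 + a = i + (a + 1) by omega]; exact hr)⟩

end Lists

theorem subR_sound (θ : ℕ → ℝ) (i : ℕ) : ∀ (rs : List Rc) (bs : List (ℕ × ℕ)) (j : ℕ),
    subR rs bs = true → RowP (RecOK θ) i rs j → bs.length = rs.length ∧ RowP (InP θ) i bs j
  | [], [], _, _, _ => ⟨rfl, trivial⟩
  | [], _ :: _, _, h, _ => by cases h
  | _ :: _, [], _, h, _ => by cases h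
  | r :: rs, p :: bs, j, h, hr => by
    obtain ⟨h1, h2⟩ := bool_and h
    obtain ⟨h3, h4⟩ := bool_and h2
    obtain ⟨h5, h6⟩ := subR_sound θ i rs bs (j + 1) h4 hr.2
    have h7 : (p.1 : ℝ) ≤ r.l := by exact_mod_cast Nat.le_of_ble_eq_true h1
    have h8 : (r.u : ℝ) ≤ p.2 := by exact_mod_cast Nat.le_of_ble_eq_true h3
    exact ⟨congrArg (· + 1) h5, ⟨h7.trans hr.1.1, hr.1.2.1.trans h8⟩, h6⟩

theorem subB_sound (θ : ℕ → ℝ) : ∀ (rows : List (List Rc)) (bs : List (List (ℕ × ℕ))) (i : ℕ),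
    subB rows bs = true → BoxP (RecOK θ) rows i → bs.length = rows.length ∧ BoxP (InP θ) bs i
  | [], [], _, _, _ => ⟨rfl, trivial⟩
  | [], _ :: _, _, h, _ => by cases h
  | _ :: _, [], _, h, _ => by cases h
  | r :: rs, p :: bs, i, h, hr => by
    obtain ⟨h1, h2⟩ := bool_and h
    obtain ⟨h3, h4⟩ := subR_sound θ i r p (i + 1) h1 hr.2.1
    obtain ⟨h5, h6⟩ := subB_sound θ rs bs (i + 1) h2 hr.2.2
    exact ⟨congrArg (· + 1) h5, h3.trans (hr.1.trans h5.symm), h4, h6⟩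

theorem tri_sound (θ : ℕ → ℝ) (N a b c : ℕ) (rows : List (List Rc)) (hlen : rows.length = N)
    (hb : BoxP (RecOK θ) rows 0) (h : tri N a b c rows = true) : False := by
  obtain ⟨h1, h2⟩ := bool_and h
  have h3 : a + b + c + 3 ≤ N := Nat.le_of_ble_eq_true h1
  have r1 := BoxP.nth dR b a rows 0 hb (by omega)
  have r2 := BoxP.nth dR c (a + b + 1) rows 0 hb (by omega)
  have r3 := BoxP.nth dR (b + c + 1) a rows 0 hb (by omega)
  rw [zero_add] at r1 r2 r3
  rw [show a + 1 + b = a + b + 1 by omega] at r1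
  rw [show a + 1 + (b + c + 1) = a + b + 1 + 1 + c by omega] at r3
  change RecOK θ (get rows a b) _ _ at r1
  change RecOK θ (get rows (Nat.succ (Nat.add a b)) c) _ _ at r2
  change RecOK θ (get rows a (Nat.succ (Nat.add b c))) _ _ at r3
  generalize get rows a b = x1 at *
  generalize get rows (Nat.succ (Nat.add a b)) c = x2 at *
  generalize get rows a (Nat.succ (Nat.add b c)) = x3 at *
  unfold tri3 at h2
  cases h4 : Nat.ble (Nat.succ x3.u) (Nat.add x1.l x2.l)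
  · rw [h4] at h2
    have h5 : x1.u + x2.u + 1 ≤ x3.l := Nat.le_of_ble_eq_true h2
    have h6 : (x1.u : ℝ) + x2.u + 1 ≤ x3.l := by exact_mod_cast h5
    linarith [r1.2.1, r2.2.1, r3.1]
  · have h5 : x3.u + 1 ≤ x1.l + x2.l := Nat.le_of_ble_eq_true h4
    have h6 : (x3.u : ℝ) + 1 ≤ x1.l + x2.l := by exact_mod_cast h5
    linarith [r1.1, r2.1, r3.2.1]

theorem sym_sound (θ : ℕ → ℝ) (N k : ℕ) (hN : 2 ≤ N) (rows : List (List Rc))
    (hlen : rows.length = N) (hb : BoxP (RecOK θ) rows 0) (hn : Nrm N θ)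
    (h : sym N k rows = true) : False := by
  unfold sym at h
  cases h4 : Nat.ble (Nat.add k 2) N
  · rw [h4] at h
    have h5 : (get rows (N - 2) 0).u + 1 ≤ (get rows 0 0).l := Nat.le_of_ble_eq_true h
    have h6 : ((get rows (N - 2) 0).u : ℝ) + 1 ≤ (get rows 0 0).l := by exact_mod_cast h5
    have r1 := (BoxP.nth dR 0 (N - 2) rows 0 hb (by omega)).2.1
    have r2 := (BoxP.nth dR 0 0 rows 0 hb (by omega)).1
    rw [zero_add, show N - 2 + 1 + 0 = N - 1 by omega] at r1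
    change _ ≤ ((get rows (N - 2) 0).u : ℝ) at r1
    change ((get rows 0 0).l : ℝ) ≤ θ 1 - θ 0 at r2
    linarith [hn.2]
  · rw [h4] at h
    have h3 : k + 2 ≤ N := Nat.le_of_ble_eq_true h4
    have h5 : 16777217 ≤ (get rows k 0).l + (get rows 0 (N - 2)).l := Nat.le_of_ble_eq_true h
    have h6 : (16777217 : ℝ) ≤ (get rows k 0).l + (get rows 0 (N - 2)).l := by exact_mod_cast h5
    have r1 := (BoxP.nth dR 0 k rows 0 hb (by omega)).1
    have r2 := (BoxP.nth dR (N - 2) 0 rows 0 hb (by omega)).1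
    rw [zero_add] at r1
    rw [show 0 + 0 + 1 + (N - 2) = N - 1 by omega] at r2
    change ((get rows k 0).l : ℝ) ≤ θ (k + 1) - θ k at r1
    change ((get rows 0 (N - 2)).l : ℝ) ≤ θ (N - 1) - θ 0 at r2
    linarith [hn.1 k h3]

theorem spl_sound (θ : ℕ → ℝ) (N a b x : ℕ) (rows : List (List Rc)) (hlen : rows.length = N)
    (hb : BoxP (RecOK θ) rows 0) (kl kr : List (List Rc) → Bool)
    (h : spl1 N a b x rows kl kr = true) :
    ∃ rows' : List (List Rc), rows'.length = N ∧ BoxP (RecOK θ) rows' 0 ∧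
      ((kl rows' = true) ∧ (θ (a + 1 + b) - θ a ≤ x) ∨ kr rows' = true ∧ (x : ℝ) ≤ θ (a + 1 + b) - θ a) := by
  unfold spl1 spl at h
  obtain ⟨h1, h⟩ := bool_and h
  obtain ⟨h2, h⟩ := bool_and h
  obtain ⟨h3, h⟩ := bool_and h
  obtain ⟨h4, h5⟩ := bool_and h
  have h6 : a + b + 2 ≤ N := Nat.le_of_ble_eq_true h1
  have h7 := Nat.le_of_ble_eq_true h2
  have h8 := Nat.le_of_ble_eq_true h3
  have r := BoxP.nth dR b a rows 0 hb (by omega)
  change RecOK θ (get rows a b) _ _ at r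
  generalize get rows a b = r0 at *
  obtain ⟨r1, r2, r3, r4, r5, r6, r7, -⟩ := r
  have he := ev_ok x (by omega) (by omega)
  rw [r7] at h4 h5
  rcases le_total (θ (0 + a + 1 + b) - θ (0 + a)) x with hx | hx
  · refine ⟨_, (length_updL _ a rows).trans hlen, BoxP.upd _ b a rows 0 hb
      (recOK_mk θ _ _ r0.l x r0.el (ev x) r3 (by omega) r5 he r1 hx), Or.inl ⟨h4, ?_⟩⟩
    simpa using hx
  · refine ⟨_, (length_updL _ a rows).trans hlen, BoxP.upd _ b a rows 0 hb
      (recOK_mk θ _ _ x r0.u (ev x) r0.eu (by omega) r4 he r6 hx r2), Or.inr ⟨h5, ?_⟩⟩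
    simpa using hx

theorem chk_sound (N : ℕ) (hN2 : 2 ≤ N) (hN : N ≤ 8) (C : (ℕ → ℝ) → Prop)
    (known : List (List (List (ℕ × ℕ)))) (hk : ∀ b ∈ known, Good N C b) (θ : ℕ → ℝ)
    (he : NodeEq N θ) (hn : Nrm N θ) (t : Tr) : ∀ rows : List (List Rc), rows.length = N →
    BoxP (RecOK θ) rows 0 → chk N (nP N) (68719476736 * wB N 0) known t rows = true → C θ := by
  generalize hW : 68719476736 * wB N 0 = W
  induction t with
  | F c =>
    intro rows hlen hb h
    refine (far_sound N c rows θ (fun a b => Gp (θ b - θ a)) hlen hN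
      (BoxP.mono (fun r i j h => h.2.2.2.2.2.2.2) rows 0 hb) he.s2 ?_).elim
    rw [hW]; exact h
  | T c => exact fun rows hlen hb h => (tri_sound θ N _ _ _ rows hlen hb h).elim
  | Y k => exact fun rows hlen hb h => (sym_sound θ N k hN2 rows hlen hb hn h).elim
  | R s =>
    intro rows hlen hb h
    obtain ⟨h1, h2⟩ := subB_sound θ rows _ 0 h hb
    rcases nth_mem [[(1, 0)]] s known with h3 | h3
    · rw [h3] at h2
      exact absurd h2.1 (by simp)
    · exact hk _ h3 θ he hn (h1.trans hlen) h2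
  | S c l r ihl ihr =>
    intro rows hlen hb h
    obtain ⟨rows', h1, h2, h3 | h3⟩ := spl_sound θ N _ _ _ rows hlen hb _ _ h
    · exact ihl rows' h1 h2 h3.1
    · exact ihr rows' h1 h2 h3.1

theorem mkRow_ok (θ : ℕ → ℝ) (i : ℕ) : ∀ (row : List (ℕ × ℕ)) (j : ℕ),
    (row.all fun p => Nat.ble 262144 p.1 && Nat.ble p.1 p.2 && Nat.ble p.2 16515072) = true →
    RowP (InP θ) i row j → (mkRow i row j).length = row.length ∧ RowP (RecOK θ) i (mkRow i row j) j
  | [], _, _, _ => ⟨rfl, trivial⟩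
  | p :: row, j, h, hr => by
    rw [List.all_cons, Bool.and_eq_true, Bool.and_eq_true, Bool.and_eq_true] at h
    obtain ⟨⟨⟨h1, h2⟩, h3⟩, h4⟩ := h
    have h5 := Nat.le_of_ble_eq_true h1
    have h6 := Nat.le_of_ble_eq_true h2
    have h7 := Nat.le_of_ble_eq_true h3
    obtain ⟨a1, a2⟩ := mkRow_ok θ i row (j + 1) h4 hr.2
    exact ⟨congrArg (· + 1) a1, recOK_mk θ i j p.1 p.2 _ _ h5 h7 (ev_ok _ h5 (by omega))
      (ev_ok _ (by omega) h7) hr.1.1 hr.1.2, a2⟩

theorem mkB_ok (θ : ℕ → ℝ) : ∀ (b : List (List (ℕ × ℕ))) (i : ℕ), okB b = true →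
    BoxP (InP θ) b i → (mkB b i).length = b.length ∧ BoxP (RecOK θ) (mkB b i) i
  | [], _, _, _ => ⟨rfl, trivial⟩
  | row :: b, i, h, hr => by
    unfold okB at h
    rw [List.all_cons, Bool.and_eq_true] at h
    obtain ⟨a1, a2⟩ := mkRow_ok θ i row (i + 1) h.1 hr.2.1
    obtain ⟨a3, a4⟩ := mkB_ok θ b (i + 1) h.2 hr.2.2
    exact ⟨congrArg (· + 1) a3, a1.trans (hr.1.trans a3.symm), a2, a4⟩

/-- all boxes of a list are good -/
def AllGood (N : ℕ) (C : (ℕ → ℝ) → Prop) : List (List (List (ℕ × ℕ))) → Prop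
  | [] => True
  | b :: l => Good N C b ∧ AllGood N C l

theorem AllGood.mem {N : ℕ} {C : (ℕ → ℝ) → Prop} : ∀ {l : List (List (List (ℕ × ℕ)))},
    AllGood N C l → ∀ b ∈ l, Good N C b
  | [], _, _, h => absurd h (by simp)
  | _ :: _, h, b, hb => by
    rcases List.mem_cons.1 hb with rfl | h1
    · exact h.1
    · exact h.2.mem b h1

theorem good_of_chk {N : ℕ} (hN2 : 2 ≤ N) (hN : N ≤ 8) {C : (ℕ → ℝ) → Prop}
    {known : List (List (List (ℕ × ℕ)))} {t : Tr} {b : List (List (ℕ × ℕ))}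
    (h : chkB N known t b = true) (hk : AllGood N C known) : Good N C b := by
  intro θ he hn hlen hb
  unfold chkB at h
  rw [Bool.and_eq_true] at h
  obtain ⟨a1, a2⟩ := mkB_ok θ b 0 h.1 hb
  exact chk_sound N hN2 hN C known hk.mem θ he hn t _ (a1.trans hlen) a2 h.2

end Pool.Agent.H370Z.CC
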