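import Pool.Agent.H370Z.CC.Tree

/-! Uniqueness boxes that are invariant under a reflection. -/

set_option autoImplicit false

namespace Pool.Agent.H370Z.CC

open Finset Real

/-- entry `(i, j)` of a triangular array -/
noncomputable def ent {α : Type} (d : α) (b : List (List α)) (i j : ℕ) : α :=
  nth d (j - (i + 1)) (nth [] i b)

/-- row builder -/
def bldR {α : Type} (f : ℕ → α) : ℕ → ℕ → List α
  | 0, _ => []
  | n + 1, j => f j :: bldR f n (j + 1)

/-- triangular array builder -/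
def bld {α : Type} (f : ℕ → ℕ → α) : ℕ → ℕ → List (List α)
  | 0, _ => []
  | n + 1, i => bldR (f i) n (i + 1) :: bld f n (i + 1)

/-- check over all pairs -/
def allP (N : ℕ) (f : ℕ → ℕ → Bool) : Bool :=
  (List.range N).all fun j => (List.range j).all fun i => f i j

/-- upper bound of the weight on an interval -/
noncomputable def vU (p : ℕ × ℕ) : ℕ := max (ev p.1).vu (ev p.2).vu

/-- lower bound of the weight on an interval -/
noncomputable def vL (p : ℕ × ℕ) : ℕ :=
  cond (Nat.ble p.2 8388608) (ev p.2).vl (cond (Nat.ble 8388608 p.1) (ev p.1).vl (ev 8388608).vl)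

/-- record of the linearised problem -/
noncomputable def coneR (tg : Bool) (e c r yA yB : ℕ) : Rc :=
  ⟨0, 0, 0, ⟨0, 0, 0, 0⟩, ⟨0, 0, 0, 0⟩,
    VL.v2 (gx false e (cond tg (c + r) (c - r)))
      (Nat.add (cond tg yA yB) 1393796574908163946345982392040522594123776)
      (gz false (cond tg (c + r) (c - r)))
      (gx false e (c + r)) (Nat.add yA 1393796574908163946345982392040522594123776)
      (gz false (c + r)),
    VL.v2 (gx false e (cond tg (c + r) (c - r)))
      (Nat.add (cond tg yB yA) 1393796574908163946345982392040522594123776)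
      (gz false (cond tg (c + r) (c - r)))
      (gx false e (c + r)) (Nat.add yB 1393796574908163946345982392040522594123776)
      (gz false (c + r))⟩

/-- generic heights -/
def hA (Y V r u : ℕ) : ℕ := Y + V * r - u * r

/-- generic heights -/
def hB (Y V r l : ℕ) : ℕ := Y + l * r - V * r

/-- the linearised box with target pair `(p, q)` -/
noncomputable def cone (N : ℕ) (b : List (List (ℕ × ℕ))) (rho : List (List ℕ)) (p q : ℕ) :
    List (List Rc) :=
  bld (fun i j => coneR (Nat.beq i p && Nat.beq j q) (pc i j) (1048576 * (j - i)) (ent 0 rho i j)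
    (hA 9592306918328966840320 8796093022208 (ent 0 rho i j) (vU (ent (0, 0) b i j)))
    (hB 9592306918328966840320 8796093022208 (ent 0 rho i j) (vL (ent (0, 0) b i j)))) N 0

/-- the reflection of indices -/
def rf (N m k : ℕ) : ℕ := if k ≤ m then m - k else m + N - k

/-- invariance under the reflection -/
noncomputable def rfOk (N m : ℕ) (b : List (List (ℕ × ℕ))) (i j : ℕ) : Bool :=
  cond (Nat.ble j m || Nat.ble (m + 1) i)
    (Nat.ble (ent (0, 0) b i j).1 (ent (0, 0) b (rf N m j) (rf N m i)).1 &&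
      Nat.ble (ent (0, 0) b (rf N m j) (rf N m i)).2 (ent (0, 0) b i j).2)
    (Nat.ble ((ent (0, 0) b i j).1 + (ent (0, 0) b (rf N m i) (rf N m j)).2) 16777216 &&
      Nat.ble 16777216 ((ent (0, 0) b i j).2 + (ent (0, 0) b (rf N m i) (rf N m j)).1))

/-- range checks -/
noncomputable def rgOk (b : List (List (ℕ × ℕ))) (rho : List (List ℕ)) (i j : ℕ) : Bool :=
  Nat.ble 262144 (ent (0, 0) b i j).1 && Nat.ble (ent (0, 0) b i j).2 16515072 &&
    Nat.ble 1 (ent 0 rho i j) && Nat.ble (ent 0 rho i j) 65536 &&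
    Nat.ble (vU (ent (0, 0) b i j) * ent 0 rho i j) 9592306918328966840320

/-- the uniqueness check -/
noncomputable def uq (N m : ℕ) (b : List (List (ℕ × ℕ))) (rho cert : List (List ℕ)) : Bool :=
  Nat.ble (m + 1) N && allP N (rfOk N m b) && allP N (rgOk b rho) &&
    allP N fun i j => far N (nP N) (68719476736 * wB N 0) (ent 0 cert i j) (cone N b rho i j)

theorem allP_spec {N : ℕ} {f : ℕ → ℕ → Bool} (h : allP N f = true) {i j : ℕ} (hij : i < j)
    (hj : j < N) : f i j = true := by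
  unfold allP at h
  rw [List.all_eq_true] at h
  have h1 := h j (List.mem_range.2 hj)
  rw [List.all_eq_true] at h1
  exact h1 i (List.mem_range.2 hij)

theorem bldR_ok {α : Type} {P : α → ℕ → ℕ → Prop} (f : ℕ → α) (i : ℕ) : ∀ n j : ℕ,
    (∀ b, j ≤ b → b < j + n → P (f b) i b) → (bldR f n j).length = n ∧ RowP P i (bldR f n j) j
  | 0, _, _ => ⟨rfl, trivial⟩
  | n + 1, j, h => by
    obtain ⟨h1, h2⟩ := bldR_ok f i n (j + 1) fun b b1 b2 => h b (by omega) (by omega)
    exact ⟨congrArg (· + 1) h1, h j le_rfl (by omega), h2⟩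

theorem bld_ok {α : Type} {P : α → ℕ → ℕ → Prop} (f : ℕ → ℕ → α) : ∀ n i : ℕ,
    (∀ a b, i ≤ a → a < b → b < i + n → P (f a b) a b) →
      (bld f n i).length = n ∧ BoxP P (bld f n i) i
  | 0, _, _ => ⟨rfl, trivial⟩
  | n + 1, i, h => by
    obtain ⟨h1, h2⟩ := bld_ok f n (i + 1) fun a b b1 b2 b3 => h a b (by omega) b2 (by omega)
    obtain ⟨h3, h4⟩ := bldR_ok (P := P) (f i) i n (i + 1) fun b b1 b2 =>
      h i b le_rfl (by omega) (by omega)
    exact ⟨congrArg (· + 1) h1, h3.trans h1.symm, h4, h2⟩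

theorem BoxP.ent {α : Type} {P : α → ℕ → ℕ → Prop} (d : α) {b : List (List α)} (h : BoxP P b 0)
    {i j : ℕ} (hij : i < j) (hj : j < b.length) : P (ent d b i j) i j := by
  have := BoxP.nth d (j - (i + 1)) i b 0 h (by omega)
  rw [zero_add, show i + 1 + (j - (i + 1)) = j by omega] at this
  exact this

theorem v_range' (l u : ℕ) (E1 E2 E3 : E4) (h1 : 262144 ≤ l) (h2 : u ≤ 16515072) {x : ℝ}
    (hx1 : (l : ℝ) ≤ x) (hx2 : x ≤ u) (e1 : EOK l E1) (e2 : EOK u E2) (e3 : EOK 8388608 E3) :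
    ((cond (Nat.ble u 8388608) E2.vl (cond (Nat.ble 8388608 l) E1.vl E3.vl) : ℕ) : ℝ) ≤
      (v x + 8) * 2 ^ 40 ∧ (v x + 8) * 2 ^ 40 ≤ (max E1.vu E2.vu : ℕ) ∧ -8 ≤ v x := by
  have h1' : (262144 : ℝ) ≤ l := by exact_mod_cast h1
  have h2' : (u : ℝ) ≤ 16515072 := by exact_mod_cast h2
  have a1 := e1.2.2.1
  have a2 := e2.2.2.1
  have a3 := e3.2.2.1
  have b1 := e1.2.2.2.1
  have b2 := e2.2.2.2.1
  refine ⟨?_, ?_, ?_⟩
  · cases c1 : Nat.ble u 8388608
    · cases c2 : Nat.ble 8388608 l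
      · have : v 8388608 ≤ v x := by
          rcases le_total x 8388608 with h | h
          · exact v_anti (by linarith) h le_rfl
          · exact v_mono le_rfl h (by linarith)
        rw [cond_false, cond_false]
        linarith
      · have c3 : (8388608 : ℝ) ≤ l := by exact_mod_cast Nat.le_of_ble_eq_true c2
        have := v_mono c3 hx1 (by linarith)
        rw [cond_false, cond_true]
        linarith
    · have c3 : (u : ℝ) ≤ 8388608 := by exact_mod_cast Nat.le_of_ble_eq_true c1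
      have := v_anti (by linarith) hx2 c3
      rw [cond_true]
      linarith
  · rw [Nat.cast_max]
    rcases le_total x 8388608 with h | h
    · have := v_anti (by linarith) hx1 h
      exact le_max_of_le_left (by linarith)
    · have := v_mono h hx2 (by linarith)
      exact le_max_of_le_right (by linarith)
  · have := ws_ge (sn_pos (x := x) (by linarith) (by linarith)) (sn_le_one x)
    have h3 := pi_lt_four
    have h4 := pi_pos
    unfold v
    nlinarith

theorem v_range (p : ℕ × ℕ) (h1 : 262144 ≤ p.1) (h2 : p.2 ≤ 16515072) {x : ℝ} (hx1 : (p.1 : ℝ) ≤ x)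
    (hx2 : x ≤ p.2) : (vL p : ℝ) ≤ (v x + 8) * 2 ^ 40 ∧ (v x + 8) * 2 ^ 40 ≤ vU p ∧ -8 ≤ v x := by
  have h12 : p.1 ≤ p.2 := by exact_mod_cast hx1.trans hx2
  have e3 := ev_ok 8388608 (by norm_num) (by norm_num)
  rw [Nat.cast_ofNat] at e3
  unfold vL vU
  exact v_range' p.1 p.2 _ _ _ h1 h2 hx1 hx2 (ev_ok p.1 h1 (by omega)) (ev_ok p.2 (by omega) h2) e3

theorem slope_range (p : ℕ × ℕ) (h1 : 262144 ≤ p.1) (h2 : p.2 ≤ 16515072) {d d' : ℝ}
    (a1 : (p.1 : ℝ) ≤ d) (a2 : d ≤ p.2) (a3 : (p.1 : ℝ) ≤ d') (a4 : d' ≤ p.2) :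
    ∃ w : ℝ, ((vL p : ℝ) ≤ (w + 8) * 2 ^ 40 ∧ (w + 8) * 2 ^ 40 ≤ vU p ∧ -8 ≤ w) ∧
      Gp d - Gp d' = -w * (d - d') / 16777216 := by
  have h1' : (262144 : ℝ) ≤ p.1 := by exact_mod_cast h1
  have h2' : (p.2 : ℝ) ≤ 16515072 := by exact_mod_cast h2
  rw [Gp_eq (by linarith) (by linarith), Gp_eq (by linarith) (by linarith)]
  rcases lt_trichotomy d d' with h | h | h
  · obtain ⟨ξ, b1, b2, b3⟩ := mvt (by linarith) h (by linarith)
    exact ⟨v ξ, v_range p h1 h2 (by linarith) (by linarith), by linarith⟩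
  · exact ⟨v d, v_range p h1 h2 a1 a2, by rw [h]; simp⟩
  · obtain ⟨ξ, b1, b2, b3⟩ := mvt (by linarith) h (by linarith)
    exact ⟨v ξ, v_range p h1 h2 (by linarith) (by linarith), b3⟩

theorem hA_cast (Y V r u : ℕ) (h : u * r ≤ Y) : (hA Y V r u : ℝ) = Y + V * r - u * r := by
  unfold hA; rw [Nat.cast_sub (by omega)]; push_cast; ring

theorem hB_cast (Y V r l : ℕ) (h : V * r ≤ Y) : (hB Y V r l : ℝ) = Y + l * r - V * r := by
  unfold hB; rw [Nat.cast_sub (by omega)]; push_cast; ring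

theorem coneR_ok (tg : Bool) (e c r l u : ℕ) (w δ : ℝ) (hc1 : 1048576 ≤ c) (hc2 : c ≤ 8388608)
    (hr : r ≤ 65536) (hu : u * r ≤ 9592306918328966840320) (hl : (l : ℝ) ≤ (w + 8) * 2 ^ 40)
    (hw : (w + 8) * 2 ^ 40 ≤ u) (_hw' : -8 ≤ w) (hδ : |δ| ≤ r) (ht : tg = true → δ = r) :
    ROK (coneR tg e c r (hA 9592306918328966840320 8796093022208 r u)
      (hB 9592306918328966840320 8796093022208 r l)) e (c + δ) (-w * δ / 16777216) := by
  have eA := hA_cast 9592306918328966840320 8796093022208 r u hu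
  have eB := hB_cast 9592306918328966840320 8796093022208 r l (by omega)
  have hr0 : (0 : ℝ) ≤ r := Nat.cast_nonneg r
  have hr' : (r : ℝ) ≤ 65536 := by exact_mod_cast hr
  have hc1' : (1048576 : ℝ) ≤ c := by exact_mod_cast hc1
  have hc2' : (c : ℝ) ≤ 8388608 := by exact_mod_cast hc2
  have hu' : (u : ℝ) * r ≤ 9592306918328966840320 := by exact_mod_cast hu
  have m1 := mul_le_mul_of_nonneg_right hl hr0
  have m2 := mul_le_mul_of_nonneg_right hw hr0
  have hy : |-w * δ / 16777216| ≤ 520 := by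
    have h1 : |w| ≤ w + 16 := by rw [abs_le]; constructor <;> linarith
    have h2 : |w| * |δ| ≤ (w + 16) * r := mul_le_mul h1 hδ (abs_nonneg _) (by linarith)
    rw [abs_div, abs_mul, abs_neg, abs_of_pos (by norm_num : (0 : ℝ) < 16777216),
      div_le_iff₀ (by norm_num)]
    rcases le_total 0 w with h3 | h3
    · rw [abs_of_nonneg h3]
      have := mul_le_mul_of_nonneg_left hδ h3
      norm_num at m2 ⊢
      nlinarith
    · have h4 : |w| ≤ 8 := by rw [abs_le]; constructor <;> linarith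
      have := mul_le_mul h4 hδ (abs_nonneg _) (by norm_num)
      linarith
  rw [abs_le] at hδ
  generalize hA 9592306918328966840320 8796093022208 r u = yA at *
  generalize hB 9592306918328966840320 8796093022208 r l = yB at *
  push_cast at eA eB
  have cs : ((c - r : ℕ) : ℝ) = c - r := Nat.cast_sub (by omega)
  refine ⟨?_, ?_, by linarith, by linarith, hy⟩
  · refine vok2 false e _ _ _ _ (by cases tg <;> simp <;> omega) (by omega) (d := c + δ) ?_
    refine lin_seg (9592306918328966840320 + w * 2 ^ 40 * c) (-(w * 2 ^ 40)) ?_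
      (by push_cast; linarith) ?_ (by push_cast; norm_num at m2 ⊢; linarith) (by norm_num; linarith)
    · cases tg
      · show ((c - r : ℕ) : ℝ) ≤ _
        linarith
      · show ((c + r : ℕ) : ℝ) ≤ _
        rw [ht rfl]; push_cast; rfl
    · cases tg
      · show (yB : ℝ) ≤ _ + _ * ((c - r : ℕ) : ℝ)
        rw [cs]; norm_num at m1 ⊢; linarith
      · show (yA : ℝ) ≤ _ + _ * ((c + r : ℕ) : ℝ)
        push_cast; norm_num at m2 ⊢; linarith
  · refine vok2 false e _ _ _ _ (by cases tg <;> simp <;> omega) (by omega) (d := c + δ) ?_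
    refine lin_seg (9592306918328966840320 - w * 2 ^ 40 * c) (w * 2 ^ 40) ?_
      (by push_cast; linarith) ?_ (by push_cast; norm_num at m1 ⊢; linarith) (by norm_num; linarith)
    · cases tg
      · show ((c - r : ℕ) : ℝ) ≤ _
        linarith
      · show ((c + r : ℕ) : ℝ) ≤ _
        rw [ht rfl]; push_cast; rfl
    · cases tg
      · show (yA : ℝ) ≤ _ + _ * ((c - r : ℕ) : ℝ)
        rw [cs]; norm_num at m2 ⊢; linarith
      · show (yB : ℝ) ≤ _ + _ * ((c + r : ℕ) : ℝ)
        push_cast; norm_num at m1 ⊢; linarith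

theorem uniq (N : ℕ) (hN : N ≤ 8) (b : List (List (ℕ × ℕ))) (rho cert : List (List ℕ))
    (h1 : allP N (rgOk b rho) = true)
    (h2 : (allP N fun i j => far N (nP N) (68719476736 * wB N 0) (ent 0 cert i j)
      (cone N b rho i j)) = true) (θ θ' : ℕ → ℝ) (e1 : NodeEq N θ) (e2 : NodeEq N θ')
    (b1 : ∀ i j, i < j → j < N → InP θ (ent (0, 0) b i j) i j)
    (b2 : ∀ i j, i < j → j < N → InP θ' (ent (0, 0) b i j) i j) :
    ∀ i j, i < j → j < N → θ j - θ i = θ' j - θ' i := by
  by_contra hne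
  push Not at hne
  obtain ⟨i0, j0, hi0, hj0, hne⟩ := hne
  have rg : ∀ i j, i < j → j < N → 262144 ≤ (ent (0, 0) b i j).1 ∧ (ent (0, 0) b i j).2 ≤ 16515072 ∧
      1 ≤ ent 0 rho i j ∧ ent 0 rho i j ≤ 65536 ∧
      vU (ent (0, 0) b i j) * ent 0 rho i j ≤ 9592306918328966840320 := by
    intro i j hij hj
    have := allP_spec h1 hij hj
    unfold rgOk at this
    rw [Bool.and_eq_true, Bool.and_eq_true, Bool.and_eq_true, Bool.and_eq_true] at this
    exact ⟨Nat.le_of_ble_eq_true this.1.1.1.1, Nat.le_of_ble_eq_true this.1.1.1.2,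
      Nat.le_of_ble_eq_true this.1.1.2, Nat.le_of_ble_eq_true this.1.2,
      Nat.le_of_ble_eq_true this.2⟩
  obtain ⟨D, hD⟩ : ∃ D : ℕ → ℕ → ℝ, ∀ i j, D i j = θ j - θ i - (θ' j - θ' i) := ⟨_, fun _ _ => rfl⟩
  obtain ⟨⟨p, q⟩, hpq, hmax⟩ := exists_max_image ((range N ×ˢ range N).filter fun z => z.1 < z.2)
    (fun z => |D z.1 z.2| / ((ent 0 rho z.1 z.2 : ℕ) : ℝ))
    ⟨(i0, j0), by simp [hi0, hj0, hi0.trans hj0]⟩
  simp only [mem_filter, mem_product, mem_range, Prod.forall, and_imp] at hpq hmax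
  obtain ⟨⟨-, hq⟩, hp⟩ := hpq
  have rpos : ∀ i j, i < j → j < N → (0 : ℝ) < ((ent 0 rho i j : ℕ) : ℝ) := fun i j hij hj => by
    exact_mod_cast (rg i j hij hj).2.2.1
  have hD0 : 0 < |D p q| := by
    have h3 := hmax i0 j0 (hi0.trans hj0) hj0 hi0
    have h4 : 0 < |D i0 j0| / ((ent 0 rho i0 j0 : ℕ) : ℝ) :=
      div_pos (abs_pos.2 (by rw [hD]; exact sub_ne_zero.2 hne)) (rpos _ _ hi0 hj0)
    exact (div_pos_iff_of_pos_right (rpos _ _ hp hq)).1 (h4.trans_le h3)
  obtain ⟨σ, hσ⟩ : ∃ σ : ℝ, σ = ((ent 0 rho p q : ℕ) : ℝ) / D p q := ⟨_, rfl⟩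
  obtain ⟨c1, c2⟩ := bld_ok (P := fun r i j => ROK r (pc i j)
      ((1048576 * j + σ * (θ j - θ' j)) - (1048576 * i + σ * (θ i - θ' i)))
      (σ * (Gp (θ j - θ i) - Gp (θ' j - θ' i))))
    (fun i j => coneR (Nat.beq i p && Nat.beq j q) (pc i j) (1048576 * (j - i)) (ent 0 rho i j)
    (hA 9592306918328966840320 8796093022208 (ent 0 rho i j) (vU (ent (0, 0) b i j)))
    (hB 9592306918328966840320 8796093022208 (ent 0 rho i j) (vL (ent (0, 0) b i j)))) N 0
    (fun i j _ hij hj => by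
      rw [zero_add] at hj
      obtain ⟨r1, r2, r3, r4, r5⟩ := rg i j hij hj
      obtain ⟨w, ⟨w1, w2, w3⟩, w4⟩ := slope_range _ r1 r2 (b1 i j hij hj).1 (b1 i j hij hj).2
        (b2 i j hij hj).1 (b2 i j hij hj).2
      have := coneR_ok (Nat.beq i p && Nat.beq j q) (pc i j) (1048576 * (j - i)) _ _ _ w (σ * D i j)
        (by omega) (by omega) r4 r5 w1 w2 w3 (by
          have h3 := hmax i j (hij.trans hj) hj hij
          rw [div_le_div_iff₀ (rpos _ _ hij hj) (rpos _ _ hp hq)] at h3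
          rw [abs_mul, hσ, abs_div, abs_of_pos (rpos _ _ hp hq), div_mul_eq_mul_div,
            div_le_iff₀ hD0]
          linarith) (by
          intro ht
          rw [Bool.and_eq_true] at ht
          rw [Nat.eq_of_beq_eq_true ht.1, Nat.eq_of_beq_eq_true ht.2, hσ]
          exact div_mul_cancel₀ _ (abs_pos.1 hD0))
      convert this using 1
      · rw [hD]; push_cast [Nat.cast_sub hij.le]; ring
      · rw [w4, hD]; ring)
  refine far_sound N _ _ (fun k => 1048576 * k + σ * (θ k - θ' k))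
    (fun i j => σ * (Gp (θ j - θ i) - Gp (θ' j - θ' i))) c1 hN c2 (fun lam => ?_)
    (allP_spec h2 hp hq)
  have h3 : S2 (fun a b => (lam a - lam b) * (σ * (Gp (θ b - θ a) - Gp (θ' b - θ' a)))) N 0 =
      σ * S2 (fun a b => (lam a - lam b) * Gp (θ b - θ a)) N 0 +
        (-σ) * S2 (fun a b => (lam a - lam b) * Gp (θ' b - θ' a)) N 0 := by
    rw [← S2_mul, ← S2_mul, ← S2_add]
    exact S2_congr _ _ fun a b _ _ _ => by ring
  rw [h3, e1.s2, e2.s2]
  simp

/-- the configuration is invariant under a reflection -/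
def Sym (N : ℕ) (θ : ℕ → ℝ) : Prop :=
  ∃ α : ℝ, ∀ i, i < N → ∃ j, j < N ∧ ∃ n : ℤ, θ j = α - θ i + n * 16777216

theorem good_of_uq {N m : ℕ} (hN : N ≤ 8) {b : List (List (ℕ × ℕ))} {rho cert : List (List ℕ)}
    (h : uq N m b rho cert = true) : Good N (Sym N) b := by
  intro θ he _ hlen hb
  unfold uq at h
  rw [Bool.and_eq_true, Bool.and_eq_true, Bool.and_eq_true] at h
  obtain ⟨⟨⟨h0, h1⟩, h2⟩, h3⟩ := h
  have hm : m < N := Nat.le_of_ble_eq_true h0
  have b1 : ∀ i j, i < j → j < N → InP θ (ent (0, 0) b i j) i j := fun i j hij hj =>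
    hb.ent _ hij (by omega)
  have rl : ∀ k, k < N → rf N m k < N := fun k hk => by unfold rf; split_ifs <;> omega
  have rr : ∀ k, k < N → rf N m (rf N m k) = k := fun k hk => by unfold rf; split_ifs <;> omega
  obtain ⟨n, hn⟩ : ∃ n : ℕ → ℤ, ∀ k, n k = if k ≤ m then 0 else 1 := ⟨_, fun _ => rfl⟩
  obtain ⟨θ', hθ'⟩ : ∃ θ' : ℕ → ℝ, ∀ k, θ' k = θ m + θ 0 - θ (rf N m k) + n k * 16777216 :=
    ⟨_, fun _ => rfl⟩
  have he' : NodeEq N θ' := by
    intro i hi
    have h4 : ∑ j ∈ range N, Gp (θ' j - θ' i) =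
        ∑ j ∈ range N, -Gp (θ (rf N m j) - θ (rf N m i)) := by
      refine sum_congr rfl fun j _ => ?_
      rw [← Gp_neg, ← Gp_int (-_) (n j - n i), hθ', hθ']
      congr 1
      push_cast
      ring
    have h5 : ∑ j ∈ range N, Gp (θ (rf N m j) - θ (rf N m i)) =
        ∑ j ∈ range N, Gp (θ j - θ (rf N m i)) :=
      sum_nbij' (rf N m) (rf N m) (fun k hk => mem_range.2 (rl k (mem_range.1 hk)))
        (fun k hk => mem_range.2 (rl k (mem_range.1 hk))) (fun k hk => rr k (mem_range.1 hk))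
        (fun k hk => rr k (mem_range.1 hk)) (fun _ _ => rfl)
    rw [h4, sum_neg_distrib, h5, he _ (rl i hi), neg_zero]
  have b2 : ∀ i j, i < j → j < N → InP θ' (ent (0, 0) b i j) i j := by
    intro i j hij hj
    have h4 := allP_spec h1 hij hj
    unfold rfOk at h4
    unfold InP
    rw [hθ', hθ', hn, hn]
    cases hc : (Nat.ble j m || Nat.ble (m + 1) i)
    · rw [hc, cond_false, Bool.and_eq_true] at h4
      rw [Bool.or_eq_false_iff] at hc
      have c1 := ble_false hc.1
      have c2 := ble_false hc.2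
      have c3 := b1 (rf N m i) (rf N m j) (by unfold rf; split_ifs <;> omega) (rl j hj)
      have c4 := (Nat.cast_le (α := ℝ)).2 (Nat.le_of_ble_eq_true h4.1)
      have c5 := (Nat.cast_le (α := ℝ)).2 (Nat.le_of_ble_eq_true h4.2)
      rw [if_neg (by omega), if_pos (by omega)]
      push_cast at c4 c5 ⊢
      constructor <;> linarith [c3.1, c3.2]
    · rw [hc, cond_true, Bool.and_eq_true] at h4
      rw [Bool.or_eq_true] at hc
      have c1 : j ≤ m ∨ m + 1 ≤ i := hc.imp Nat.le_of_ble_eq_true Nat.le_of_ble_eq_true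
      have c3 := b1 (rf N m j) (rf N m i) (by unfold rf; split_ifs <;> omega) (rl i (by omega))
      have c4 := (Nat.cast_le (α := ℝ)).2 (Nat.le_of_ble_eq_true h4.1)
      have c5 := (Nat.cast_le (α := ℝ)).2 (Nat.le_of_ble_eq_true h4.2)
      have c6 : (if j ≤ m then (0 : ℤ) else 1) = if i ≤ m then 0 else 1 := by
        split_ifs <;> omega
      rw [c6]
      constructor <;> linarith [c3.1, c3.2]
  have hu := uniq N hN b rho cert h2 h3 θ θ' he he' b1 b2
  have h00 : θ' 0 = θ 0 := by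
    rw [hθ', hn]; simp [rf]
  have hall : ∀ k, k < N → θ k = θ' k := by
    intro k hk
    rcases Nat.eq_zero_or_pos k with h | h
    · rw [h, h00]
    · have := hu 0 k h hk
      linarith
  refine ⟨θ m + θ 0, fun i hi => ⟨rf N m i, rl i hi, n (rf N m i), ?_⟩⟩
  rw [hall _ (rl i hi), hθ', rr i hi]

end Pool.Agent.H370Z.CC
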